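import Pool.Agent.H96.W2.Glob4
import Pool.Agent.H96.W.Final
import Mathlib.RingTheory.AlgebraicIndependent.TranscendenceBasis

/-!
# Abelian covers of products of curves
-/

set_option autoImplicit false
set_option linter.unusedSectionVars false

namespace Pool.Agent.H96.W2

open Pool.Agent.H19.OG Pool.Agent.H96.W

/-- The transcendence degree over the prime field. -/
theorem trdeg_zmod (p : ℕ) [Fact p.Prime] (k F : Type) [Field k] [Finite k] [Field F] [Algebra k F]
    [Algebra (ZMod p) k] [Algebra (ZMod p) F] [IsScalarTower (ZMod p) k F]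
    (h : Algebra.trdeg k F = 1) : Algebra.trdeg (ZMod p) F = 1 := by
  have h0 : Algebra.IsAlgebraic (ZMod p) k := Algebra.IsAlgebraic.of_finite (ZMod p) k
  rw [← trdeg_add_eq (ZMod p) k (A := F), h, trdeg_eq_zero, zero_add]

/-- **Models of fields generated by independent function fields of curves, Artin–Schreier elements
and Kummer elements.** -/
theorem hasCharts_AK (p : ℕ) [Fact p.Prime] (k : Type) [Field k] [Finite k] [CharP k p]
    (K : Type) [Field K] [Algebra k K] (n m r : ℕ)
    (F : Fin n → IntermediateField k K)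
    (hF : ∀ i, (F i).FG ∧ Algebra.trdeg k (F i) = 1)
    (htr : Algebra.trdeg k K = n) (Λ : Matrix (Fin m) (Fin m) k) (hΛ : IsUnit Λ.det)
    (f : ∀ i, Fin m → F i) (h : ∀ i, Fin r → F i) (z : Fin m → K) (w : Fin r → K) (N : Fin r → ℕ)
    (hf : ∀ i (W : ValuationSubring (F i)), W ≠ ⊤ → Scalar p Λ (f i) W)
    (hz : ∀ a, z a ^ p - ∑ b, algebraMap k K (Λ a b) * z b = ∑ i, (f i a : K))
    (hh : ∀ i b, h i b ≠ 0) (hN : ∀ b, ¬ p ∣ N b)
    (hw : ∀ b, w b ^ N b = ∏ i, (h i b : K))
    (hgen : (⨆ i, F i) ⊔ IntermediateField.adjoin k (Set.range z ∪ Set.range w) = ⊤) :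
    HasCharts K := by
  classical
  have := Fintype.ofFinite k
  let _ : Algebra (ZMod p) k := ZMod.algebra k p
  have hcF : ∀ i, CharP (F i) p := fun i =>
    charP_of_injective_algebraMap (algebraMap k (F i)).injective p
  let _ : ∀ i, Algebra (ZMod p) (F i) := fun i => ZMod.algebra (F i) p
  have hst : ∀ i, IsScalarTower (ZMod p) k (F i) := fun i =>
    IsScalarTower.of_algebraMap_eq' (Subsingleton.elim _ _)
  have hcd : ∀ i, Nonempty (CData p k (F i) Λ (f i) (h i)) := by
    intro i
    have h1 : Algebra.EssFiniteType k (F i) := IntermediateField.essFiniteType_iff.mpr (hF i).1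
    have h2 : Algebra.EssFiniteType (ZMod p) (F i) := Algebra.EssFiniteType.comp (ZMod p) k (F i)
    exact nonempty_cdata p k (F i) (trdeg_zmod p k (F i) (hF i).2) Λ (f i) (h i) (hh i) (hf i)
  have hw0 : ∀ b, w b ≠ 0 := by
    intro b hb
    have h1 := hw b
    have h2 : ∏ i, (h i b : K) ≠ 0 := Finset.prod_ne_zero_iff.mpr fun i _ h3 =>
      hh i b (Subtype.ext h3)
    have h3 : N b ≠ 0 := fun h4 => hN b (by rw [h4]; exact dvd_zero p)
    rw [hb, zero_pow h3] at h1
    exact h2 h1.symm
  let G : GData p k K (Fin n) (fun i => F i) m r :=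
    { Λ := Λ
      Λu := hΛ
      f := f
      h := h
      cd := fun i => (hcd i).some
      z := z
      AS := hz
      w := w
      w0 := hw0
      Nw := N
      Nw0 := hN
      KM := hw
      gen := by
        intro R hinv hkR hFR hzR hwR
        let R' : IntermediateField k K :=
          { carrier := R
            mul_mem' := fun ha hb => R.mul_mem ha hb
            one_mem' := R.one_mem
            add_mem' := fun ha hb => R.add_mem ha hb
            zero_mem' := R.zero_mem
            algebraMap_mem' := hkR
            inv_mem' := by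
              intro x hx
              by_cases hx0 : x = 0
              · rw [hx0, inv_zero]; exact R.zero_mem
              · exact hinv x hx hx0 }
        have h1 : (⊤ : IntermediateField k K) ≤ R' := by
          rw [← hgen]
          refine sup_le (iSup_le fun i w hw => hFR i ⟨w, hw⟩) ?_
          rw [IntermediateField.adjoin_le_iff]
          rintro _ (⟨a, rfl⟩ | ⟨a, rfl⟩)
          · exact hzR a
          · exact hwR a
        rw [eq_top_iff]
        intro x _
        exact h1 (show x ∈ (⊤ : IntermediateField k K) from trivial) }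
  refine G.hasCharts ?_
  rw [htr, Fintype.card_fin]

end Pool.Agent.H96.W2
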