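import Pool.Agent.H96.W.LocB

/-!
# Regularity at the centre of a valuation, over a field of constants
-/

set_option autoImplicit false
set_option linter.unusedSectionVars false

namespace Pool.Agent.H96.W2

open MvPolynomial IsLocalRing Pool.Agent.H96.Reg Pool.Agent.H96.VL Pool.Agent.H96.W

variable {A : Type} [CommRing A]

/-- The constants are integral and compatible with the residue field. -/
def CompatA (A : Type) [CommRing A] {K : Type} [Field K] [Algebra A K] (V : ValuationSubring K)
    [Algebra A (ResidueField V)] : Prop :=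
  ∀ a : A, V.valuation (algebraMap A K a) ≤ 1 ∧
    resv V (algebraMap A K a) = algebraMap A (ResidueField V) a

theorem resv_aeval2 {K : Type} [Field K] [Algebra A K] {V : ValuationSubring K}
    [Algebra A (ResidueField V)] (hA : CompatA A V) {σ : Type} (z : σ → K)
    (hz : ∀ s, V.valuation (z s) ≤ 1) (P : MvPolynomial σ A) :
    V.valuation (aeval z P) ≤ 1 ∧ resv V (aeval z P) = aeval (fun s => resv V (z s)) P := by
  induction P using MvPolynomial.induction_on with
  | C n =>
    rw [aeval_C, aeval_C]
    exact hA n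
  | add P Q hP hQ =>
    refine ⟨?_, ?_⟩
    · rw [map_add]
      exact (V.valuation.map_add _ _).trans (max_le hP.1 hQ.1)
    · rw [map_add, resv_add hP.1 hQ.1, hP.2, hQ.2, map_add]
  | mul_X P i hP =>
    refine ⟨?_, ?_⟩
    · rw [map_mul, aeval_X, map_mul]
      exact mul_le_one' hP.1 (hz i)
    · rw [map_mul, aeval_X, resv_mul hP.1 (hz i), hP.2, map_mul, aeval_X]

/-- **Regularity at the centre of a valuation, from relations.** -/
theorem isRegularLocalRing_vloc2 [IsDomain A] [IsRegularRing A]
    {σ κ : Type} [Finite σ] [Fintype κ]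
    {K : Type} [Field K] [Algebra A K] [FaithfulSMul A K] (V : ValuationSubring K)
    [Algebra A (ResidueField V)] (hA : CompatA A V) (z : σ → K)
    (hAB : ∀ a : A, algebraMap A K a ∈ Algebra.adjoin ℤ (Set.range z))
    (hz : ∀ s, V.valuation (z s) ≤ 1)
    (halg : Algebra.IsAlgebraic (Algebra.adjoin A (Set.range z)) K)
    (f : κ → MvPolynomial σ A) (hf : ∀ k, aeval z (f k) = 0)
    (htr : (Nat.card σ : Cardinal.{0}) ≤ Algebra.trdeg A K + Fintype.card κ)
    (hind : IndepAt f (RingHom.ker
      (aeval (fun s => resv V (z s)) : MvPolynomial σ A →ₐ[A] ResidueField V))) :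
    IsRegularLocalRing (vloc V (Algebra.adjoin ℤ (Set.range z))) := by
  classical
  set B := Algebra.adjoin ℤ (Set.range z) with hB
  have hBV : ∀ x ∈ B, V.valuation x ≤ 1 := by
    apply adjoin_val_le
    rintro _ ⟨s, rfl⟩
    exact hz s
  have hmem : ∀ x, x ∈ Algebra.adjoin A (Set.range z) ↔ x ∈ B := by
    intro x
    constructor
    · intro hx
      induction hx using Algebra.adjoin_induction with
      | mem x hx => exact Algebra.subset_adjoin hx
      | algebraMap r => exact hAB r
      | add x y _ _ hx hy => exact B.add_mem hx hy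
      | mul x y _ _ hx hy => exact B.mul_mem hx hy
    · intro hx
      exact adjoin_le_of (R := (Algebra.adjoin A (Set.range z)).toSubring)
        (fun x hx => Algebra.subset_adjoin hx) x hx
  let B' := Algebra.adjoin A (Set.range z)
  let e : B' ≃+* B := 
    { toFun := fun x => ⟨x, (hmem _).mp x.2⟩
      invFun := fun x => ⟨x, (hmem _).mpr x.2⟩
      left_inv := fun x => rfl
      right_inv := fun x => rfl
      map_mul' := fun x y => rfl
      map_add' := fun x y => rfl }
  let π : MvPolynomial σ A →ₐ[A] B' := aeval (fun i => ⟨z i, Algebra.subset_adjoin ⟨i, rfl⟩⟩)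
  have hπx : ∀ g, ((π g : B') : K) = aeval z g := by
    intro g
    have : (B'.val.comp π) = aeval z := by
      apply MvPolynomial.algHom_ext
      intro i
      simp [π]
    exact congrFun (congrArg DFunLike.coe this) g
  have hπ : Function.Surjective π := by
    rintro ⟨w, hw⟩
    have hz' : w ∈ Algebra.adjoin A (Set.range z) := hw
    rw [Algebra.adjoin_range_eq_range_aeval] at hz'
    obtain ⟨g, hg⟩ := hz'
    exact ⟨g, Subtype.ext ((hπx g).trans hg)⟩
  have hht := height_ker_aeval_leA (κ := κ) B' z rfl halg htr π hπx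
  let π' : MvPolynomial σ A →+* B := (e : B' →+* B).comp (π : MvPolynomial σ A →+* B')
  have hπ' : Function.Surjective π' := e.surjective.comp hπ
  have hker : RingHom.ker π' = RingHom.ker (π : MvPolynomial σ A →+* B') := by
    ext g
    show e (π g) = 0 ↔ π g = 0
    rw [map_eq_zero_iff _ e.injective]
  let ε : Fin (Fintype.card κ) ≃ κ := (Fintype.equivFin κ).symm
  have hf0 : ∀ k, π' (f k) = 0 := by
    intro k
    apply Subtype.ext
    exact (hπx (f k)).trans (hf k)
  have hnoeth : IsNoetherianRing B := isNoetherianRing_of_surjective _ _ π' hπ'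
  let q := centre V B hBV
  have hq : q.IsPrime := centre_isPrime V B hBV
  have hcomap : q.comap π' = RingHom.ker
      (aeval (fun s => resv V (z s)) : MvPolynomial σ A →ₐ[A] ResidueField V) := by
    ext g
    have h1 := resv_aeval2 hA z hz g
    show V.valuation ((π g : B') : K) < 1 ↔ aeval (fun s => resv V (z s)) g = 0
    rw [hπx, ← resv_eq_zero_iff h1.1, h1.2]
  have hreg : IsRegularLocalRing (Localization.AtPrime q) := by
    refine isRegularLocalRing_of_surjective_pt π' hπ' (f ∘ ε) (fun k => hf0 _) ?_ q ?_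
    · rw [hker]; exact hht
    · rw [hcomap]
      exact hind.comp_equiv ε
  obtain ⟨e⟩ := exists_equiv V B hBV q (fun x => Iff.rfl)
  exact IsRegularLocalRing.of_ringEquiv e

section Poly

variable {ι : Type} [Fintype ι] [DecidableEq ι] {υ : Type} [Fintype υ]
  [DecidableEq υ] {T : Type} [Fintype T]

/-- **The local criterion** in terms of monomials. -/
theorem isRegular_of_mrel2 [IsDomain A] [IsRegularRing A] {κ : Type} [Fintype κ]
    {K : Type} [Field K] [Algebra A K] [FaithfulSMul A K] (V : ValuationSubring K)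
    [Algebra A (ResidueField V)] (hA : CompatA A V)
    {τ : ι → K} (hτ : ∀ α, τ α ≠ 0) {C : Cone ι} (hC : IsCone C)
    (hb : ∀ j, V.valuation (mon τ (C.b j)) ≤ 1) {y : υ → K} (hy : ∀ l, V.valuation (y l) ≤ 1)
    (hAy : ∀ a : A, ∃ l, y l = algebraMap A K a)
    (halg : Algebra.IsAlgebraic (Algebra.adjoin A
      (Set.range (Sum.elim (fun j => mon τ (C.b j)) y))) K)
    (ρ : κ → MRel ι υ A T) (hok : ∀ c, (ρ c).Ok C)
    (h : ∀ c, ∑ s, aeval y ((ρ c).c s) * mon τ ((ρ c).x s) = 0)
    (htr : (Fintype.card ι + Fintype.card υ : Cardinal.{0}) ≤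
      Algebra.trdeg A K + Fintype.card κ)
    (hind : ∀ a : κ → ResidueField V,
      (∀ α, ∑ c, a c * ∑ s, aeval (fun l => resv V (y l)) ((ρ c).c s) *
        (∏ j, resv V (mon τ (C.b j)) ^ (ρ c).n C s j) *
        (((ρ c).x s α : ℤ) : ResidueField V) = 0) →
      (∀ l, ∑ c, a c * ∑ s, aeval (fun l => resv V (y l)) (pderiv l ((ρ c).c s)) *
        ∏ j, resv V (mon τ (C.b j)) ^ (ρ c).n C s j = 0) →
      ∀ c, a c = 0) :
    IsRegularLocalRing (vloc V (Algebra.adjoin ℤ
      (Set.range (Sum.elim (fun j => mon τ (C.b j)) y)))) := by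
  have hz : ∀ s, V.valuation (Sum.elim (fun j => mon τ (C.b j)) y s) ≤ 1 := by
    rintro (j | l)
    · exact hb j
    · exact hy l
  have hres : (fun s => resv V (Sum.elim (fun j => mon τ (C.b j)) y s)) =
      Sum.elim (fun j => resv V (mon τ (C.b j))) (fun l => resv V (y l)) := by
    funext s
    rcases s with j | l <;> rfl
  have hrel : ∀ c, aeval (Sum.elim (fun j => mon τ (C.b j)) y) ((ρ c).poly C) = 0 := fun c =>
    MRel.aeval_poly_eq_zero hτ hC (hok c) (h c)
  refine isRegularLocalRing_vloc2 (κ := κ) V hA _ ?_ hz halg (fun c => (ρ c).poly C) hrel ?_ ?_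
  · intro a
    obtain ⟨l, hl⟩ := hAy a
    exact Algebra.subset_adjoin ⟨Sum.inr l, hl⟩
  · rw [Nat.card_sum, Nat.card_eq_fintype_card, Nat.card_eq_fintype_card]
    push_cast
    exact htr
  · rw [hres]
    refine indep_of_log hC ρ hok _ _ ?_ hind
    intro c
    have h1 := (resv_aeval2 hA _ hz ((ρ c).poly C)).2
    rw [hrel, hres] at h1
    rw [← h1]
    exact (resv_eq_zero_iff (by simp)).mpr (by simp)

end Poly

/-- The map from the constants to the residue field. -/
noncomputable def resK (k : Type) [Field k] {K : Type} [Field K] [Algebra k K]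
    (V : ValuationSubring K) (h : ∀ a : k, V.valuation (algebraMap k K a) ≤ 1) :
    k →+* ResidueField V :=
  (residue V).comp ((algebraMap k K).codRestrict V.toSubring fun a =>
    (V.valuation_le_one_iff _).mp (h a))

theorem val_const {k : Type} [Field k] [Finite k] {K : Type} [Field K] [Algebra k K]
    (V : ValuationSubring K) {a : k} (ha : a ≠ 0) : V.valuation (algebraMap k K a) = 1 := by
  have := Fintype.ofFinite k
  have h1 : a ^ (Fintype.card k - 1) = 1 := FiniteField.pow_card_sub_one_eq_one a ha
  have h2 := congrArg (fun x => V.valuation (algebraMap k K x)) h1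
  simp only [map_pow, map_one] at h2
  have h3 : Fintype.card k - 1 ≠ 0 := by
    have := Fintype.one_lt_card (α := k)
    omega
  rcases lt_trichotomy (V.valuation (algebraMap k K a)) 1 with h4 | h4 | h4
  · exact absurd h2 (pow_lt_one₀ zero_le h4 h3).ne
  · exact h4
  · exact absurd h2 (one_lt_pow₀ h4 h3).ne'

theorem val_const_le {k : Type} [Field k] [Finite k] {K : Type} [Field K] [Algebra k K]
    (V : ValuationSubring K) (a : k) : V.valuation (algebraMap k K a) ≤ 1 := by
  by_cases ha : a = 0
  · rw [ha, map_zero, map_zero]; exact zero_le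
  · exact (val_const V ha).le

theorem compat_resK {k : Type} [Field k] {K : Type} [Field K] [Algebra k K]
    (V : ValuationSubring K) (h : ∀ a : k, V.valuation (algebraMap k K a) ≤ 1) :
    @CompatA k _ K _ _ V (resK k V h).toAlgebra := by
  intro a
  refine ⟨h a, ?_⟩
  rw [resv, dif_pos ((V.valuation_le_one_iff _).mp (h a))]
  rfl

end Pool.Agent.H96.W2
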