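import Pool.Agent.H96.W2.Glob3

/-!
# The main theorem on models of abelian covers of products of curves
-/

set_option autoImplicit false
set_option linter.unusedSectionVars false

namespace Pool.Agent.H96.W2

open MvPolynomial IsLocalRing Pool.Agent.H96.Reg Pool.Agent.H96.VL Pool.Agent.H96.W
open scoped Pointwise

variable {p : ℕ} [Fact p.Prime] {k K : Type} [Field k] [Fintype k] [DecidableEq k] [Field K]
    [Algebra k K] [Algebra (ZMod p) k] {I : Type} [Fintype I] [DecidableEq I] {F : I → Type}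
    [∀ i, Field (F i)] [∀ i, Algebra (ZMod p) (F i)] [∀ i, Algebra k (F i)]
    [∀ i, Algebra (F i) K] [∀ i, IsScalarTower k (F i) K]
    [∀ i, IsScalarTower (ZMod p) k (F i)] {m r : ℕ}

variable {G : GData p k K I F m r} {V : ValuationSubring K} {R : Subring K}

/-- The values of the twists. -/
noncomputable def GData.sl (G : GData p k K I F m r) (V : ValuationSubring K) :
    Ix k I m r → K :=
  Sum.elim (fun i => algebraMap (F i) K (G.xf i (G.σV V i)))
    (Sum.elim (fun _ => G.xs (G.σV V))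
      fun _ => ∏ i, algebraMap (F i) K (G.xf i (G.σV V i)) ^ G.M)

section Gens

variable [DecidableEq K]

theorem gen_sI (lg : LG G V) (h : G.Base V R) (i : I) :
    Gen R (G.sI i) (algebraMap (F i) K (G.xf i (G.σV V i)) * lg.L.t i) := by
  have h0 : lg.tF i * G.xf i (G.σV V i) ≠ 0 := by
    refine mul_ne_zero ?_ (G.xf_ne i _)
    intro h0
    have h1 := lg.L.t_ne_zero i
    rw [lg.t_eq, h0, map_zero] at h1
    exact h1 rfl
  have h1 : algebraMap (F i) K (G.xf i (G.σV V i)) * lg.L.t i =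
      algebraMap (F i) K (lg.tF i * G.xf i (G.σV V i)) := by
    rw [lg.t_eq, map_mul, mul_comm]
  rw [h1]
  show Gen R ((G.cd i).T.image (algebraMap (F i) K)) _
  obtain ⟨g, hg, hge⟩ := lg.T_eq i
  have hg0 : g ≠ 0 := by
    rintro rfl
    exact (G.cd i).zero_T hg
  refine ⟨(map_ne_zero _).mpr h0, fun g' hg' => ?_, algebraMap (F i) K g,
    Finset.mem_image_of_mem _ hg, GData.div_mem_base h hg0 hge.ge, (map_ne_zero _).mpr hg0⟩
  obtain ⟨w, hw, rfl⟩ := Finset.mem_image.mp hg'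
  exact GData.div_mem_base h h0 (lg.T_le i w hw)

theorem gen_ss (lg : LG G V) (h : G.Base V R) (α : Ix k I m r) :
    Gen R (G.ss α) (G.sl V α * lg.L.τ α ^ (sε k I m r α : ℤ)) := by
  rcases α with i | c | b
  · have h1 : G.sl V (Sum.inl i) * lg.L.τ (Sum.inl i) ^ (sε k I m r (Sum.inl i) : ℤ) =
        algebraMap (F i) K (G.xf i (G.σV V i)) * lg.L.t i := by
      show algebraMap (F i) K (G.xf i (G.σV V i)) * lg.L.t i ^ (1 : ℤ) = _
      rw [zpow_one]
    rw [h1]
    exact gen_sI lg h i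
  · have h1 : G.sl V (Sum.inr (Sum.inl c)) *
        lg.L.τ (Sum.inr (Sum.inl c)) ^ (sε k I m r (Sum.inr (Sum.inl c)) : ℤ) = G.gC V c := by
      show G.xs (G.σV V) * lg.L.τ (Sum.inr (Sum.inl c)) ^ (-1 : ℤ) = _
      rw [zpow_neg_one, GData.gC]
      by_cases hc : c ∈ lg.L.C1
      · rw [lg.L.τ_c, lg.L.ω_of_mem hc, inv_one, if_pos (by rw [← lg.z_eq]; exact hc)]
      · rw [lg.L.τ_c, lg.L.ω_of_notMem hc, inv_inv, if_neg (by rw [← lg.z_eq]; exact hc), lg.z_eq]
    rw [h1]
    exact GData.gen_sC h c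
  · have h1 : G.sl V (Sum.inr (Sum.inr b)) *
        lg.L.τ (Sum.inr (Sum.inr b)) ^ (sε k I m r (Sum.inr (Sum.inr b)) : ℤ) =
        G.w b * ∏ i, (algebraMap (F i) K (G.xf i (G.σV V i)) * lg.L.t i) ^ G.M := by
      show (∏ i, algebraMap (F i) K (G.xf i (G.σV V i)) ^ G.M) *
        (lg.L.w b * ∏ i, lg.L.t i ^ G.M) ^ (1 : ℤ) = _
      rw [zpow_one, lg.w_eq]
      simp only [mul_pow, Finset.prod_mul_distrib]
      ring
    rw [h1]
    exact (Gen.singleton (G.w0 b)).mul (Gen.prod _ fun i _ => (gen_sI lg h i).pow _)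

theorem gen_sL (h : G.Base V R) (α : Ix k I m r) : Gen R (G.sL α) (G.sl V α) := by
  rcases α with i | c | b
  · exact GData.gen_sLI h.b1 i
  · exact GData.gen_sLC h.b1
  · exact Gen.prod _ fun i _ => (GData.gen_sLI h.b1 i).pow _

theorem ss_ne (α : Ix k I m r) : ∃ g ∈ G.ss α, g ≠ 0 := by
  obtain ⟨lg⟩ := nonempty_lg G ⊤
  obtain ⟨g, hg, -, h0⟩ := (gen_ss lg (GData.base_self ⊤) α).ex
  exact ⟨g, hg, h0⟩

theorem sL_ne (α : Ix k I m r) : ∃ g ∈ G.sL α, g ≠ 0 := by
  obtain ⟨g, hg, -, h0⟩ := (gen_sL (GData.base_self (G := G) ⊤) α).ex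
  exact ⟨g, hg, h0⟩

end Gens

theorem t_mem (lg : LG G V) (h : G.Base V R) (i : I) : lg.L.t i ∈ R := by
  rw [lg.t_eq]
  exact h.b1 i _ (lg.t_le i)

theorem τ_mem (lg : LG G V) (h : G.Base V R) (hw : ∀ b, lg.L.τ (Sum.inr (Sum.inr b)) ∈ R)
    (α : Ix k I m r) : lg.L.τ α ∈ R := by
  rcases α with i | c | b
  · exact t_mem lg h i
  · by_cases hc : c ∈ lg.L.C1
    · rw [lg.L.τ_c, lg.L.ω_of_mem hc]; exact R.one_mem
    · rw [lg.L.τ_c, lg.L.ω_of_notMem hc, lg.z_eq]
      apply h.b2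
      rw [← lg.z_eq]
      exact hc
  · exact hw b

/-- The ring of the chart. -/
theorem base_vloc (lg : LG G V) (S : EData lg.L) {C : Cone (Ix k I m r)} (hC : IsCone C)
    (hb : ∀ j, V.valuation (mon lg.L.τ (C.b j)) ≤ 1) :
    G.Base V (vloc V (Algebra.adjoin ℤ
      (Set.range (Sum.elim (fun j => mon lg.L.τ (C.b j)) S.Y)))) ∧
    ∀ α, lg.L.τ α ∈ vloc V (Algebra.adjoin ℤ
      (Set.range (Sum.elim (fun j => mon lg.L.τ (C.b j)) S.Y))) := by
  set B := Algebra.adjoin ℤ (Set.range (Sum.elim (fun j => mon lg.L.τ (C.b j)) S.Y)) with hB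
  have hR : VLocal V (vloc V B) := by
    apply vlocal_vloc
    apply adjoin_val_le
    rintro _ ⟨j | l, rfl⟩
    · exact hb j
    · exact S.vY l
  have hbR : ∀ j, mon lg.L.τ (C.b j) ∈ vloc V B := fun j =>
    subset_vloc (Algebra.subset_adjoin ⟨Sum.inl j, rfl⟩)
  have hYR : ∀ l, S.Y l ∈ vloc V B := fun l =>
    subset_vloc (Algebra.subset_adjoin ⟨Sum.inr l, rfl⟩)
  have hk : ∀ c : k, algebraMap k K c ∈ vloc V B := fun c => hYR (Sum.inr (Sum.inr c))
  have hpoly : ∀ i (P : MvPolynomial (Fin (lg.L.n i + 1)) k),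
      aeval (lg.L.y i) P ∈ vloc V B := by
    intro i P
    induction P using MvPolynomial.induction_on with
    | C a => rw [aeval_C]; exact hk a
    | add P Q hP hQ => rw [map_add]; exact Subring.add_mem _ hP hQ
    | mul_X P b hP => rw [map_mul, aeval_X]; exact Subring.mul_mem _ hP (hYR (Sum.inl ⟨i, b⟩))
  have hτ : ∀ α, lg.L.τ α ∈ vloc V B := by
    intro α
    rw [← mon_single (τ := lg.L.τ) α]
    refine hC.mem (Q := {u | mon lg.L.τ u ∈ vloc V B}) (fun u hu v hv => ?_) ?_ hbR (fun j => ?_)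
    · show mon lg.L.τ (u + v) ∈ vloc V B
      rw [mon_add lg.L.τ_ne_zero]
      exact Subring.mul_mem _ hu hv
    · show mon lg.L.τ 0 ∈ vloc V B
      rw [mon_zero]; exact Subring.one_mem _
    · rw [dotProduct_single_one]
      exact hC.pos _ _
  refine ⟨⟨hR, hk, fun i w hw => ?_, fun c hc => ?_, fun c hc => ?_⟩, hτ⟩
  · obtain ⟨a, s, h1, h2⟩ := lg.gen i w hw
    rw [h2]
    exact hR.div_mem (hpoly i a) (hpoly i s) h1
  · rw [← lg.z_eq] at hc ⊢
    have hc' : c ∉ lg.L.C1 := hc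
    rw [← lg.L.ω_of_notMem hc']
    exact hτ (Sum.inr (Sum.inl c))
  · rw [← lg.z_eq] at hc ⊢
    have hc' : c ∈ lg.L.C1 := hc
    rw [S.hlc c hc', map_sum]
    refine Subring.sum_mem _ fun l _ => ?_
    rw [map_smul, Algebra.smul_def]
    exact Subring.mul_mem _ (hk _) (hYR (Sum.inr (Sum.inl l)))

/-- The field is generated by the chart. -/
theorem isAlgebraic_chart (lg : LG G V) (S : EData lg.L) {C : Cone (Ix k I m r)}
    (hC : IsCone C) :
    Algebra.IsAlgebraic (Algebra.adjoin k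
      (Set.range (Sum.elim (fun j => mon lg.L.τ (C.b j)) S.Y))) K := by
  set X := Set.range (Sum.elim (fun j => mon lg.L.τ (C.b j)) S.Y) with hX
  set E := (Subfield.closure X) with hE
  have hbR : ∀ j, mon lg.L.τ (C.b j) ∈ E := fun j => Subfield.subset_closure ⟨Sum.inl j, rfl⟩
  have hYR : ∀ l, S.Y l ∈ E := fun l => Subfield.subset_closure ⟨Sum.inr l, rfl⟩
  have hk : ∀ a : k, algebraMap k K a ∈ E := fun a => hYR (Sum.inr (Sum.inr a))
  have hpoly : ∀ i (P : MvPolynomial (Fin (lg.L.n i + 1)) k), aeval (lg.L.y i) P ∈ E := by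
    intro i P
    induction P using MvPolynomial.induction_on with
    | C a => rw [aeval_C]; exact hk a
    | add P Q hP hQ => rw [map_add]; exact E.add_mem hP hQ
    | mul_X P b hP => rw [map_mul, aeval_X]; exact E.mul_mem hP (hYR (Sum.inl ⟨i, b⟩))
  have hF1 : ∀ i (w : F i), (WV V (F i)).valuation w ≤ 1 → algebraMap (F i) K w ∈ E := by
    intro i w hw
    obtain ⟨a, s, -, h2⟩ := lg.gen i w hw
    rw [h2]
    exact E.div_mem (hpoly i a) (hpoly i s)
  have hF : ∀ i (w : F i), algebraMap (F i) K w ∈ E := by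
    intro i w
    rcases le_total ((WV V (F i)).valuation w) 1 with hw | hw
    · exact hF1 i w hw
    · have h1 : (WV V (F i)).valuation w⁻¹ ≤ 1 := by
        rw [map_inv₀]; exact inv_le_one_of_one_le₀ hw
      have h2 := E.inv_mem (hF1 i _ h1)
      rwa [map_inv₀, inv_inv] at h2
  have hτ : ∀ α, lg.L.τ α ∈ E := by
    intro α
    rw [← mon_single (τ := lg.L.τ) α]
    refine hC.mem (Q := {u | mon lg.L.τ u ∈ E}) (fun u hu v hv => ?_) ?_ hbR (fun j => ?_)
    · show mon lg.L.τ (u + v) ∈ E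
      rw [mon_add lg.L.τ_ne_zero]
      exact E.mul_mem hu hv
    · show mon lg.L.τ 0 ∈ E
      rw [mon_zero]; exact E.one_mem
    · rw [dotProduct_single_one]
      exact hC.pos _ _
  have hz' : ∀ c, lg.L.z c ∈ E := by
    intro c
    by_cases hc : c ∈ lg.L.C1
    · rw [S.hlc c hc, map_sum]
      refine sum_mem fun l _ => ?_
      rw [map_smul, Algebra.smul_def]
      exact E.mul_mem (hk _) (hYR (Sum.inr (Sum.inl l)))
    · have h1 : lg.L.ω c ∈ E := hτ (Sum.inr (Sum.inl c))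
      rw [lg.L.ω_of_notMem hc] at h1
      have h2 := E.inv_mem h1
      rwa [inv_inv] at h2
  have hz : ∀ a, G.z a ∈ E := by
    intro a
    have h1 := hz' (Pi.single a 1)
    rw [lg.z_eq, GData.zs, zlin_single] at h1
    have h3 : G.z a = (G.z a - G.gs (G.σV V) a) + G.gs (G.σV V) a := by ring
    rw [h3]
    exact E.add_mem h1 (sum_mem fun i _ => hF i _)
  have hw : ∀ b, G.w b ∈ E := by
    intro b
    have h1 : lg.L.w b * ∏ i, lg.L.t i ^ G.M ∈ E := hτ (Sum.inr (Sum.inr b))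
    have h2 : ∏ i, lg.L.t i ^ G.M ∈ E := prod_mem fun i _ => E.pow_mem (hτ (Sum.inl i)) _
    have h3 := E.div_mem h1 h2
    rwa [mul_div_cancel_right₀ _ lg.L.prodt_ne_zero, lg.w_eq] at h3
  have htop := G.gen E.toSubring (fun x hx _ => E.inv_mem hx) hk hF hz hw
  have hE' : E = ⊤ := by
    rw [eq_top_iff]
    intro x _
    have : x ∈ E.toSubring := by rw [htop]; trivial
    exact this
  have hcl : Subfield.closure (Algebra.adjoin ℤ X : Set K) = ⊤ := by
    rw [eq_top_iff, ← hE', hE]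
    exact Subfield.closure_mono Algebra.subset_adjoin
  have hfr := isFractionRing_of_closure _ hcl
  have halg : Algebra.IsAlgebraic (Algebra.adjoin ℤ X) K :=
    IsLocalization.isAlgebraic K (nonZeroDivisors (Algebra.adjoin ℤ X))
  have hle : ∀ x ∈ Algebra.adjoin ℤ X, x ∈ Algebra.adjoin k X := by
    intro x hx
    exact adjoin_le_of (R := (Algebra.adjoin k X).toSubring)
      (fun x hx => Algebra.subset_adjoin hx) x hx
  let j : Algebra.adjoin ℤ X →+* Algebra.adjoin k X :=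
    { toFun := fun x => ⟨x, hle _ x.2⟩
      map_one' := rfl
      map_mul' := fun _ _ => rfl
      map_zero' := rfl
      map_add' := fun _ _ => rfl }
  let i1 : Algebra (Algebra.adjoin ℤ X) (Algebra.adjoin k X) := j.toAlgebra
  have i2 : IsScalarTower (Algebra.adjoin ℤ X) (Algebra.adjoin k X) K :=
    IsScalarTower.of_algebraMap_eq fun x => rfl
  exact Algebra.IsAlgebraic.extendScalars (R := Algebra.adjoin ℤ X) (fun x y hxy =>
    Subtype.ext (congrArg (fun z : Algebra.adjoin k X => (z : K)) hxy))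

/-- The set which detects the Kummer coordinate. -/
noncomputable def sgl (k I : Type) [Fintype k] [Fintype I] [DecidableEq k] [DecidableEq I] (m : ℕ) {r : ℕ} (b : Fin r) :
    Finset (Ix k I m r → ℤ) :=
  {0, Pi.single (Sum.inr (Sum.inr b)) 1}

/-- **Models of abelian covers of products of curves.** -/
theorem GData.hasCharts (G : GData p k K I F m r)
    (htr : (Fintype.card I : Cardinal.{0}) ≤ Algebra.trdeg k K) :
    Pool.Agent.H19.OG.HasCharts K := by
  classical
  have hcp : CharP k p := charP_of_injective_algebraMap (algebraMap (ZMod p) k).injective p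
  set M' : ℕ := max (max G.M p) (Finset.univ.sup fun b => max (G.Nw b) (G.Nw b * G.M)) with hM'
  obtain ⟨𝒞, Ls, hE, hSgn⟩ := exists_eng (ι := Ix k I m r)
    (Finset.image₂ (fun u v => u - v) (BX (Ix k I m r) M') (BX (Ix k I m r) M'))
  have hLs : ∀ S ∈ Ls, S.Nonempty := by
    intro S hS
    obtain ⟨C, hC, h1, h2, h3⟩ := hE.cov Set.univ ⟨fun _ _ _ _ => trivial, fun _ => Or.inl trivial,
      fun _ => trivial⟩
    obtain ⟨u, hu, -⟩ := h3 Set.univ ⟨fun _ h => h, fun _ _ _ _ => trivial, trivial,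
      fun _ => trivial, fun _ _ _ => trivial⟩ (fun _ => trivial) S hS
    exact ⟨u, hu⟩
  set 𝔖 : Finset (Finset K) := (((Finset.univ.biUnion fun i => (G.cd i).base.image
      (fun s => s.image (algebraMap (F i) K))) ∪ (Finset.univ.image G.sC)) ∪
      ({GData.sK k K} ∪ Finset.univ.image fun b => eset G.ss G.sL (sε k I m r) (sgl k I m b))) ∪
      (Ls.toFinset.image (eset G.ss G.sL (sε k I m r))) with h𝔖
  have hm1 : ∀ i, ∀ s ∈ (G.cd i).base, s.image (algebraMap (F i) K) ∈ 𝔖 := by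
    intro i s hs
    exact Finset.mem_union_left _ (Finset.mem_union_left _ (Finset.mem_union_left _
      (Finset.mem_biUnion.mpr ⟨i, Finset.mem_univ _, Finset.mem_image_of_mem _ hs⟩)))
  have hm2 : ∀ c, G.sC c ∈ 𝔖 := fun c => Finset.mem_union_left _ (Finset.mem_union_left _
    (Finset.mem_union_right _ (Finset.mem_image_of_mem _ (Finset.mem_univ _))))
  have hm0 : GData.sK k K ∈ 𝔖 := Finset.mem_union_left _ (Finset.mem_union_right _
    (Finset.mem_union_left _ (Finset.mem_singleton_self _)))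
  have hm4 : ∀ b, eset G.ss G.sL (sε k I m r) (sgl k I m b) ∈ 𝔖 := fun b =>
    Finset.mem_union_left _ (Finset.mem_union_right _ (Finset.mem_union_right _
      (Finset.mem_image_of_mem _ (Finset.mem_univ _))))
  have hm3 : ∀ S ∈ Ls, eset G.ss G.sL (sε k I m r) S ∈ 𝔖 := fun S hS =>
    Finset.mem_union_right _ (Finset.mem_image_of_mem _ (List.mem_toFinset.mpr hS))
  have hcase : ∀ s ∈ 𝔖, (∃ i, ∃ s' ∈ (G.cd i).base, s = s'.image (algebraMap (F i) K)) ∨
      (∃ c, s = G.sC c) ∨ s = GData.sK k K ∨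
      (∃ b, s = eset G.ss G.sL (sε k I m r) (sgl k I m b)) ∨
      ∃ S ∈ Ls, s = eset G.ss G.sL (sε k I m r) S := by
    intro s hs
    rcases Finset.mem_union.mp hs with hs | hs
    · rcases Finset.mem_union.mp hs with hs | hs
      · rcases Finset.mem_union.mp hs with hs | hs
        · obtain ⟨i, -, hs⟩ := Finset.mem_biUnion.mp hs
          obtain ⟨s', hs', rfl⟩ := Finset.mem_image.mp hs
          exact Or.inl ⟨i, s', hs', rfl⟩
        · obtain ⟨c, -, rfl⟩ := Finset.mem_image.mp hs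
          exact Or.inr (Or.inl ⟨c, rfl⟩)
      · rcases Finset.mem_union.mp hs with hs | hs
        · exact Or.inr (Or.inr (Or.inl (Finset.mem_singleton.mp hs)))
        · obtain ⟨b, -, rfl⟩ := Finset.mem_image.mp hs
          exact Or.inr (Or.inr (Or.inr (Or.inl ⟨b, rfl⟩)))
    · obtain ⟨S, hS, rfl⟩ := Finset.mem_image.mp hs
      exact Or.inr (Or.inr (Or.inr (Or.inr ⟨S, List.mem_toFinset.mp hS, rfl⟩)))
  -- detection
  have hdet : ∀ (V : ValuationSubring K) (R : Subring K), VLocal V R → (∀ s ∈ 𝔖, Prin R s) →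
      G.Base V R ∧ ∀ (lg : LG G V) (b : Fin r), lg.L.τ (Sum.inr (Sum.inr b)) ∈ R := by
    intro V R hR hs
    have hb := GData.base_of_prin hR (hs _ hm0) (fun i s hs' => hs _ (hm1 i s hs'))
      fun c => hs _ (hm2 c)
    refine ⟨hb, fun lg b => ?_⟩
    have h1 := hs _ (hm4 b)
    rw [prin_eset_iff sε_or lg.L.τ_ne_zero (gen_ss lg hb) (gen_sL hb)] at h1
    obtain ⟨u₀, hu₀, h2⟩ := h1
    rw [sgl, Finset.mem_insert, Finset.mem_singleton] at hu₀
    rcases hu₀ with rfl | rfl
    · have h3 : mon lg.L.τ (Pi.single (Sum.inr (Sum.inr b)) 1 - 0) ∈ R :=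
        h2 _ (Finset.mem_insert_of_mem (Finset.mem_singleton_self _))
      rwa [sub_zero, mon_single] at h3
    · have h3 : mon lg.L.τ (0 - Pi.single (Sum.inr (Sum.inr b)) 1) ∈ R :=
        h2 _ (Finset.mem_insert_self _ _)
      rw [zero_sub, mon_neg_single] at h3
      have h4 := hR.le _ h3
      have h5 := lg.L.vτ (Sum.inr (Sum.inr b))
      have h6 : 0 < V.valuation (lg.L.τ (Sum.inr (Sum.inr b))) := by
        rw [Valuation.pos_iff]; exact lg.L.τ_ne_zero _
      rw [map_inv₀, inv_le_one₀ h6] at h4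
      have h7 := hR.inv _ h3 (by rw [map_inv₀, le_antisymm h5 h4, inv_one])
      rwa [inv_inv] at h7
  refine hasCharts_of_sets 𝔖 ?_ ?_ ?_
  · intro s hs
    rcases hcase s hs with ⟨i, s', hs', rfl⟩ | ⟨c, rfl⟩ | rfl | ⟨b, rfl⟩ | ⟨S, hS, rfl⟩
    · obtain ⟨h0, g, hg⟩ := (G.cd i).zero_base s' hs'
      exact ⟨_, Finset.mem_image_of_mem _ hg, (map_ne_zero _).mpr (by rintro rfl; exact h0 hg)⟩
    · exact ⟨G.xs fun _ => false, Finset.mem_union_left _ (Finset.mem_image_of_mem _
        (Finset.mem_univ _)), G.xs_ne _⟩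
    · exact ⟨1, GData.mem_sK.mpr ⟨1, one_ne_zero, map_one _⟩, one_ne_zero⟩
    · exact eset_ne ss_ne sL_ne ⟨0, Finset.mem_insert_self _ _⟩
    · exact eset_ne ss_ne sL_ne (hLs S hS)
  · intro R hinv hs
    have hall : ∀ x : K, (⊤ : ValuationSubring K).valuation x ≤ 1 := fun x =>
      (ValuationSubring.valuation_le_one_iff _ _).mpr trivial
    have hR : VLocal (⊤ : ValuationSubring K) R := ⟨fun x _ => hall x, fun x hx h1 => hinv x hx (by
      rintro rfl
      rw [map_zero] at h1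
      exact zero_ne_one h1)⟩
    obtain ⟨hb, hw⟩ := hdet ⊤ R hR hs
    have hF : ∀ i (w : F i), algebraMap (F i) K w ∈ R := fun i w =>
      hb.b1 i w (wv_le_one.mpr (hall _))
    refine G.gen R hinv hb.b0 hF (fun a => ?_) fun b => ?_
    · have h1 := hb.b3 (Pi.single a 1) (hall _)
      rw [GData.zs, zlin_single] at h1
      have h3 : G.z a = (G.z a - G.gs (G.σV ⊤) a) + G.gs (G.σV ⊤) a := by ring
      rw [h3]
      exact R.add_mem h1 (Subring.sum_mem _ fun i _ => hF i _)
    · obtain ⟨lg⟩ := nonempty_lg G ⊤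
      have h1 : lg.L.w b * ∏ i, lg.L.t i ^ G.M ∈ R := hw lg b
      have h2 : (∏ i, lg.L.t i ^ G.M)⁻¹ ∈ R := hinv _ (Subring.prod_mem _ fun i _ =>
        R.pow_mem (t_mem lg hb i) _) lg.L.prodt_ne_zero
      have h3 := R.mul_mem h1 h2
      rwa [mul_assoc, mul_inv_cancel₀ lg.L.prodt_ne_zero, mul_one, lg.w_eq] at h3
  · intro V
    obtain ⟨lg⟩ := nonempty_lg G V
    obtain ⟨S⟩ := nonempty_edata lg.L
    obtain ⟨C, hC𝒞, hCb, hCdet, hCprin⟩ := hE.cov _ (tot_of_val lg.L.τ_ne_zero lg.L.vτ)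
    have hC := hE.cone C hC𝒞
    have hb : ∀ j, V.valuation (mon lg.L.τ (C.b j)) ≤ 1 := hCb
    have hCtx : Ctx lg.L M' C := ⟨hC, hb, fun u hu u' hu' => hSgn C hC𝒞 _
      (Finset.mem_image₂_of_mem hu hu'), (le_max_left _ _).trans (le_max_left _ _),
      (le_max_right _ _).trans (le_max_left _ _), fun b => by
        have h1 : max (G.Nw b) (G.Nw b * G.M) ≤ M' := (Finset.le_sup
          (f := fun b => max (G.Nw b) (G.Nw b * G.M)) (Finset.mem_univ b)).trans
          (le_max_right _ _)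
        exact ⟨(le_max_left _ _).trans h1, (le_max_right _ _).trans h1⟩⟩
    obtain ⟨hbase, hτm⟩ := base_vloc lg S hC hb
    let _ : Algebra k (ResidueField V) := (resK k V (val_const_le V)).toAlgebra
    refine ⟨_, hbase.loc, ?_, ?_, isRegular_local S (compat_resK V (val_const_le V)) hCtx
      (isAlgebraic_chart lg S hC) htr⟩
    · intro s hs
      rcases hcase s hs with ⟨i, s', hs', rfl⟩ | ⟨c, rfl⟩ | rfl | ⟨b, rfl⟩ | ⟨S', hS', rfl⟩
      · exact GData.prin_base hbase i hs'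
      · exact ⟨_, GData.gen_sC hbase c⟩
      · exact GData.prin_sK hbase.b0
      · rw [prin_eset_iff sε_or lg.L.τ_ne_zero (gen_ss lg hbase) (gen_sL hbase)]
        refine ⟨0, Finset.mem_insert_self _ _, fun u hu => ?_⟩
        rw [sgl, Finset.mem_insert, Finset.mem_singleton] at hu
        rcases hu with rfl | rfl
        · rw [sub_zero, Set.mem_setOf_eq, mon_zero]; exact Subring.one_mem _
        · rw [sub_zero, Set.mem_setOf_eq, mon_single]
          exact hτm _
      · rw [prin_eset_iff sε_or lg.L.τ_ne_zero (gen_ss lg hbase) (gen_sL hbase)]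
        exact hCprin _ (loc_of_vlocal lg.L.τ_ne_zero hbase.loc hτm)
          (fun j => subset_vloc (Algebra.subset_adjoin ⟨Sum.inl j, rfl⟩)) S' hS'
    · intro R' hR' hs
      obtain ⟨hbase', hw'⟩ := hdet V R' hR' hs
      apply vloc_le hR'
      apply adjoin_le_of
      rintro _ ⟨j | ⟨i, b⟩ | a | c, rfl⟩
      · exact hCdet _ (loc_of_vlocal lg.L.τ_ne_zero hR' (τ_mem lg hbase' (hw' lg)))
          (fun S' hS' => by
            rw [← prin_eset_iff sε_or lg.L.τ_ne_zero (gen_ss lg hbase') (gen_sL hbase')]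
            exact hs _ (hm3 S' hS')) j
      · show lg.L.y i b ∈ R'
        rw [lg.y_eq]
        exact hbase'.b1 i _ (lg.y_le i b)
      · show lg.L.z (S.β a) ∈ R'
        have h1 := S.hβ a
        rw [lg.L.mem_C1, lg.z_eq] at h1
        rw [lg.z_eq]
        exact hbase'.b3 _ h1
      · exact hbase'.b0 c

end Pool.Agent.H96.W2
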