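import Pool.Agent.H96.W2.LocA

/-!
# The relations of a chart
-/

set_option autoImplicit false
set_option linter.unusedSectionVars false

namespace Pool.Agent.H96.W2

open MvPolynomial IsLocalRing Pool.Agent.H96.Reg Pool.Agent.H96.VL Pool.Agent.H96.W

/-- The exponents which occur in the relations. -/
noncomputable def BX (ι : Type) [Fintype ι] [DecidableEq ι] (M : ℕ) : Finset (ι → ℤ) :=
  Fintype.piFinset fun _ => Finset.Icc (-(M : ℤ)) M

section BXl

variable {ι : Type} [Fintype ι] [DecidableEq ι] {M : ℕ}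

theorem mem_BX {u : ι → ℤ} : u ∈ BX ι M ↔ ∀ α, |u α| ≤ (M : ℤ) := by
  rw [BX, Fintype.mem_piFinset]
  refine forall_congr' fun α => ?_
  rw [Finset.mem_Icc, abs_le]

theorem zero_mem_BX : (0 : ι → ℤ) ∈ BX ι M := by
  rw [mem_BX]; intro α; simp

theorem single_mem_BX {n : ℕ} (α : ι) (h : n ≤ M) :
    (n : ℤ) • (Pi.single α 1 : ι → ℤ) ∈ BX ι M := by
  rw [mem_BX]
  intro α'
  rw [Pi.smul_apply, smul_eq_mul, Pi.single_apply]
  split_ifs
  · rw [mul_one, Nat.abs_cast]
    exact_mod_cast h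
  · rw [mul_zero, abs_zero]; positivity

theorem single_one_mem_BX (α : ι) (h : 1 ≤ M) : (Pi.single α 1 : ι → ℤ) ∈ BX ι M := by
  have := single_mem_BX (ι := ι) α h
  rwa [Nat.cast_one, one_smul] at this

theorem neg_mem_BX {u : ι → ℤ} (h : u ∈ BX ι M) : -u ∈ BX ι M := by
  rw [mem_BX] at h ⊢
  intro α
  rw [Pi.neg_apply, abs_neg]
  exact h α

end BXl

variable {p : ℕ} [Fact p.Prime] {k : Type} [Field k] [Fintype k] [DecidableEq k] {K : Type}
  [Field K] [Algebra k K] {V : ValuationSubring K} {I : Type} [Fintype I] [DecidableEq I] {m r : ℕ}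
  {Nw : Fin r → ℕ} {M : ℕ} {L : LData p k V I m r Nw M}

/-- The other variables. -/
abbrev EData.υ (S : EData L) : Type :=
  (Σ i : I, Fin (L.n i + 1)) ⊕ ((Fin S.d₀ ⊕ Fin S.d₁) ⊕ k)

/-- Their values. -/
def EData.Y (S : EData L) : S.υ → K :=
  Sum.elim (fun s => L.y s.1 s.2) (Sum.elim (fun a => L.z (S.β a)) (algebraMap k K))

/-- The terms. -/
abbrev Tm (k I : Type) (m : ℕ) : Type := (I ⊕ (Fin m → k)) ⊕ Bool

theorem EData.vY (S : EData L) (l : S.υ) : V.valuation (S.Y l) ≤ 1 := by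
  rcases l with ⟨i, b⟩ | a | c
  · exact L.vy i b
  · exact S.hβ a
  · exact val_const_le V c

/-- The linear form of an integral element. -/
noncomputable def EData.lin (S : EData L) (c : Fin m → k) : MvPolynomial S.υ k :=
  ∑ a, MvPolynomial.C (S.lc c a) * X (Sum.inr (Sum.inl a))

theorem EData.aeval_lin (S : EData L) {c : Fin m → k} (hc : c ∈ L.C1) :
    aeval S.Y (S.lin c) = L.z c := by
  conv_rhs => rw [S.hlc c hc]
  rw [EData.lin, map_sum, map_sum]
  refine Finset.sum_congr rfl fun a _ => ?_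
  rw [map_mul, aeval_C, aeval_X, map_smul, Algebra.smul_def]
  rfl

/-- The regular parts. -/
noncomputable def EData.reg (S : EData L) (d : Fin m → k) : MvPolynomial S.υ k :=
  ∑ i, ∑ a, MvPolynomial.C (d a) * X (Sum.inl ⟨i, L.v i a⟩)

theorem EData.aeval_reg (S : EData L) (d : Fin m → k) :
    aeval S.Y (S.reg d) = ∑ i, ∑ a, algebraMap k K (d a) * L.y i (L.v i a) := by
  rw [EData.reg, map_sum]
  refine Finset.sum_congr rfl fun i _ => ?_
  rw [map_sum]
  refine Finset.sum_congr rfl fun a _ => ?_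
  rw [map_mul, aeval_C, aeval_X]
  rfl

section Defs

variable (S : EData L)

/-- The relations of the coordinates `τ_i`. -/
noncomputable def EData.cI (i : I) : Tm k I m → MvPolynomial S.υ k :=
  open Classical in Sum.elim (fun _ => 0) fun b => cond b 1
    (if L.t i = 1 then -1 else -X (Sum.inl ⟨i, L.l i⟩))

def EData.xI (_S : EData L) (i : I) : Tm k I m → Ix k I m r → ℤ :=
  Sum.elim (fun _ => 0) fun b => cond b (Pi.single (Sum.inl i) 1) 0

/-- The relations of the curves. -/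
noncomputable def EData.cG (i : I) (j : Fin (L.n i)) : Tm k I m → MvPolynomial S.υ k :=
  Sum.elim (fun _ => 0) fun b => cond b 0 (rename (fun b => Sum.inl ⟨i, b⟩) (L.G i j.succ))

/-- The relations of the coordinates `ω_c`. -/
noncomputable def EData.cC (c : Fin m → k) : Tm k I m → MvPolynomial S.υ k :=
  open Classical in if c ∈ L.C1 then Sum.elim (fun _ => 0) fun b => cond b 1 (-1) else
    Sum.elim (Sum.elim (fun _ => 0) fun b => -MvPolynomial.C (S.a c b)) fun b =>
      cond b 1 (-S.lin (S.ip c))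

noncomputable def EData.xC (_S : EData L) (c : Fin m → k) : Tm k I m → Ix k I m r → ℤ :=
  open Classical in if c ∈ L.C1 then Sum.elim (fun _ => 0) fun b =>
    cond b (Pi.single (Sum.inr (Sum.inl c)) 1) 0
  else Sum.elim (Sum.elim (fun _ => 0) fun b => -Pi.single (Sum.inr (Sum.inl b)) 1) fun b =>
      cond b (-Pi.single (Sum.inr (Sum.inl c)) 1) 0

/-- The Artin–Schreier relations. -/
noncomputable def EData.cJ (d : Fin m → k) : Tm k I m → MvPolynomial S.υ k :=
  open Classical in Sum.elim (Sum.elim (fun i => -(MvPolynomial.C (d ⬝ᵥ L.γ i) *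
      X (Sum.inl ⟨i, L.u i⟩))) fun b => -MvPolynomial.C (S.a d b)) fun b =>
      cond b (if L.rt d ∉ L.C1 then 1 else 0)
        ((if L.rt d ∉ L.C1 then 0 else S.lin (L.rt d) ^ p) - S.lin (S.ip d) - S.reg d)

def EData.xJ (_S : EData L) (d : Fin m → k) : Tm k I m → Ix k I m r → ℤ :=
  Sum.elim (Sum.elim (fun i => -((L.e i : ℤ) • Pi.single (Sum.inl i) 1))
    fun b => -Pi.single (Sum.inr (Sum.inl b)) 1) fun b =>
      cond b (-((p : ℤ) • Pi.single (Sum.inr (Sum.inl (L.rt d))) 1)) 0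

/-- The integral Artin–Schreier relations. -/
noncomputable def EData.c0 (e : Fin S.d₀) : Tm k I m → MvPolynomial S.υ k :=
  Sum.elim (fun _ => 0) fun b => cond b 0 (S.lin (L.rt (S.β (Sum.inl e))) ^ p -
    X (Sum.inr (Sum.inl (Sum.inl e))) - S.reg (S.β (Sum.inl e)))

/-- The Kummer relations. -/
noncomputable def EData.cW (b : Fin r) : Tm k I m → MvPolynomial S.υ k :=
  Sum.elim (fun _ => 0) fun b' => cond b' 1 (-∏ i, X (Sum.inl ⟨i, L.q i b⟩))

def EData.xW (_S : EData L) (b : Fin r) : Tm k I m → Ix k I m r → ℤ :=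
  Sum.elim (fun _ => 0) fun b' => cond b' ((Nw b : ℤ) • LData.Ew k I m M b)
    (Sum.elim (fun i => L.κ i b) 0)

/-- The relations of the constants. -/
noncomputable def EData.cK (a : k) : Tm k I m → MvPolynomial S.υ k :=
  Sum.elim (fun _ => 0) fun b => cond b 0 (X (Sum.inr (Sum.inr a)) - MvPolynomial.C a)

end Defs

section Rel

variable {S : EData L}

theorem sum_Tm {β : Type} [AddCommMonoid β] (g : Tm k I m → β) : ∑ s, g s =
    (∑ i, g (Sum.inl (Sum.inl i)) + ∑ c, g (Sum.inl (Sum.inr c))) +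
      (g (Sum.inr true) + g (Sum.inr false)) := by
  rw [Fintype.sum_sum_type, Fintype.sum_sum_type, Fintype.sum_bool]

theorem mon_neg_smul (n : ℕ) (α : Ix k I m r) :
    mon L.τ (-((n : ℤ) • (Pi.single α 1 : Ix k I m r → ℤ))) = (L.τ α ^ n)⁻¹ := by
  rw [mon_neg, mon_smul, mon_single, zpow_natCast]

theorem mon_neg_single (α : Ix k I m r) :
    mon L.τ (-(Pi.single α 1 : Ix k I m r → ℤ)) = (L.τ α)⁻¹ := by
  rw [mon_neg, mon_single]

theorem mon_κ (b : Fin r) : mon L.τ (Sum.elim (fun i => L.κ i b) 0 : Ix k I m r → ℤ) =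
    ∏ i, L.t i ^ L.κ i b := by
  rw [mon, Fintype.prod_sum_type]
  have h3 : ∏ c, L.τ (Sum.inr c) ^ ((Sum.elim (fun i => L.κ i b) 0 : Ix k I m r → ℤ) (Sum.inr c)) =
      1 := Finset.prod_eq_one fun c _ => zpow_zero _
  rw [h3, mul_one]
  rfl

theorem rel_I (i : I) : ∑ s, aeval S.Y (S.cI i s) * mon L.τ (S.xI i s) = 0 := by
  classical
  rw [sum_Tm]
  simp only [EData.cI, EData.xI, Sum.elim_inl, Sum.elim_inr, map_zero, zero_mul,
    Finset.sum_const_zero, zero_add, cond_true, cond_false, map_one, one_mul, mon_zero, mul_one]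
  rw [mon_single, L.τ_inl]
  split_ifs with h
  · rw [h, map_neg, map_one]; ring
  · rw [map_neg, aeval_X]
    rcases L.t1 i with h1 | ⟨-, -, h1⟩
    · exact absurd h1 h
    · show L.t i + -(L.y i (L.l i)) = 0
      rw [h1]; ring

theorem rel_G (i : I) (j : Fin (L.n i)) :
    ∑ s, aeval S.Y (S.cG i j s) * mon L.τ ((0 : Tm k I m → Ix k I m r → ℤ) s) = 0 := by
  rw [sum_Tm]
  simp only [EData.cG, Sum.elim_inl, Sum.elim_inr, map_zero, zero_mul,
    Finset.sum_const_zero, zero_add, cond_true, cond_false]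
  rw [aeval_rename]
  have : aeval (S.Y ∘ fun b => Sum.inl ⟨i, b⟩) (L.G i j.succ) = 0 := L.rel i j
  rw [this, zero_mul]

theorem sum_a (d : Fin m → k) :
    ∑ b, aeval S.Y (-MvPolynomial.C (S.a d b) : MvPolynomial S.υ k) *
      mon L.τ (-Pi.single (Sum.inr (Sum.inl b)) 1) =
      -∑ b ∈ S.B, algebraMap k K (S.a d b) * L.z b := by
  rw [← Finset.sum_neg_distrib, ← Finset.sum_subset (Finset.subset_univ S.B)]
  · refine Finset.sum_congr rfl fun b hb => ?_
    rw [mon_neg_single, L.τ_c, L.ω_of_notMem (S.hB b hb), inv_inv, map_neg, aeval_C]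
    ring
  · intro b _ hb
    rw [S.a_ne hb, map_zero, neg_zero, map_zero, zero_mul]

theorem rel_C (c : Fin m → k) : ∑ s, aeval S.Y (S.cC c s) * mon L.τ (S.xC c s) = 0 := by
  classical
  rw [sum_Tm]
  by_cases hc : c ∈ L.C1
  · simp only [EData.cC, EData.xC, if_pos hc, Sum.elim_inl, Sum.elim_inr, map_zero, zero_mul,
      Finset.sum_const_zero, zero_add, cond_true, cond_false, map_one, one_mul, mon_zero, mul_one]
    rw [mon_single, L.τ_c, L.ω_of_mem hc, map_neg, map_one]; ring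
  · simp only [EData.cC, EData.xC, if_neg hc, Sum.elim_inl, Sum.elim_inr, map_zero, zero_mul,
      Finset.sum_const_zero, zero_add, cond_true, cond_false, map_one, one_mul, mon_zero, mul_one]
    rw [sum_a, mon_neg_single, L.τ_c, L.ω_of_notMem hc, inv_inv, map_neg, S.aeval_lin (S.ip_mem c)]
    have := S.z_eq c
    linear_combination this

theorem rel_J (d : Fin m → k) : ∑ s, aeval S.Y (S.cJ d s) * mon L.τ (S.xJ d s) = 0 := by
  classical
  rw [sum_Tm]
  simp only [EData.cJ, EData.xJ, Sum.elim_inl, Sum.elim_inr, cond_true, cond_false, mon_zero,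
    mul_one]
  rw [sum_a]
  have h1 : ∑ i, aeval S.Y (-(MvPolynomial.C (d ⬝ᵥ L.γ i) * X (Sum.inl ⟨i, L.u i⟩)) :
      MvPolynomial S.υ k) * mon L.τ (-((L.e i : ℤ) • Pi.single (Sum.inl i) 1)) =
      -∑ i, algebraMap k K (d ⬝ᵥ L.γ i) * (L.y i (L.u i) * (L.t i ^ L.e i)⁻¹) := by
    rw [← Finset.sum_neg_distrib]
    refine Finset.sum_congr rfl fun i _ => ?_
    rw [mon_neg_smul, L.τ_inl, map_neg, map_mul, aeval_C, aeval_X]
    show -(algebraMap k K (d ⬝ᵥ L.γ i) * L.y i (L.u i)) * (L.t i ^ L.e i)⁻¹ = _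
    ring
  have h2 := L.AS d
  rw [Finset.sum_add_distrib] at h2
  have h3 := S.z_eq d
  rw [h1, map_sub, map_sub, S.aeval_lin (S.ip_mem d), S.aeval_reg]
  by_cases hμ : L.rt d ∈ L.C1
  · rw [if_neg (not_not.mpr hμ), if_neg (not_not.mpr hμ), map_pow, S.aeval_lin hμ, map_zero]
    linear_combination h2 + h3
  · rw [if_pos hμ, if_pos hμ, mon_neg_smul, L.τ_c, L.ω_of_notMem hμ, map_one, map_zero, inv_pow,
      inv_inv]
    linear_combination h2 + h3

theorem rt_β (e : Fin S.d₀) : L.rt (S.β (Sum.inl e)) ∈ L.C1 :=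
  S.rt_mem (fun b _ => S.hβB e b) (fun i hi => S.hβI e i hi)

theorem rel_0 (e : Fin S.d₀) :
    ∑ s, aeval S.Y (S.c0 e s) * mon L.τ ((0 : Tm k I m → Ix k I m r → ℤ) s) = 0 := by
  rw [sum_Tm]
  simp only [EData.c0, Sum.elim_inl, Sum.elim_inr, cond_true, cond_false,
    map_zero, zero_mul, Finset.sum_const_zero, zero_add]
  have hm : mon L.τ ((0 : Tm k I m → Ix k I m r → ℤ) (Sum.inr false)) = 1 := mon_zero
  rw [hm, mul_one, map_sub, map_sub, map_pow, aeval_X, S.aeval_lin (rt_β e), S.aeval_reg]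
  have h1 := L.AS (S.β (Sum.inl e))
  rw [Finset.sum_add_distrib] at h1
  have h2 : ∑ i, algebraMap k K (S.β (Sum.inl e) ⬝ᵥ L.γ i) * (L.y i (L.u i) * (L.t i ^ L.e i)⁻¹) =
      0 := by
    refine Finset.sum_eq_zero fun i _ => ?_
    by_cases he : L.e i = 0
    · rw [L.inact i he, dotProduct_zero, map_zero, zero_mul]
    · rw [S.hβI e i he, map_zero, zero_mul]
  rw [h2, zero_add] at h1
  show L.z (L.rt (S.β (Sum.inl e))) ^ p - L.z (S.β (Sum.inl e)) - _ = 0
  rw [h1]; ring

theorem rel_W (b : Fin r) : ∑ s, aeval S.Y (S.cW b s) * mon L.τ (S.xW b s) = 0 := by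
  rw [sum_Tm]
  simp only [EData.cW, EData.xW, Sum.elim_inl, Sum.elim_inr, cond_true, cond_false,
    map_zero, zero_mul, Finset.sum_const_zero, zero_add, map_one, one_mul]
  rw [mon_smul, L.mon_Ew, zpow_natCast, L.KM, mon_κ, map_neg, map_prod, Finset.prod_mul_distrib]
  have h1 : ∏ i, aeval S.Y (X (Sum.inl ⟨i, L.q i b⟩) : MvPolynomial S.υ k) = ∏ i, L.y i (L.q i b) :=
    Finset.prod_congr rfl fun i _ => by rw [aeval_X]; rfl
  rw [h1]; ring

theorem rel_K (a : k) :
    ∑ s, aeval S.Y (S.cK a s) * mon L.τ ((0 : Tm k I m → Ix k I m r → ℤ) s) = 0 := by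
  rw [sum_Tm]
  simp only [EData.cK, Sum.elim_inl, Sum.elim_inr, cond_true, cond_false,
    map_zero, zero_mul, Finset.sum_const_zero, zero_add]
  rw [map_sub, aeval_X, aeval_C]
  show (algebraMap k K a - algebraMap k K a) * _ = 0
  rw [sub_self, zero_mul]

end Rel

end Pool.Agent.H96.W2
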