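import Pool.Agent.H96.W2.Reg
import Pool.Agent.H96.W0.CD

/-!
# The data attached to functions on a curve
-/

set_option autoImplicit false
set_option linter.unusedSectionVars false

namespace Pool.Agent.H96.W2

open MvPolynomial IsLocalRing Pool.Agent.H96.VL Pool.Agent.H96.W Pool.Agent.H96.W0

/-- The additive operator `g ↦ g ^ p - Λ g`. -/
def wp (p : ℕ) {k F : Type} [Field k] [Field F] [Algebra k F] {m : ℕ}
    (Λ : Matrix (Fin m) (Fin m) k) (g : Fin m → F) (a : Fin m) : F :=
  g a ^ p - ∑ b, algebraMap k F (Λ a b) * g b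

section Wp

variable {p : ℕ} [Fact p.Prime] {k F : Type} [Field k] [Field F] [Algebra k F] {m : ℕ}
  {Λ : Matrix (Fin m) (Fin m) k}

theorem wp_sub [CharP F p] (g g' : Fin m → F) (a : Fin m) :
    wp p Λ (fun b => g b - g' b) a = wp p Λ g a - wp p Λ g' a := by
  simp only [wp, mul_sub, Finset.sum_sub_distrib]
  rw [sub_pow_char]
  ring

theorem wp_le [Finite k] {W : ValuationSubring F} {g : Fin m → F} (hg : ∀ a, W.valuation (g a) ≤ 1)
    (a : Fin m) : W.valuation (wp p Λ g a) ≤ 1 := by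
  refine (W.valuation.map_sub _ _).trans (max_le ?_ (Valuation.map_sum_le _ fun b _ => ?_))
  · rw [map_pow]
    exact pow_le_one' (hg a) p
  · rw [map_mul]
    exact mul_le_one' (val_const_le W _) (hg b)

end Wp

/-- The local form of the functions at a place with uniformizer `τ`. -/
structure LocForm (p : ℕ) {k F : Type} [Field k] [Field F] [Algebra k F] {m r : ℕ}
    (Λ : Matrix (Fin m) (Fin m) k) (f : Fin m → F) (h : Fin r → F) (g : Fin m → F) (M : ℕ)
    (W : ValuationSubring F) (τ : F)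
    (e : ℕ) (φ : F) (c : Fin m → k) (κ : Fin r → ℤ) : Prop where
  eM : e ≤ M
  le : W.valuation (φ * τ ^ e) ≤ 1
  e0 : e = 0 → c = 0
  e1 : e ≠ 0 → ¬ p ∣ e ∧ W.valuation (φ * τ ^ e) = 1 ∧ Unif W τ
  reg : ∀ a, W.valuation (f a - wp p Λ g a - algebraMap k F (c a) * φ) ≤ 1
  κM : ∀ b, |κ b| ≤ M
  κ1 : ∀ b, W.valuation (h b * τ ^ (-κ b)) = 1

/-- The data attached to the functions `f a`, `h b` on a curve with function field `F`. -/
structure CData (p : ℕ) [Fact p.Prime] (k F : Type) [Field k] [Field F] [Algebra (ZMod p) F]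
    [Algebra k F] {m r : ℕ} (Λ : Matrix (Fin m) (Fin m) k) (f : Fin m → F) (h : Fin r → F) where
  x : F
  g0 : Fin m → F
  g1 : Fin m → F
  N : ℕ
  M : ℕ
  base : Finset (Finset F)
  T : Finset F
  x0 : x ≠ 0
  zero_base : ∀ s ∈ base, 0 ∉ s ∧ s.Nonempty
  zero_T : 0 ∉ T
  detect : ∀ (W : ValuationSubring F) (R : Subring F), VLocal W R → (∀ s ∈ base, Prin R s) →
    ∀ w, W.valuation w ≤ 1 → w ∈ R
  h_le : ∀ W : ValuationSubring F, W.valuation x ≤ 1 → ∀ a,
    W.valuation (x ^ N * (g1 a - g0 a)) ≤ 1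
  h_gt : ∀ W : ValuationSubring F, 1 ≤ W.valuation x → ∀ a,
    W.valuation ((g1 a - g0 a) / x ^ N) ≤ 1
  unif : ∀ W : ValuationSubring F, ∃ τ, (τ = 1 ∨ Unif W τ) ∧
    (∀ g ∈ T, W.valuation g ≤ W.valuation (τ * tw x N W)) ∧
    (∃ g ∈ T, W.valuation g = W.valuation (τ * tw x N W)) ∧
    ∃ e φ c κ, LocForm p Λ f h (fun a => gg x (g0 a) (g1 a) W) M W τ e φ c κ
  pres : ∀ (W : ValuationSubring F) (τ : F), τ = 1 ∨ Unif W τ → ∀ E : Finset F,
    (∀ e ∈ E, W.valuation e ≤ 1) → ∃ (n : ℕ) (y : Fin (n + 1) → F)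
      (G : Fin (n + 1) → MvPolynomial (Fin (n + 1)) (ZMod p)) (l : Fin (n + 1)),
      Pres W n y G l ∧ (∀ e ∈ E, ∃ b, y b = e) ∧ (Unif W τ → y l = τ)

/-- The hypothesis on the functions at a place: modulo `g ^ p - Λ g` and integral functions, they
are constant multiples of one function whose order is prime to `p`. -/
def Scalar (p : ℕ) {k F : Type} [Field k] [Field F] [Algebra k F] {m : ℕ}
    (Λ : Matrix (Fin m) (Fin m) k) (f : Fin m → F) (W : ValuationSubring F) : Prop :=
  ∃ (φ : F) (c : Fin m → k) (g : Fin m → F),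
    (W.valuation φ ≤ 1 ∨ ∀ y : F, W.valuation (y ^ p * φ) ≠ 1) ∧
    ∀ a, W.valuation (f a - wp p Λ g a - algebraMap k F (c a) * φ) ≤ 1

section Loc

variable {p : ℕ} [Fact p.Prime] {k : Type} [Field k] [Finite k] {R F : Type} [CommRing R]
  [IsDedekindDomain R] [Field F] [Algebra R F] [IsFractionRing R F] [Algebra k F] [CharP F p]
  {m r : ℕ} {Λ : Matrix (Fin m) (Fin m) k} {W : ValuationSubring F}

/-- The local form at a place. -/
theorem exists_locForm {t : R} (ht : Place W t) {f : Fin m → F} {h : Fin r → F}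
    (hh : ∀ b, h b ≠ 0) (hf : Scalar p Λ f W) :
    ∃ (g : Fin m → F) (M : ℕ), ∀ g' : Fin m → F, (∀ a, W.valuation (g' a - g a) ≤ 1) →
      ∀ τ, Unif W τ → ∃ e φ c κ, LocForm p Λ f h g' M W τ e φ c κ := by
  have hp : p.Prime := Fact.out
  obtain ⟨φ, c, g, h1, h2⟩ := hf
  have hvt := ht.vt0
  choose κ hκ using fun b => exists_zpow ht (hh b)
  -- the change of the gauge
  have hreg : ∀ g' : Fin m → F, (∀ a, W.valuation (g' a - g a) ≤ 1) → ∀ a,
      W.valuation (f a - wp p Λ g' a - algebraMap k F (c a) * φ) ≤ 1 := by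
    intro g' hg' a
    have h3 : f a - wp p Λ g' a - algebraMap k F (c a) * φ =
        (f a - wp p Λ g a - algebraMap k F (c a) * φ) - wp p Λ (fun b => g' b - g b) a := by
      rw [wp_sub]; ring
    rw [h3]
    exact (W.valuation.map_sub _ _).trans (max_le (h2 a) (wp_le hg' a))
  have hκ' : ∀ τ, Unif W τ → ∀ b, W.valuation (h b * τ ^ (-κ b)) = 1 := by
    intro τ hτ b
    rw [map_mul, map_zpow₀, unif_eq hτ ht.unif, hκ, ← zpow_add₀ hvt.ne', add_neg_cancel, zpow_zero]
  set M₀ : ℕ := Finset.univ.sup fun b => (κ b).natAbs with hM₀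
  have hκM : ∀ b, |κ b| ≤ (M₀ : ℤ) := by
    intro b
    rw [Int.abs_eq_natAbs]
    exact_mod_cast Finset.le_sup (f := fun b => (κ b).natAbs) (Finset.mem_univ b)
  by_cases hφ : W.valuation φ ≤ 1
  · refine ⟨g, M₀, fun g' hg' τ hτ => ⟨0, 0, 0, κ, ?_⟩⟩
    refine ⟨Nat.zero_le _, by rw [zero_mul, map_zero]; exact zero_le, fun _ => rfl,
      fun h => absurd rfl h, fun a => ?_, hκM, hκ' τ hτ⟩
    have h3 := hreg g' hg' a
    have h4 : f a - wp p Λ g' a - algebraMap k F ((0 : Fin m → k) a) * 0 =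
        (f a - wp p Λ g' a - algebraMap k F (c a) * φ) + algebraMap k F (c a) * φ := by
      ring
    rw [h4]
    refine (W.valuation.map_add _ _).trans (max_le h3 ?_)
    rw [map_mul]
    exact mul_le_one' (val_const_le W _) hφ
  · rw [not_le] at hφ
    have hφ0 : φ ≠ 0 := by
      rintro rfl
      rw [map_zero] at hφ
      exact absurd hφ (not_lt.mpr zero_le_one)
    obtain ⟨z, hz⟩ := exists_zpow ht hφ0
    have hzneg : z < 0 := by
      by_contra hge
      rw [not_lt] at hge
      obtain ⟨n, rfl⟩ := Int.eq_ofNat_of_zero_le hge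
      rw [hz, zpow_natCast] at hφ
      exact absurd (pow_le_one' ht.lt.le n) (not_le.mpr hφ)
    obtain ⟨e, he⟩ : ∃ e : ℕ, z = -(e : ℤ) := ⟨(-z).toNat, by omega⟩
    have he1 : e ≠ 0 := by omega
    have hval : ∀ τ, Unif W τ → W.valuation (φ * τ ^ e) = 1 := by
      intro τ hτ
      rw [map_mul, map_pow, unif_eq hτ ht.unif, hz, he, zpow_neg, zpow_natCast, inv_mul_cancel₀]
      exact pow_ne_zero _ hvt.ne'
    have hpe : ¬ p ∣ e := by
      rintro ⟨e', rfl⟩
      rcases h1 with h1 | h1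
      · exact absurd h1 (not_le.mpr hφ)
      · apply h1 (algebraMap R F t ^ e')
        rw [← hval _ ht.unif, ← pow_mul, mul_comm e' p, mul_comm]
    refine ⟨g, max M₀ e, fun g' hg' τ hτ => ⟨e, φ, c, κ, ?_⟩⟩
    exact ⟨le_max_right _ _, (hval τ hτ).le, fun h => absurd h he1,
      fun _ => ⟨hpe, hval τ hτ, hτ⟩, hreg g' hg',
      fun b => (hκM b).trans (by exact_mod_cast le_max_left _ _), hκ' τ hτ⟩

theorem LocForm.mono {f : Fin m → F} {h : Fin r → F} {g : Fin m → F} {M M' : ℕ} {τ : F} {e : ℕ}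
    {φ : F} {c : Fin m → k} {κ : Fin r → ℤ} (H : LocForm p Λ f h g M W τ e φ c κ)
    (hM : M ≤ M') : LocForm p Λ f h g M' W τ e φ c κ :=
  ⟨H.eM.trans hM, H.le, H.e0, H.e1, H.reg, fun b => (H.κM b).trans (by exact_mod_cast hM), H.κ1⟩

/-- The gauges on a chart. -/
theorem exists_chart_gauge {b : R} (hb : b ≠ 0) {f : Fin m → F} {h : Fin r → F}
    (hh : ∀ b, h b ≠ 0) (hf : ∀ W : ValuationSubring F, Le R W →
      W.valuation (algebraMap R F b) < 1 → Scalar p Λ f W) (g' : Fin m → F) :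
    ∃ (g : Fin m → F) (M : ℕ), (∀ a, ∃ (N : ℕ) (e : R), algebraMap R F b ^ N * g a =
      algebraMap R F e) ∧ ∀ W : ValuationSubring F, Le R W → W.valuation (algebraMap R F b) < 1 →
        ∀ τ, Unif W τ → ∃ e φ c κ, LocForm p Λ f h (fun a => g' a + g a) M W τ e φ c κ := by
  classical
  have hloc : ∀ W : ValuationSubring F, ∃ (g : Fin m → F) (M : ℕ), Le R W →
      W.valuation (algebraMap R F b) < 1 → ∀ g' : Fin m → F,
      (∀ a, W.valuation (g' a - g a) ≤ 1) →
      ∀ τ, Unif W τ → ∃ e φ c κ, LocForm p Λ f h g' M W τ e φ c κ := by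
    intro W
    by_cases hW : Le R W ∧ W.valuation (algebraMap R F b) < 1
    · have hq0 : cen W hW.1 ≠ ⊥ := by
        intro h0
        have h1 : b ∈ cen W hW.1 := hW.2
        rw [h0] at h1
        exact hb h1
      obtain ⟨t, ht⟩ := exists_place hW.1 hq0
      obtain ⟨g, M, hg⟩ := exists_locForm ht hh (hf W hW.1 hW.2)
      exact ⟨g, M, fun _ _ => hg⟩
    · exact ⟨0, 0, fun h1 h2 => absurd ⟨h1, h2⟩ hW⟩
  choose g₀ M₀ hg₀ using hloc
  set s := (finite_special (F := F) hb).toFinset with hs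
  have hmem : ∀ W : {W : ValuationSubring F // Le R W}, W ∈ s ↔
      W.1.valuation (algebraMap R F b) < 1 := by
    intro W
    rw [hs, Set.Finite.mem_toFinset]
    rfl
  have happ : ∀ a, ∃ (h : F) (N : ℕ) (e : R), algebraMap R F b ^ N * h = algebraMap R F e ∧
      ∀ W : ValuationSubring F, Le R W → W.valuation (algebraMap R F b) < 1 → ∀ t, Unif W t →
        W.valuation (h - (g₀ W a - g' a)) ≤ W.valuation t ^ 0 := fun a =>
    exists_approx hb (fun W => g₀ W a - g' a) 0
  choose g N e h1 h2 using happ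
  refine ⟨g, s.sup fun W => M₀ W.1, fun a => ⟨N a, e a, h1 a⟩, fun W hW hbW τ hτ => ?_⟩
  obtain ⟨e', φ, c, κ, h3⟩ := hg₀ W hW hbW (fun a => g' a + g a) (fun a => by
    have h3 := h2 a W hW hbW τ hτ
    rw [pow_zero] at h3
    have h4 : g' a + g a - g₀ W a = g a - (g₀ W a - g' a) := by ring
    rw [h4]
    exact h3) τ hτ
  exact ⟨e', φ, c, κ, h3.mono (Finset.le_sup (f := fun W : {W : ValuationSubring F // Le R W} =>
    M₀ W.1) ((hmem ⟨W, hW⟩).mpr hbW))⟩

end Loc

/-- **The data of a curve exist.** -/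
theorem nonempty_cdata (p : ℕ) [Fact p.Prime] (k F : Type) [Field k] [Finite k] [Field F]
    [Algebra (ZMod p) F] [Algebra k F] [Algebra.EssFiniteType (ZMod p) F]
    (htr : Algebra.trdeg (ZMod p) F = 1) {m r : ℕ} (Λ : Matrix (Fin m) (Fin m) k)
    (f : Fin m → F) (h : Fin r → F) (hh : ∀ b, h b ≠ 0)
    (hf : ∀ W : ValuationSubring F, W ≠ ⊤ → Scalar p Λ f W) : Nonempty (CData p k F Λ f h) := by
  classical
  have hc := charP_F p F
  obtain ⟨x, hx, i1, i2, i3, i4⟩ := exists_sep (ZMod p) F htr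
  have hx0 : x ≠ 0 := by
    rintro rfl
    exact hx (isAlgebraic_zero)
  have hx' : Transcendental (ZMod p) x⁻¹ := by
    intro h
    apply hx
    have := h.inv
    rwa [inv_inv] at this
  obtain ⟨A₀, hA₀⟩ := exists_chart (k := ZMod p) x hx
  obtain ⟨A₁, hA₁⟩ := exists_chart (k := ZMod p) x⁻¹ hx'
  have d0 := hA₀.ded
  have e0 := hA₀.frac
  have t0 := hA₀.finiteType
  have d1 := hA₁.ded
  have e1 := hA₁.frac
  have t1 := hA₁.finiteType
  have htop : ∀ {W : ValuationSubring F} {w : F}, w ≠ 0 → W.valuation w < 1 → W ≠ ⊤ := by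
    rintro W w hw hlt rfl
    have h1 : (⊤ : ValuationSubring F).valuation w⁻¹ ≤ 1 :=
      (ValuationSubring.valuation_le_one_iff _ _).mpr trivial
    rw [map_inv₀] at h1
    have h2 : 0 < (⊤ : ValuationSubring F).valuation w := by
      rw [Valuation.pos_iff]; exact hw
    exact absurd h1 (not_le.mpr ((one_lt_inv₀ h2).mpr hlt))
  obtain ⟨b, hb0, hb⟩ := exists_den_finset (R := A₀) (F := F) (Finset.univ.image f ∪
    (Finset.univ.image h ∪ Finset.univ.image fun b => (h b)⁻¹))
  have hb0' : algebraMap A₀ F b ≠ 0 := algebraMap_ne_zero hb0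
  have hbf : ∀ W : ValuationSubring F, Le A₀ W → W.valuation (algebraMap A₀ F b) = 1 → ∀ a,
      W.valuation (f a) ≤ 1 := fun W hW hv a => hb W hW hv _
    (Finset.mem_union_left _ (Finset.mem_image_of_mem _ (Finset.mem_univ _)))
  have hbh : ∀ W : ValuationSubring F, Le A₀ W → W.valuation (algebraMap A₀ F b) = 1 → ∀ a,
      W.valuation (h a) = 1 := by
    intro W hW hv a
    have h1 := hb W hW hv (h a) (Finset.mem_union_right _ (Finset.mem_union_left _
      (Finset.mem_image_of_mem _ (Finset.mem_univ _))))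
    have h2 := hb W hW hv (h a)⁻¹ (Finset.mem_union_right _ (Finset.mem_union_right _
      (Finset.mem_image.mpr ⟨a, Finset.mem_univ _, rfl⟩)))
    have h3 : 0 < W.valuation (h a) := by rw [Valuation.pos_iff]; exact hh a
    rw [map_inv₀] at h2
    exact le_antisymm h1 ((inv_le_one₀ h3).mp h2)
  set X : A₀ := ⟨x, hA₀.mem⟩ with hX
  have hXF : algebraMap A₀ F X = x := rfl
  set ξ : A₁ := ⟨x⁻¹, hA₁.mem⟩ with hξ
  have hξF : algebraMap A₁ F ξ = x⁻¹ := rfl
  have hξ0 : ξ ≠ 0 := by
    intro h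
    have : x⁻¹ = 0 := congrArg (fun z : A₁ => (z : F)) h
    exact hx0 (inv_eq_zero.mp this)
  -- the gauges
  obtain ⟨g0, M0, hg0, hF0⟩ := exists_chart_gauge (R := A₀) (k := k) (p := p) hb0 (f := f) hh
    (fun W _ hv => hf W (htop hb0' hv)) 0
  obtain ⟨g1, M1, hg1, hF1⟩ := exists_chart_gauge (R := A₁) (k := k) (p := p) hξ0 (f := f) hh
    (fun W _ hv => hf W (htop (algebraMap_ne_zero hξ0) hv)) g0
  have hbd1 : ∀ a, ∃ n, ∀ W : ValuationSubring F, 1 ≤ W.valuation x →
      W.valuation (x⁻¹ ^ n * g1 a) ≤ 1 := by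
    intro a
    obtain ⟨N, e, he⟩ := hg1 a
    refine ⟨N, fun W hW => ?_⟩
    rw [hξF] at he
    rw [he]
    exact hA₁.le ((val_inv_le hx0).mpr hW) e
  have hreg1 : ∀ a (W : ValuationSubring F), W.valuation x = 1 → W.valuation (g1 a) ≤ 1 := by
    intro a W hv
    obtain ⟨n, hn⟩ := hbd1 a
    have h1 := hn W hv.ge
    rwa [map_mul, map_pow, map_inv₀, hv, inv_one, one_pow, one_mul] at h1
  have hbd0 : ∀ a, ∃ n, ∀ W : ValuationSubring F, W.valuation x ≤ 1 →
      W.valuation (x ^ n * g1 a) ≤ 1 := by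
    intro a
    obtain ⟨N, e, he⟩ := exists_pow_den (R := A₀) X (g1 a) (by
      intro W hW hv
      rw [hXF] at hv
      exact hreg1 a W hv)
    rw [hXF] at he
    refine ⟨N, fun W hW => ?_⟩
    rw [he]
    exact hA₀.le hW e
  obtain ⟨N1, hN1⟩ := exists_common (Finset.univ : Finset (Fin m)) (fun a n =>
    ∀ W : ValuationSubring F, 1 ≤ W.valuation x → W.valuation (x⁻¹ ^ n * g1 a) ≤ 1) (by
      intro a _
      obtain ⟨n, hn⟩ := hbd1 a
      refine ⟨n, fun m hm W hW => ?_⟩
      obtain ⟨j, rfl⟩ := Nat.exists_eq_add_of_le hm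
      have h1 : x⁻¹ ^ (n + j) * g1 a = x⁻¹ ^ j * (x⁻¹ ^ n * g1 a) := by
        rw [pow_add]; ring
      rw [h1, map_mul, map_pow]
      exact mul_le_one' (pow_le_one' ((val_inv_le hx0).mpr hW) _) (hn W hW))
  obtain ⟨N2, hN2⟩ := exists_common (Finset.univ : Finset (Fin m)) (fun a n =>
    ∀ W : ValuationSubring F, W.valuation x ≤ 1 → W.valuation (x ^ n * g1 a) ≤ 1) (by
      intro a _
      obtain ⟨n, hn⟩ := hbd0 a
      refine ⟨n, fun m hm W hW => ?_⟩
      obtain ⟨j, rfl⟩ := Nat.exists_eq_add_of_le hm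
      have h1 : x ^ (n + j) * g1 a = x ^ j * (x ^ n * g1 a) := by
        rw [pow_add]; ring
      rw [h1, map_mul, map_pow]
      exact mul_le_one' (pow_le_one' hW _) (hn W hW))
  obtain ⟨N3, hN3⟩ := exists_T' hx0 hA₀ hA₁ (algebraMap A₀ F b) b.2 hb0'
  set n := max N3 (max N1 N2) with hn
  obtain ⟨T, hT0, hT⟩ := hN3 n (le_max_left _ _)
  obtain ⟨S0, hS00, hS0A, hS0⟩ := hA₀.exists_gens
  obtain ⟨S1, hS10, hS1A, hS1⟩ := hA₁.exists_gens
  refine ⟨⟨x, g0, fun a => g0 a + g1 a, n, max M0 M1,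
    {{1, x}} ∪ (S0.image fun e => {1, x, e}) ∪ (S1.image fun e => {1, x, e * x}), T, hx0, ?_, hT0,
    ?_, ?_, ?_, ?_, ?_⟩⟩
  · intro s hs
    rw [Finset.mem_union, Finset.mem_union, Finset.mem_singleton, Finset.mem_image,
      Finset.mem_image] at hs
    rcases hs with (rfl | ⟨e, he, rfl⟩) | ⟨e, he, rfl⟩
    · refine ⟨?_, ⟨1, by simp⟩⟩
      rw [Finset.mem_insert, Finset.mem_singleton]
      rintro (h | h)
      · exact zero_ne_one h
      · exact hx0 h.symm
    · refine ⟨?_, ⟨1, by simp⟩⟩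
      rw [Finset.mem_insert, Finset.mem_insert, Finset.mem_singleton]
      rintro (h | h | h)
      · exact zero_ne_one h
      · exact hx0 h.symm
      · exact hS00 e he h.symm
    · refine ⟨?_, ⟨1, by simp⟩⟩
      rw [Finset.mem_insert, Finset.mem_insert, Finset.mem_singleton]
      rintro (h | h | h)
      · exact zero_ne_one h
      · exact hx0 h.symm
      · exact mul_ne_zero (hS10 e he) hx0 h.symm
  · intro W R hR hs w hw
    by_cases hW : W.valuation x ≤ 1
    · have hLe := hA₀.le hW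
      refine hA₀.detect hLe hR hS0 (fun e he => ?_) hw
      have h1 := hs {1, x, e} (by
        rw [Finset.mem_union, Finset.mem_union]
        exact Or.inl (Or.inr (Finset.mem_image_of_mem (fun e => ({1, x, e} : Finset F)) he)))
      have h2 := prin_pair hR h1 (w := 1) (u := e) (by simp) (by simp) (by
        intro g hg
        rw [Finset.mem_insert, Finset.mem_insert, Finset.mem_singleton] at hg
        rw [map_one]
        rcases hg with rfl | rfl | rfl
        · rw [map_one]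
        · exact hW
        · exact hLe ⟨_, hS0A _ he⟩)
      rwa [div_one] at h2
    · have hv := (val_inv_lt hx0).mpr hW
      have hLe := hA₁.le hv.le
      refine hA₁.detect hLe hR hS1 (fun e he => ?_) hw
      have h1 := hs {1, x, e * x} (by
        rw [Finset.mem_union, Finset.mem_union]
        exact Or.inr (Finset.mem_image_of_mem (fun e => ({1, x, e * x} : Finset F)) he))
      have h2 := prin_pair hR h1 (w := x) (u := e * x) (by simp) (by simp) (by
        intro g hg
        rw [Finset.mem_insert, Finset.mem_insert, Finset.mem_singleton] at hg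
        rcases hg with rfl | rfl | rfl
        · rw [map_one]; exact (not_le.mp hW).le
        · exact le_rfl
        · rw [map_mul]
          exact mul_le_of_le_one_left' (hLe ⟨_, hS1A _ he⟩))
      rwa [mul_div_cancel_right₀ _ hx0] at h2
  · intro W hW a
    rw [add_sub_cancel_left]
    exact hN2 n ((le_max_right _ _).trans (le_max_right _ _)) a (Finset.mem_univ _) W hW
  · intro W hW a
    rw [add_sub_cancel_left, div_eq_inv_mul, ← inv_pow]
    exact hN1 n ((le_max_left _ _).trans (le_max_right _ _)) a (Finset.mem_univ _) W hW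
  · intro W
    obtain ⟨τ, h1, h2, h3, h4⟩ := hT W
    by_cases hW : W.valuation x ≤ 1
    · have hLe := hA₀.le hW
      have hgg : (fun a => gg x (g0 a) (g0 a + g1 a) W) = g0 := by
        funext a; exact gg_le hW
      rw [hgg]
      -- the places where everything is integral
      have htriv : W.valuation (algebraMap A₀ F b) = 1 →
          LocForm p Λ f h g0 (max M0 M1) W τ 0 0 0 0 := by
        intro hv
        refine ⟨Nat.zero_le _, by rw [zero_mul, map_zero]; exact zero_le, fun _ => rfl,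
          fun h => absurd rfl h, fun a => ?_, fun b => ?_, fun a => ?_⟩
        · rw [mul_zero, sub_zero]
          refine (W.valuation.map_sub _ _).trans (max_le (hbf W hLe hv a) (wp_le (fun b => ?_) a))
          obtain ⟨N, e, he⟩ := hg0 b
          have h5 := congrArg W.valuation he
          rw [map_mul, map_pow, hv, one_pow, one_mul] at h5
          rw [h5]
          exact hLe e
        · rw [Pi.zero_apply, abs_zero]; positivity
        · rw [Pi.zero_apply, neg_zero, zpow_zero, mul_one]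
          exact hbh W hLe hv a
      rcases h3 hW with ⟨rfl, hx1, hbv⟩ | ⟨hτ, hsp⟩
      · exact ⟨1, Or.inl rfl, h1, h2, 0, 0, 0, 0, htriv hbv⟩
      · refine ⟨τ, Or.inr hτ, h1, h2, ?_⟩
        by_cases hbv : W.valuation (algebraMap A₀ F b) < 1
        · obtain ⟨e, φ, c, κ, h5⟩ := hF0 W hLe hbv τ hτ
          have h6 : (fun a => (0 : Fin m → F) a + g0 a) = g0 := by
            funext a; exact zero_add _
          rw [h6] at h5
          exact ⟨e, φ, c, κ, h5.mono (le_max_left _ _)⟩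
        · exact ⟨0, 0, 0, 0, htriv (le_antisymm (hLe b) (not_lt.mp hbv))⟩
    · have hgg : (fun a => gg x (g0 a) (g0 a + g1 a) W) = fun a => g0 a + g1 a := by
        funext a; exact gg_gt hW
      rw [hgg]
      have hτ := h4 hW
      have hv := (val_inv_lt hx0).mpr hW
      have hLe := hA₁.le hv.le
      obtain ⟨e, φ, c, κ, h5⟩ := hF1 W hLe hv τ hτ
      exact ⟨τ, Or.inr hτ, h1, h2, e, φ, c, κ, h5.mono (le_max_right _ _)⟩
  · intro W τ hτ E hE
    by_cases hW : W.valuation x ≤ 1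
    · exact hA₀.exists_pres (hA₀.le hW) hτ E hE
    · have hv := (val_inv_lt hx0).mpr hW
      exact hA₁.exists_pres (hA₁.le hv.le) hτ E hE

end Pool.Agent.H96.W2
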