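import Pool.Agent.H96.W.Ech

/-!
# Echelon data with poles of the coordinates as pivots
-/

set_option autoImplicit false
set_option linter.unusedSectionVars false

namespace Pool.Agent.H96.W2

open Pool.Agent.H96.W

/-- The functionals. -/
def ell {k I : Type} [Field k] {m : ℕ} (a : (Fin m → k) → (Fin m → k) → k) (γ : I → Fin m → k)
    (d : Fin m → k) : (Fin m → k) ⊕ I → k :=
  Sum.elim (fun b => a d b) fun i => d ⬝ᵥ γ i

variable {k I : Type} [Field k] [Fintype I] [DecidableEq I] {m : ℕ}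

theorem exists_echelon2 [Finite k] {Γ Γ' : Type} [LinearOrder Γ] [LinearOrder Γ']
    (γ : I → Fin m → k) (act : Finset I) (psz : (Fin m → k) ⊕ I → Γ')
    (C₁ : Submodule k (Fin m → k)) (sz : (Fin m → k) → Γ) :
    ∃ (B : Finset (Fin m → k)) (a : (Fin m → k) → (Fin m → k) → k)
      (J : Finset ((Fin m → k) ⊕ I)) (μ : (Fin m → k) ⊕ I → Fin m → k) (d₀ d₁ : ℕ)
      (β : Fin d₀ ⊕ Fin d₁ → Fin m → k),
      (∀ b ∈ B, b ∉ C₁) ∧
      (∀ c b, a c b ≠ 0 → b ∈ B ∧ sz b ≤ sz c) ∧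
      (∀ c, c - ∑ b ∈ B, a c b • b ∈ C₁) ∧
      (∀ b, Sum.inl b ∈ J → b ∈ B) ∧ (∀ i, Sum.inr i ∈ J → i ∈ act) ∧
      (∀ j ∈ J, ell a γ (μ j) j = 1) ∧ (∀ j ∈ J, ∀ j' ∈ J, j ≠ j' → ell a γ (μ j) j' = 0) ∧
      (∀ j ∈ J, ∀ b ∈ B, a (μ j) b ≠ 0 → psz (Sum.inl b) ≤ psz j) ∧
      (∀ j ∈ J, ∀ i ∈ act, μ j ⬝ᵥ γ i ≠ 0 → psz (Sum.inr i) ≤ psz j) ∧
      (∀ e, ∀ b, a (β (Sum.inl e)) b = 0) ∧
      (∀ e, ∀ i ∈ act, β (Sum.inl e) ⬝ᵥ γ i = 0) ∧ (∀ e, β e ∈ C₁) ∧
      (∀ c ∈ C₁, ∃ lc : Fin d₀ ⊕ Fin d₁ → k, c = ∑ l, lc l • β l) ∧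
      d₀ + d₁ + B.card ≤ m ∧ m ≤ J.card + d₀ := by
  classical
  let _ := Fintype.ofFinite k
  obtain ⟨B, -, hB1, hB2⟩ := exists_greedy (k := k) (Finset.univ : Finset (Fin m → k)) sz
    (fun c => C₁.mkQ c)
  have hinj : Function.Injective (Fintype.linearCombination k (fun j : B => C₁.mkQ (j : Fin m → k))) := by
    have h1 : LinearIndependent k (fun j : B => C₁.mkQ (j : Fin m → k)) := hB1
    exact h1.fintypeLinearCombination_injective
  obtain ⟨φ, hφ⟩ := LinearMap.exists_leftInverse_of_injective _ (LinearMap.ker_eq_bot.mpr hinj)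
  -- the coefficients
  set a : (Fin m → k) → (Fin m → k) → k := fun c b =>
    if hb : b ∈ B then φ (C₁.mkQ c) ⟨b, hb⟩ else 0 with ha
  have hrep : ∀ c, ∃ v : B → k, (∀ b, v b ≠ 0 → sz b ≤ sz c) ∧
      C₁.mkQ c = Fintype.linearCombination k (fun j : B => C₁.mkQ (j : Fin m → k)) v := by
    intro c
    have h1 := hB2 c (Finset.mem_univ _)
    set Bc := B.filter fun b => sz b ≤ sz c with hBc
    have h2 : {b | b ∈ B ∧ sz b ≤ sz c} = (Bc : Set (Fin m → k)) := by
      ext b; simp [hBc]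
    rw [h2, Submodule.mem_span_image_finset_iff_exists_fun'] at h1
    obtain ⟨w, hw⟩ := h1
    refine ⟨fun b => if sz (b : Fin m → k) ≤ sz c then w b else 0, fun b hb => ?_, ?_⟩
    · by_contra h3
      exact hb (if_neg h3)
    · rw [Fintype.linearCombination_apply]
      have h3 : ∑ b : B, (if sz (b : Fin m → k) ≤ sz c then w b else 0) • C₁.mkQ (b : Fin m → k) =
          ∑ b ∈ B, (if sz b ≤ sz c then w b else 0) • C₁.mkQ b :=
        Finset.sum_coe_sort B (fun b => (if sz b ≤ sz c then w b else 0) • C₁.mkQ b)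
      rw [h3, ← hw, hBc, Finset.sum_filter]
      refine Finset.sum_congr rfl fun b _ => ?_
      split_ifs
      · rfl
      · rw [zero_smul]
  have hφv : ∀ v : B → k,
      φ (Fintype.linearCombination k (fun j : B => C₁.mkQ (j : Fin m → k)) v) = v := fun v =>
    LinearMap.congr_fun hφ v
  have ha1 : ∀ c b, a c b ≠ 0 → b ∈ B ∧ sz b ≤ sz c := by
    intro c b hb
    by_cases hbB : b ∈ B
    · refine ⟨hbB, ?_⟩
      obtain ⟨v, hv1, hv2⟩ := hrep c
      have h1 : a c b = v ⟨b, hbB⟩ := by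
        show (if hb : b ∈ B then φ (C₁.mkQ c) ⟨b, hb⟩ else 0) = _
        rw [dif_pos hbB, hv2, hφv]
      rw [h1] at hb
      exact hv1 _ hb
    · exfalso
      apply hb
      show (if hb : b ∈ B then φ (C₁.mkQ c) ⟨b, hb⟩ else 0) = _
      rw [dif_neg hbB]
  have ha2 : ∀ c, c - ∑ b ∈ B, a c b • b ∈ C₁ := by
    intro c
    rw [← Submodule.Quotient.mk_eq_zero C₁]
    show C₁.mkQ (c - ∑ b ∈ B, a c b • b) = 0
    obtain ⟨v, hv1, hv2⟩ := hrep c
    rw [map_sub, map_sum, sub_eq_zero, hv2, Fintype.linearCombination_apply,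
      ← Finset.sum_coe_sort B]
    refine Finset.sum_congr rfl fun b _ => ?_
    rw [map_smul]
    congr 1
    show _ = (if hb : (b : Fin m → k) ∈ B then φ (C₁.mkQ c) ⟨b, hb⟩ else 0)
    rw [dif_pos b.2, hv2, hφv]
  -- linearity
  have halin : ∀ b, ∀ d : Fin m → k, a d b = d ⬝ᵥ fun e => a (Pi.single e 1) b := by
    intro b d
    by_cases hb : b ∈ B
    · have h1 : ∀ c, a c b = φ (C₁.mkQ c) ⟨b, hb⟩ := fun c => dif_pos hb
      rw [h1, dotProduct]
      have h2 : d = ∑ e, d e • (Pi.single e (1 : k) : Fin m → k) := by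
        funext b
        rw [Finset.sum_apply, Finset.sum_eq_single b]
        · simp
        · intro c _ hc
          rw [Pi.smul_apply, Pi.single_eq_of_ne (Ne.symm hc), smul_zero]
        · intro h; exact absurd (Finset.mem_univ _) h
      conv_lhs => rw [h2]
      rw [map_sum, map_sum, Finset.sum_apply]
      refine Finset.sum_congr rfl fun e _ => ?_
      rw [map_smul, map_smul, Pi.smul_apply, smul_eq_mul, h1]
    · have h1 : ∀ c, a c b = 0 := fun c => dif_neg hb
      rw [h1, dotProduct]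
      exact (Finset.sum_eq_zero fun e _ => by rw [h1, mul_zero]).symm
  set D' : (Fin m → k) ⊕ I → Fin m → k :=
    Sum.elim (fun b e => a (Pi.single e 1) b) γ with hD'
  have hell : ∀ d s, d ⬝ᵥ D' s = ell a γ d s := by
    rintro d (b | i)
    · exact (halin b d).symm
    · rfl
  set S : Finset ((Fin m → k) ⊕ I) := B.image Sum.inl ∪ act.image Sum.inr with hS
  have hSl : ∀ b, Sum.inl b ∈ S ↔ b ∈ B := by
    intro b; simp [hS]
  have hSr : ∀ i, Sum.inr i ∈ S ↔ i ∈ act := by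
    intro i; simp [hS]
  obtain ⟨B', J, μ, d₀, d₁, β, h1, h2, h3, h4, h5, h6, h7, h8, h9, h10⟩ := exists_echelon D'
    S psz C₁ sz (fun c hc => by
      have h1 := ha2 c
      have h2 : ∑ b ∈ B, a c b • b = 0 := Finset.sum_eq_zero fun b hb => by
        have h3 := hc (Sum.inl b) ((hSl b).mpr hb)
        rw [hell] at h3
        have h4 : a c b = 0 := h3
        rw [h4, zero_smul]
      rwa [h2, sub_zero] at h1)
  refine ⟨B, a, J, μ, d₀, d₁, β, ?_, ha1, ha2, fun b hb => (hSl b).mp (h3 hb),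
    fun i hi => (hSr i).mp (h3 hi), ?_, ?_, ?_, ?_, ?_, ?_, h7, h8, ?_, h10⟩
  · intro b hb hbC
    exact hB1.ne_zero hb ((Submodule.Quotient.mk_eq_zero C₁).mpr hbC)
  · intro j hj
    rw [← hell]
    exact (h4 j hj j hj).trans (if_pos rfl)
  · intro j hj j' hj' hne
    rw [← hell]
    exact (h4 j hj j' hj').trans (if_neg hne)
  · intro j hj b hb hne
    refine h5 j hj (Sum.inl b) ((hSl b).mpr hb) ?_
    rw [hell]
    exact hne
  · intro j hj i hi hne
    refine h5 j hj (Sum.inr i) ((hSr i).mpr hi) ?_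
    rw [hell]
    exact hne
  · intro e b
    by_cases hb : b ∈ B
    · have := h6 e (Sum.inl b) ((hSl b).mpr hb)
      rw [hell] at this
      exact this
    · exact dif_neg hb
  · intro e i hi
    have := h6 e (Sum.inr i) ((hSr i).mpr hi)
    rw [hell] at this
    exact this
  · have h11 : B.card ≤ Module.finrank k ((Fin m → k) ⧸ C₁) := by
      have h4 : LinearIndependent k (fun b : B => C₁.mkQ (b : Fin m → k)) := hB1
      have := h4.fintype_card_le_finrank
      rwa [Fintype.card_coe] at this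
    have h12 : Module.finrank k ((Fin m → k) ⧸ C₁) ≤ B'.card := by
      have h13 : Submodule.span k ((B'.image C₁.mkQ : Finset _) : Set ((Fin m → k) ⧸ C₁)) = ⊤ := by
        rw [eq_top_iff]
        rintro x -
        obtain ⟨c, rfl⟩ := Submodule.Quotient.mk_surjective C₁ x
        obtain ⟨w, -, hw⟩ := h2 c
        rw [← Submodule.Quotient.mk_eq_zero C₁] at hw
        have h14 : C₁.mkQ c = ∑ b ∈ B', w b • C₁.mkQ b := by
          have h15 : C₁.mkQ (c - ∑ b ∈ B', w b • b) = 0 := hw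
          rw [map_sub, map_sum, sub_eq_zero] at h15
          rw [h15]
          exact Finset.sum_congr rfl fun b _ => by rw [map_smul]
        show C₁.mkQ c ∈ _
        rw [h14]
        refine Submodule.sum_mem _ fun b hb => Submodule.smul_mem _ _ (Submodule.subset_span ?_)
        exact Finset.mem_coe.mpr (Finset.mem_image_of_mem _ hb)
      have h16 := finrank_span_finset_le_card (R := k) (B'.image C₁.mkQ)
      rw [Set.finrank, h13, finrank_top] at h16
      exact h16.trans Finset.card_image_le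
    omega

end Pool.Agent.H96.W2
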