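import Pool.Agent.H96.W2.LocD
import Pool.Agent.H96.W2.CD
import Pool.Agent.H96.W.Glob

/-!
# The global data
-/

set_option autoImplicit false
set_option linter.unusedSectionVars false

namespace Pool.Agent.H96.W2

open MvPolynomial IsLocalRing Pool.Agent.H96.Reg Pool.Agent.H96.VL Pool.Agent.H96.W

/-- The global data: an abelian cover of a product of curves. -/
structure GData (p : ℕ) [Fact p.Prime] (k K : Type) [Field k] [Field K] [Algebra k K]
    [Algebra (ZMod p) k] (I : Type) [Fintype I] [DecidableEq I] (F : I → Type)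
    [∀ i, Field (F i)] [∀ i, Algebra (ZMod p) (F i)] [∀ i, Algebra k (F i)]
    [∀ i, Algebra (F i) K] [∀ i, IsScalarTower k (F i) K]
    [∀ i, IsScalarTower (ZMod p) k (F i)] (m r : ℕ) where
  Λ : Matrix (Fin m) (Fin m) k
  Λu : IsUnit Λ.det
  f : ∀ i, Fin m → F i
  h : ∀ i, Fin r → F i
  cd : ∀ i, CData p k (F i) Λ (f i) (h i)
  z : Fin m → K
  AS : ∀ a, wp p Λ z a = ∑ i, algebraMap (F i) K (f i a)
  w : Fin r → K
  w0 : ∀ b, w b ≠ 0
  Nw : Fin r → ℕ
  Nw0 : ∀ b, ¬ p ∣ Nw b
  KM : ∀ b, w b ^ Nw b = ∏ i, algebraMap (F i) K (h i b)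
  gen : ∀ R : Subring K, (∀ x ∈ R, x ≠ 0 → x⁻¹ ∈ R) → (∀ c : k, algebraMap k K c ∈ R) →
    (∀ i (w : F i), algebraMap (F i) K w ∈ R) → (∀ a, z a ∈ R) → (∀ b, w b ∈ R) → R = ⊤

section Zl

variable {p : ℕ} [Fact p.Prime] {k K : Type} [Field k] [Finite k] [Field K] [Algebra k K]
  {m : ℕ}

/-- The twisted linear form. -/
noncomputable def zlin (k : Type) [Field k] {K : Type} [Field K] [Algebra k K] {m : ℕ}
    (z g : Fin m → K) : (Fin m → k) →ₗ[k] K :=
  Fintype.linearCombination k fun a => z a - g a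

theorem zlin_apply (z g : Fin m → K) (c : Fin m → k) :
    zlin k z g c = ∑ a, algebraMap k K (c a) * (z a - g a) := by
  rw [zlin, Fintype.linearCombination_apply]
  exact Finset.sum_congr rfl fun a _ => by rw [Algebra.smul_def]

theorem zlin_diff (z g g' : Fin m → K) (c : Fin m → k) :
    zlin k z g c = zlin k z g' c + ∑ a, algebraMap k K (c a) * (g' a - g a) := by
  rw [zlin_apply, zlin_apply, ← Finset.sum_add_distrib]
  exact Finset.sum_congr rfl fun a _ => by ring

theorem zlin_single [DecidableEq k] (z g : Fin m → K) (a : Fin m) :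
    zlin k z g (Pi.single a 1) = z a - g a := by
  rw [zlin_apply, Finset.sum_eq_single a]
  · rw [Pi.single_eq_same, map_one, one_mul]
  · intro b _ hb
    rw [Pi.single_eq_of_ne hb, map_zero, zero_mul]
  · intro h; exact absurd (Finset.mem_univ _) h

/-- Roots. -/
noncomputable def rtp (p : ℕ) [Fact p.Prime] {k : Type} [Field k] [Finite k] [CharP k p] {m : ℕ}
    (d : Fin m → k) (a : Fin m) : k :=
  (frobeniusEquiv k p).symm (d a)

theorem rtp_pow [CharP k p] (d : Fin m → k) (a : Fin m) : rtp p d a ^ p = d a :=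
  frobeniusEquiv_symm_pow_p k p (d a)

theorem zlin_AS [CharP k p] (Λ : Matrix (Fin m) (Fin m) k) (z g f : Fin m → K)
    (h : ∀ a, wp p Λ z a = f a) (d : Fin m → k) :
    zlin k z g (rtp p d) ^ p - zlin k z g (Matrix.vecMul d Λ) =
      ∑ a, algebraMap k K (d a) * (f a - wp p Λ g a) := by
  have hc : CharP K p := charP_of_injective_algebraMap (algebraMap k K).injective p
  have h1 : zlin k z g (Matrix.vecMul d Λ) = ∑ a, algebraMap k K (d a) *
      ∑ b, algebraMap k K (Λ a b) * (z b - g b) := by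
    rw [zlin_apply]
    simp only [Matrix.vecMul, dotProduct, map_sum, Finset.sum_mul, Finset.mul_sum]
    rw [Finset.sum_comm]
    refine Finset.sum_congr rfl fun a _ => Finset.sum_congr rfl fun b _ => ?_
    rw [map_mul]; ring
  rw [h1, zlin_apply, sum_pow_char, ← Finset.sum_sub_distrib]
  refine Finset.sum_congr rfl fun a _ => ?_
  rw [mul_pow, ← map_pow, rtp_pow, ← h a, ← mul_sub, ← wp_sub]
  rfl

end Zl

variable {p : ℕ} [Fact p.Prime] {k K : Type} [Field k] [Field K] [Algebra k K]
    [Algebra (ZMod p) k] {I : Type} [Fintype I] [DecidableEq I] {F : I → Type}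
    [∀ i, Field (F i)] [∀ i, Algebra (ZMod p) (F i)] [∀ i, Algebra k (F i)]
    [∀ i, Algebra (F i) K] [∀ i, IsScalarTower k (F i) K]
    [∀ i, IsScalarTower (ZMod p) k (F i)] {m r : ℕ}

namespace GData

variable (G : GData p k K I F m r)

/-- The bound for the pole orders. -/
def M : ℕ := Finset.univ.sup fun i => (G.cd i).M

theorem le_M (i : I) : (G.cd i).M ≤ G.M := Finset.le_sup (f := fun i => (G.cd i).M) (Finset.mem_univ i)

/-- The factor of the twist. -/
noncomputable def xf (i : I) (b : Bool) : F i := cond b ((G.cd i).x ^ (G.cd i).N) 1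

/-- The gauge. -/
noncomputable def gf (i : I) (b : Bool) (a : Fin m) : F i := cond b ((G.cd i).g1 a) ((G.cd i).g0 a)

noncomputable def gs (σ : I → Bool) (a : Fin m) : K := ∑ i, algebraMap (F i) K (G.gf i (σ i) a)

noncomputable def xs (σ : I → Bool) : K := ∏ i, algebraMap (F i) K (G.xf i (σ i))

noncomputable def zs (σ : I → Bool) : (Fin m → k) →ₗ[k] K := zlin k G.z (G.gs σ)

theorem xf_ne (i : I) (b : Bool) : G.xf i b ≠ 0 := by
  cases b
  · exact one_ne_zero
  · exact pow_ne_zero _ (G.cd i).x0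

theorem xs_ne (σ : I → Bool) : G.xs σ ≠ 0 :=
  Finset.prod_ne_zero_iff.mpr fun i _ => (map_ne_zero _).mpr (G.xf_ne i _)

/-- The chart of a valuation. -/
noncomputable def σV (V : ValuationSubring K) (i : I) : Bool :=
  open Classical in if (WV V (F i)).valuation (G.cd i).x ≤ 1 then false else true

theorem xf_σV (V : ValuationSubring K) (i : I) :
    G.xf i (G.σV V i) = tw (G.cd i).x (G.cd i).N (WV V (F i)) := by
  by_cases h : (WV V (F i)).valuation (G.cd i).x ≤ 1
  · rw [σV, if_pos h, tw_le h]; rfl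
  · rw [σV, if_neg h, tw_gt h]; rfl

theorem gf_σV (V : ValuationSubring K) (i : I) (a : Fin m) :
    G.gf i (G.σV V i) a = gg (G.cd i).x ((G.cd i).g0 a) ((G.cd i).g1 a) (WV V (F i)) := by
  by_cases h : (WV V (F i)).valuation (G.cd i).x ≤ 1
  · rw [σV, if_pos h, gg_le h]; rfl
  · rw [σV, if_neg h, gg_gt h]; rfl

/-- The quotients of the twists. -/
theorem ratio (V : ValuationSubring K) (i : I) (b : Bool) :
    (WV V (F i)).valuation (G.xf i b / G.xf i (G.σV V i)) ≤ 1 ∧
      ∀ a, (WV V (F i)).valuation (G.xf i b / G.xf i (G.σV V i) *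
        (G.gf i (G.σV V i) a - G.gf i b a)) ≤ 1 := by
  set W := WV V (F i) with hW
  by_cases h : W.valuation (G.cd i).x ≤ 1
  · have hσ : G.σV V i = false := if_pos h
    rw [hσ]
    cases b
    · rw [div_self (G.xf_ne i _)]
      refine ⟨by rw [map_one], fun a => ?_⟩
      rw [sub_self, mul_zero, map_zero]; exact zero_le
    · have h1 : G.xf i true / G.xf i false = (G.cd i).x ^ (G.cd i).N := div_one _
      rw [h1]
      refine ⟨by rw [map_pow]; exact pow_le_one' h _, fun a => ?_⟩
      have h2 : G.gf i false a - G.gf i true a = -((G.cd i).g1 a - (G.cd i).g0 a) := by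
        show (G.cd i).g0 a - (G.cd i).g1 a = _
        ring
      rw [h2, mul_neg, Valuation.map_neg]
      exact (G.cd i).h_le W h a
  · have hσ : G.σV V i = true := if_neg h
    rw [hσ]
    have h' := (not_le.mp h).le
    cases b
    · have h1 : G.xf i false / G.xf i true = 1 / (G.cd i).x ^ (G.cd i).N := rfl
      rw [h1, one_div]
      refine ⟨?_, fun a => ?_⟩
      · rw [map_inv₀, map_pow]
        exact inv_le_one_of_one_le₀ (one_le_pow₀ h')
      · have h2 : G.gf i true a - G.gf i false a = (G.cd i).g1 a - (G.cd i).g0 a := rfl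
        rw [h2, inv_mul_eq_div]
        exact (G.cd i).h_gt W h' a
    · rw [div_self (G.xf_ne i _)]
      refine ⟨by rw [map_one], fun a => ?_⟩
      rw [sub_self, mul_zero, map_zero]; exact zero_le

end GData

end Pool.Agent.H96.W2
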