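import Pool.Agent.H96.W2.Glob
import Pool.Agent.H96.W.Pack

/-!
# The finite sets attached to the global data
-/

set_option autoImplicit false
set_option linter.unusedSectionVars false

namespace Pool.Agent.H96.W2

open MvPolynomial IsLocalRing Pool.Agent.H96.Reg Pool.Agent.H96.VL Pool.Agent.H96.W
open scoped Pointwise

variable {p : ℕ} [Fact p.Prime] {k K : Type} [Field k] [Finite k] [DecidableEq k] [Field K]
    [Algebra k K] [Algebra (ZMod p) k] {I : Type} [Fintype I] [DecidableEq I] {F : I → Type}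
    [∀ i, Field (F i)] [∀ i, Algebra (ZMod p) (F i)] [∀ i, Algebra k (F i)]
    [∀ i, Algebra (F i) K] [∀ i, IsScalarTower k (F i) K]
    [∀ i, IsScalarTower (ZMod p) k (F i)] {m r : ℕ}

namespace GData

variable (G : GData p k K I F m r) [DecidableEq K]

/-- The sets for the poles. -/
noncomputable def sC (c : Fin m → k) : Finset K :=
  (Finset.univ.image G.xs) ∪ Finset.univ.image fun σ => G.xs σ * G.zs σ c

/-- The sets of the coordinates `t_i`. -/
noncomputable def sI (i : I) : Finset K := (G.cd i).T.image (algebraMap (F i) K)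

/-- Their twists. -/
noncomputable def sLI (i : I) : Finset K := Finset.univ.image fun b => algebraMap (F i) K (G.xf i b)

/-- The sets of the coordinates. -/
noncomputable def ss : Ix k I m r → Finset K :=
  Sum.elim G.sI (Sum.elim G.sC fun b => {G.w b} * ∏ i, G.sI i ^ G.M)

/-- The twists. -/
noncomputable def sL : Ix k I m r → Finset K :=
  Sum.elim G.sLI (Sum.elim (fun _ => Finset.univ.image G.xs) fun _ => ∏ i, G.sLI i ^ G.M)

/-- The constants. -/
noncomputable def sK (k K : Type) [Field k] [Finite k] [DecidableEq k] [Field K] [Algebra k K]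
    [DecidableEq K] : Finset K :=
  have := Fintype.ofFinite k
  ((Finset.univ : Finset k).erase 0).image (algebraMap k K)

omit G in
theorem mem_sK {x : K} : x ∈ sK k K ↔ ∃ c : k, c ≠ 0 ∧ algebraMap k K c = x := by
  have := Fintype.ofFinite k
  rw [sK, Finset.mem_image]
  simp

end GData

def sε (k I : Type) (m r : ℕ) : Ix k I m r → ℤ := Sum.elim (fun _ => 1) (Sum.elim (fun _ => -1)
  fun _ => 1)

theorem sε_or (α : Ix k I m r) : (sε k I m r α : ℤ) = 1 ∨ (sε k I m r α : ℤ) = -1 := by
  rcases α with i | c | b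
  · exact Or.inl rfl
  · exact Or.inr rfl
  · exact Or.inl rfl

namespace GData

variable (G : GData p k K I F m r)

/-- The subring contains the valuation rings of the curves, and the poles are inverted. -/
structure Base (V : ValuationSubring K) (R : Subring K) : Prop where
  loc : VLocal V R
  b0 : ∀ c : k, algebraMap k K c ∈ R
  b1 : ∀ i (w : F i), (WV V (F i)).valuation w ≤ 1 → algebraMap (F i) K w ∈ R
  b2 : ∀ c, ¬ V.valuation (G.zs (G.σV V) c) ≤ 1 → (G.zs (G.σV V) c)⁻¹ ∈ R
  b3 : ∀ c, V.valuation (G.zs (G.σV V) c) ≤ 1 → G.zs (G.σV V) c ∈ R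

/-- The generator of the set for the poles. -/
noncomputable def gC (V : ValuationSubring K) (c : Fin m → k) : K :=
  open Classical in G.xs (G.σV V) * if V.valuation (G.zs (G.σV V) c) ≤ 1 then 1 else
    G.zs (G.σV V) c

variable {G} {V : ValuationSubring K} {R : Subring K}

theorem xs_div_mem (h1 : ∀ i (w : F i), (WV V (F i)).valuation w ≤ 1 → algebraMap (F i) K w ∈ R)
    (σ : I → Bool) : G.xs σ / G.xs (G.σV V) ∈ R := by
  have h2 : G.xs σ / G.xs (G.σV V) =
      ∏ i, algebraMap (F i) K (G.xf i (σ i) / G.xf i (G.σV V i)) := by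
    rw [xs, xs, ← Finset.prod_div_distrib]
    exact Finset.prod_congr rfl fun i _ => by rw [map_div₀]
  rw [h2]
  exact Subring.prod_mem _ fun i _ => h1 i _ (G.ratio V i _).1

theorem xs_diff_mem (h0 : ∀ c : k, algebraMap k K c ∈ R)
    (h1 : ∀ i (w : F i), (WV V (F i)).valuation w ≤ 1 → algebraMap (F i) K w ∈ R)
    (σ : I → Bool) (c : Fin m → k) :
    G.xs σ / G.xs (G.σV V) * (G.zs σ c - G.zs (G.σV V) c) ∈ R := by
  have h2 : G.zs σ c - G.zs (G.σV V) c =
      ∑ a, algebraMap k K (c a) * ∑ i, (algebraMap (F i) K (G.gf i (G.σV V i) a) -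
        algebraMap (F i) K (G.gf i (σ i) a)) := by
    rw [zs, zs, zlin_diff G.z (G.gs σ) (G.gs (G.σV V)) c, add_sub_cancel_left]
    refine Finset.sum_congr rfl fun a _ => ?_
    rw [Finset.sum_sub_distrib]
    rfl
  rw [h2, Finset.mul_sum]
  refine Subring.sum_mem _ fun a _ => ?_
  rw [Finset.mul_sum, Finset.mul_sum]
  refine Subring.sum_mem _ fun i _ => ?_
  have h3 : G.xs σ / G.xs (G.σV V) =
      algebraMap (F i) K (G.xf i (σ i) / G.xf i (G.σV V i)) *
        ∏ j ∈ Finset.univ.erase i, algebraMap (F j) K (G.xf j (σ j) / G.xf j (G.σV V j)) := by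
    rw [Finset.mul_prod_erase Finset.univ
      (fun j => algebraMap (F j) K (G.xf j (σ j) / G.xf j (G.σV V j))) (Finset.mem_univ i),
      xs, xs, ← Finset.prod_div_distrib]
    exact Finset.prod_congr rfl fun i _ => by rw [map_div₀]
  have h4 : G.xs σ / G.xs (G.σV V) *
      (algebraMap k K (c a) * (algebraMap (F i) K (G.gf i (G.σV V i) a) -
        algebraMap (F i) K (G.gf i (σ i) a))) =
      algebraMap k K (c a) *
        (algebraMap (F i) K (G.xf i (σ i) / G.xf i (G.σV V i) *
          (G.gf i (G.σV V i) a - G.gf i (σ i) a)) *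
        ∏ j ∈ Finset.univ.erase i, algebraMap (F j) K (G.xf j (σ j) / G.xf j (G.σV V j))) := by
    rw [h3, map_mul, map_sub]
    ring
  rw [h4]
  exact R.mul_mem (h0 _) (R.mul_mem (h1 i _ ((G.ratio V i _).2 a))
    (Subring.prod_mem _ fun j _ => h1 j _ (G.ratio V j _).1))

section Dec

variable [DecidableEq K]

/-- The set for the poles is principal. -/
theorem gen_sC (h : G.Base V R) (c : Fin m → k) : Gen R (G.sC c) (G.gC V c) := by
  classical
  have hx0 := G.xs_ne (G.σV V)
  by_cases hc : V.valuation (G.zs (G.σV V) c) ≤ 1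
  · have hg : G.gC V c = G.xs (G.σV V) := by rw [gC, if_pos hc, mul_one]
    rw [hg]
    refine ⟨hx0, fun g hg => ?_, G.xs (G.σV V), ?_, by rw [div_self hx0]; exact R.one_mem, hx0⟩
    · rcases Finset.mem_union.mp hg with hg | hg
      · obtain ⟨σ, -, rfl⟩ := Finset.mem_image.mp hg
        exact xs_div_mem h.b1 σ
      · obtain ⟨σ, -, rfl⟩ := Finset.mem_image.mp hg
        have h1 : G.xs σ * G.zs σ c / G.xs (G.σV V) =
            G.xs σ / G.xs (G.σV V) * (G.zs σ c - G.zs (G.σV V) c) +
              G.xs σ / G.xs (G.σV V) * G.zs (G.σV V) c := by ring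
        rw [h1]
        exact R.add_mem (xs_diff_mem h.b0 h.b1 σ c) (R.mul_mem (xs_div_mem h.b1 σ) (h.b3 c hc))
    · exact Finset.mem_union_left _ (Finset.mem_image_of_mem _ (Finset.mem_univ _))
  · have hz0 : G.zs (G.σV V) c ≠ 0 := by
      intro h0
      rw [h0, map_zero] at hc
      exact hc zero_le
    have hg : G.gC V c = G.xs (G.σV V) * G.zs (G.σV V) c := by rw [gC, if_neg hc]
    have hne := mul_ne_zero hx0 hz0
    rw [hg]
    refine ⟨hne, fun g hg => ?_, G.xs (G.σV V) * G.zs (G.σV V) c, ?_,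
      by rw [div_self hne]; exact R.one_mem, hne⟩
    · rcases Finset.mem_union.mp hg with hg | hg
      · obtain ⟨σ, -, rfl⟩ := Finset.mem_image.mp hg
        rw [div_mul_eq_div_div, div_eq_mul_inv _ (G.zs (G.σV V) c)]
        exact R.mul_mem (xs_div_mem h.b1 σ) (h.b2 c hc)
      · obtain ⟨σ, -, rfl⟩ := Finset.mem_image.mp hg
        have h1 : G.xs σ * G.zs σ c / (G.xs (G.σV V) * G.zs (G.σV V) c) =
            G.xs σ / G.xs (G.σV V) * (G.zs σ c - G.zs (G.σV V) c) * (G.zs (G.σV V) c)⁻¹ +
              G.xs σ / G.xs (G.σV V) := by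
          field_simp
          ring
        rw [h1]
        exact R.add_mem (R.mul_mem (xs_diff_mem h.b0 h.b1 σ c) (h.b2 c hc)) (xs_div_mem h.b1 σ)
    · exact Finset.mem_union_right _ (Finset.mem_image.mpr ⟨G.σV V, Finset.mem_univ _, rfl⟩)

theorem gen_sLC (h1 : ∀ i (w : F i), (WV V (F i)).valuation w ≤ 1 → algebraMap (F i) K w ∈ R) :
    Gen R (Finset.univ.image G.xs) (G.xs (G.σV V)) := by
  have hx0 := G.xs_ne (G.σV V)
  refine ⟨hx0, fun g hg => ?_, G.xs (G.σV V), Finset.mem_image_of_mem _ (Finset.mem_univ _),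
    by rw [div_self hx0]; exact R.one_mem, hx0⟩
  obtain ⟨σ, -, rfl⟩ := Finset.mem_image.mp hg
  exact xs_div_mem h1 σ

theorem gen_sLI (h1 : ∀ i (w : F i), (WV V (F i)).valuation w ≤ 1 → algebraMap (F i) K w ∈ R)
    (i : I) : Gen R (G.sLI i) (algebraMap (F i) K (G.xf i (G.σV V i))) := by
  have hx0 : algebraMap (F i) K (G.xf i (G.σV V i)) ≠ 0 := (map_ne_zero _).mpr (G.xf_ne i _)
  refine ⟨hx0, fun g hg => ?_, _, Finset.mem_image_of_mem _ (Finset.mem_univ (G.σV V i)),
    by rw [div_self hx0]; exact R.one_mem, hx0⟩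
  obtain ⟨b, -, rfl⟩ := Finset.mem_image.mp hg
  rw [← map_div₀]
  exact h1 i _ (G.ratio V i b).1

/-- Base for the valuation ring. -/
theorem base_self (V : ValuationSubring K) : G.Base V V.toSubring where
  loc := ⟨fun x hx => (V.valuation_le_one_iff x).mpr hx, fun x hx h1 => by
    have h2 : V.valuation x⁻¹ = 1 := by rw [map_inv₀, h1, inv_one]
    exact (V.valuation_le_one_iff _).mp h2.le⟩
  b0 := fun c => (V.valuation_le_one_iff _).mp (val_const_le V c)
  b1 := fun i w hw => (V.valuation_le_one_iff _).mp (wv_le_one.mp hw)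
  b2 := fun c hc => by
    refine (V.valuation_le_one_iff _).mp ?_
    rw [map_inv₀]
    exact inv_le_one_of_one_le₀ (not_le.mp hc).le
  b3 := fun c hc => (V.valuation_le_one_iff _).mp hc

/-- The constants are detected. -/
theorem const_mem (h : Prin R (sK k K)) (c : k) : algebraMap k K c ∈ R := by
  obtain ⟨T, hT⟩ := h
  obtain ⟨g, hg, hTg, hg0⟩ := hT.ex
  obtain ⟨a, ha, rfl⟩ := mem_sK.mp hg
  by_cases hc : c = 0
  · rw [hc, map_zero]; exact R.zero_mem
  have h1 := hT.mem (algebraMap k K (c * a)) (mem_sK.mpr ⟨c * a, mul_ne_zero hc ha, rfl⟩)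
  have h2 := R.mul_mem h1 hTg
  have h3 := hT.ne
  have h4 : algebraMap k K (c * a) / T * (T / algebraMap k K a) = algebraMap k K c := by
    rw [map_mul]
    field_simp
  rwa [h4] at h2

theorem prin_sK (h : ∀ c : k, algebraMap k K c ∈ R) : Prin R (sK k K) := by
  refine ⟨1, one_ne_zero, fun g hg => ?_, 1, mem_sK.mpr ⟨1, one_ne_zero, map_one _⟩,
    by rw [div_one]; exact R.one_mem, one_ne_zero⟩
  obtain ⟨a, ha, rfl⟩ := mem_sK.mp hg
  rw [div_one]
  exact h a

/-- Detection. -/
theorem base_of_prin (hR : VLocal V R) (h0 : Prin R (sK k K))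
    (h1 : ∀ i, ∀ s ∈ (G.cd i).base, Prin R (s.image (algebraMap (F i) K)))
    (h2 : ∀ c, Prin R (G.sC c)) : G.Base V R := by
  classical
  have hb1 : ∀ i (w : F i), (WV V (F i)).valuation w ≤ 1 → algebraMap (F i) K w ∈ R :=
    fun i w hw => (G.cd i).detect (WV V (F i)) (R.comap (algebraMap (F i) K)) (vlocal_comap hR)
      (fun s hs => prin_comap (h1 i s hs)) w hw
  have hx0 := G.xs_ne (G.σV V)
  have key : ∀ c, Gen R (G.sC c) (G.gC V c) := by
    intro c
    obtain ⟨T, hT⟩ := h2 c
    have h3 := gen_sC (base_self (G := G) V) c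
    refine hT.of_max hR ?_ fun g hg => h3.val_le (base_self (G := G) V).loc hg
    rw [gC]
    split_ifs with hc
    · rw [mul_one]
      exact Finset.mem_union_left _ (Finset.mem_image_of_mem _ (Finset.mem_univ _))
    · exact Finset.mem_union_right _ (Finset.mem_image.mpr ⟨G.σV V, Finset.mem_univ _, rfl⟩)
  refine ⟨hR, const_mem h0, hb1, fun c hc => ?_, fun c hc => ?_⟩
  · have hg : G.gC V c = G.xs (G.σV V) * G.zs (G.σV V) c := by rw [gC, if_neg hc]
    have h3 := (key c).mem (G.xs (G.σV V)) (Finset.mem_union_left _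
      (Finset.mem_image_of_mem _ (Finset.mem_univ _)))
    rw [hg, div_mul_eq_div_div, div_self hx0, one_div] at h3
    exact h3
  · have hg : G.gC V c = G.xs (G.σV V) := by rw [gC, if_pos hc, mul_one]
    have h3 := (key c).mem (G.xs (G.σV V) * G.zs (G.σV V) c) (Finset.mem_union_right _
      (Finset.mem_image.mpr ⟨G.σV V, Finset.mem_univ _, rfl⟩))
    rw [hg, mul_div_cancel_left₀ _ hx0] at h3
    exact h3

/-- Quotients of elements of the curve. -/
theorem div_mem_base (h : G.Base V R) {i : I} {a b : F i} (hb : b ≠ 0)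
    (hab : (WV V (F i)).valuation a ≤ (WV V (F i)).valuation b) :
    algebraMap (F i) K a / algebraMap (F i) K b ∈ R := by
  rw [← map_div₀]
  apply h.b1
  have h1 : 0 < (WV V (F i)).valuation b := by rw [Valuation.pos_iff]; exact hb
  rw [map_div₀]
  exact (div_le_one₀ h1).mpr hab

/-- Principality of the basic sets. -/
theorem prin_base (h : G.Base V R) (i : I) {s : Finset (F i)} (hs : s ∈ (G.cd i).base) :
    Prin R (s.image (algebraMap (F i) K)) := by
  obtain ⟨h0, hne⟩ := (G.cd i).zero_base s hs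
  obtain ⟨g, hg, hmax⟩ := Finset.exists_max_image s (fun w => (WV V (F i)).valuation w) hne
  have hg0 : g ≠ 0 := by rintro rfl; exact h0 hg
  have hg0' : algebraMap (F i) K g ≠ 0 := (map_ne_zero _).mpr hg0
  refine ⟨algebraMap (F i) K g, hg0', fun g' hg' => ?_, algebraMap (F i) K g,
    Finset.mem_image_of_mem _ hg, by rw [div_self hg0']; exact R.one_mem, hg0'⟩
  obtain ⟨w, hw, rfl⟩ := Finset.mem_image.mp hg'
  exact div_mem_base h hg0 (hmax w hw)

end Dec

end GData

end Pool.Agent.H96.W2
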