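import Pool.Agent.H96.W2.Glob2

/-!
# The local data of the global data
-/

set_option autoImplicit false
set_option linter.unusedSectionVars false

namespace Pool.Agent.H96.W2

open MvPolynomial IsLocalRing Pool.Agent.H96.Reg Pool.Agent.H96.VL Pool.Agent.H96.W

variable {p : ℕ} [Fact p.Prime] {k K : Type} [Field k] [Finite k] [Field K]
    [Algebra k K] [Algebra (ZMod p) k] {I : Type} [Fintype I] [DecidableEq I] {F : I → Type}
    [∀ i, Field (F i)] [∀ i, Algebra (ZMod p) (F i)] [∀ i, Algebra k (F i)]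
    [∀ i, Algebra (F i) K] [∀ i, IsScalarTower k (F i) K]
    [∀ i, IsScalarTower (ZMod p) k (F i)] {m r : ℕ}

/-- The local data of the global data. -/
structure LG (G : GData p k K I F m r) (V : ValuationSubring K) where
  L : LData p k V I m r G.Nw G.M
  z_eq : L.z = G.zs (G.σV V)
  w_eq : L.w = G.w
  tF : ∀ i, F i
  t_eq : ∀ i, L.t i = algebraMap (F i) K (tF i)
  t_le : ∀ i, (WV V (F i)).valuation (tF i) ≤ 1
  T_le : ∀ i, ∀ g ∈ (G.cd i).T, (WV V (F i)).valuation g ≤
    (WV V (F i)).valuation (tF i * G.xf i (G.σV V i))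
  T_eq : ∀ i, ∃ g ∈ (G.cd i).T, (WV V (F i)).valuation g =
    (WV V (F i)).valuation (tF i * G.xf i (G.σV V i))
  yF : ∀ i, Fin (L.n i + 1) → F i
  y_eq : ∀ i b, L.y i b = algebraMap (F i) K (yF i b)
  y_le : ∀ i b, (WV V (F i)).valuation (yF i b) ≤ 1
  gen : ∀ i (w : F i), (WV V (F i)).valuation w ≤ 1 →
    ∃ a s : MvPolynomial (Fin (L.n i + 1)) k, V.valuation (aeval (L.y i) s) = 1 ∧
      algebraMap (F i) K w = aeval (L.y i) a / aeval (L.y i) s

theorem aeval_map' {F₀ : Type} [Field F₀] [Algebra (ZMod p) F₀] [Algebra k F₀] [Algebra F₀ K]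
    [IsScalarTower k F₀ K] [IsScalarTower (ZMod p) k F₀] {n : ℕ} (y : Fin n → F₀)
    (P : MvPolynomial (Fin n) (ZMod p)) :
    aeval (fun b => algebraMap F₀ K (y b)) (MvPolynomial.map (algebraMap (ZMod p) k) P) =
      algebraMap F₀ K (aeval y P) := by
  have h1 := MvPolynomial.aeval_algebraMap_apply (R := k) K y
    (MvPolynomial.map (algebraMap (ZMod p) k) P)
  have h2 : aeval y (MvPolynomial.map (algebraMap (ZMod p) k) P) = aeval y P :=
    MvPolynomial.aeval_map_algebraMap _ _ _
  rw [h2] at h1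
  exact h1

theorem nonempty_lg (G : GData p k K I F m r) (V : ValuationSubring K) : Nonempty (LG G V) := by
  classical
  have hcp : CharP k p := charP_of_injective_algebraMap (algebraMap (ZMod p) k).injective p
  -- the data of the curves
  have hex : ∀ i, ∃ (τ : F i) (e : ℕ) (φ : F i) (c : Fin m → k) (κ : Fin r → ℤ)
      (n : ℕ) (y : Fin (n + 1) → F i)
      (Q : Fin (n + 1) → MvPolynomial (Fin (n + 1)) (ZMod p)) (l u : Fin (n + 1))
      (v : Fin m → Fin (n + 1)) (q : Fin r → Fin (n + 1)),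
      (τ = 1 ∨ Unif (WV V (F i)) τ) ∧
      (∀ g ∈ (G.cd i).T, (WV V (F i)).valuation g ≤
        (WV V (F i)).valuation (τ * G.xf i (G.σV V i))) ∧
      (∃ g ∈ (G.cd i).T, (WV V (F i)).valuation g =
        (WV V (F i)).valuation (τ * G.xf i (G.σV V i))) ∧
      LocForm p G.Λ (G.f i) (G.h i) (G.gf i (G.σV V i)) G.M (WV V (F i)) τ e φ c κ ∧
      Pres (WV V (F i)) n y Q l ∧ (Unif (WV V (F i)) τ → y l = τ) ∧
      y u = φ * τ ^ e ∧
      (∀ b, y (v b) = ∑ a, algebraMap k (F i) (G.Λ⁻¹ b a) *
        (G.f i a - wp p G.Λ (G.gf i (G.σV V i)) a - algebraMap k (F i) (c a) * φ)) ∧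
      ∀ b, y (q b) = G.h i b * τ ^ (-κ b) := by
    intro i
    have hci : CharP (F i) p := charP_of_injective_algebraMap (algebraMap k (F i)).injective p
    obtain ⟨τ, h1, h2, h3, e, φ, c, κ, h4⟩ := (G.cd i).unif (WV V (F i))
    have hg : (fun a => gg (G.cd i).x ((G.cd i).g0 a) ((G.cd i).g1 a) (WV V (F i))) =
        G.gf i (G.σV V i) := by
      funext a; exact (G.gf_σV V i a).symm
    rw [hg] at h4
    rw [← G.xf_σV V i] at h2 h3
    obtain ⟨n, y, Q, l, hP, hE, hl⟩ := (G.cd i).pres (WV V (F i)) τ h1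
      ({φ * τ ^ e} ∪ ((Finset.univ.image fun b => ∑ a, algebraMap k (F i) (G.Λ⁻¹ b a) *
        (G.f i a - wp p G.Λ (G.gf i (G.σV V i)) a - algebraMap k (F i) (c a) * φ)) ∪
        Finset.univ.image fun b => G.h i b * τ ^ (-κ b))) (by
        intro w hw
        rw [Finset.mem_union, Finset.mem_union, Finset.mem_singleton, Finset.mem_image,
          Finset.mem_image] at hw
        rcases hw with rfl | ⟨a, -, rfl⟩ | ⟨b, -, rfl⟩
        · exact h4.le
        · refine Valuation.map_sum_le _ fun b _ => ?_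
          rw [map_mul]
          exact mul_le_one' (val_const_le _ _) (h4.reg b)
        · exact (h4.κ1 b).le)
    obtain ⟨u, hu⟩ := hE _ (Finset.mem_union_left _ (Finset.mem_singleton_self _))
    choose v hv using fun a => hE _ (Finset.mem_union_right _ (Finset.mem_union_left _
      (Finset.mem_image_of_mem (fun b => ∑ a, algebraMap k (F i) (G.Λ⁻¹ b a) *
        (G.f i a - wp p G.Λ (G.gf i (G.σV V i)) a - algebraMap k (F i) (c a) * φ))
        (Finset.mem_univ a))))
    choose q hq using fun b => hE _ (Finset.mem_union_right _ (Finset.mem_union_right _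
      (Finset.mem_image_of_mem (fun b => G.h i b * τ ^ (-κ b)) (Finset.mem_univ b))))
    exact ⟨τ, e, φ, c, κ, n, y, Q, l, u, v, q, h1, h2, h3, h4.mono (G.le_M i), hP, hl, hu, hv, hq⟩
  choose τ e φ c κ n y Q l u v q h1 h2 h3 h4 hP hl hu hv hq using hex
  have hτ1 : ∀ i, (WV V (F i)).valuation (τ i) ≤ 1 := by
    intro i
    rcases h1 i with h | h
    · rw [h, map_one]
    · exact h.lt.le
  have hτ0 : ∀ i, τ i ≠ 0 := by
    intro i
    rcases h1 i with h | h
    · rw [h]; exact one_ne_zero
    · exact h.t0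
  have hτ0' : ∀ i, algebraMap (F i) K (τ i) ≠ 0 := fun i => (map_ne_zero _).mpr (hτ0 i)
  refine ⟨⟨⟨n, fun i b => algebraMap (F i) K (y i b),
    fun i b => MvPolynomial.map (algebraMap (ZMod p) k) (Q i b), l, u, v, q, e, κ,
    fun i => algebraMap (F i) K (τ i), fun i => G.Λ⁻¹.mulVec (c i),
    fun d => rtp p (Matrix.vecMul d G.Λ⁻¹),
    G.zs (G.σV V), G.w, ?_, ?_, ?_, ?_, ?_, fun i => (h4 i).eM, ?_,
    fun i hi => by rw [(h4 i).e0 hi, Matrix.mulVec_zero], ?_,
    fun i b => (h4 i).κM b, G.Nw0, G.w0, ?_, ?_⟩, rfl, rfl, τ, fun i => rfl, hτ1, h2, h3, y,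
    fun i b => rfl, ?_, ?_⟩⟩
  · exact fun i b => wv_le_one.mp ((hP i).vy b)
  · intro i
    rw [(hP i).G0, MvPolynomial.map_X]
  · intro i j
    rw [aeval_map', (hP i).rel, map_zero]
  · intro i
    have h5 : (Matrix.of fun a b => pderiv b (MvPolynomial.map (algebraMap (ZMod p) k)
        (Q i a))).det = MvPolynomial.map (algebraMap (ZMod p) k)
        (Matrix.of fun a b => pderiv b (Q i a)).det := by
      rw [RingHom.map_det]
      refine congrArg Matrix.det ?_
      refine Matrix.ext fun a b => ?_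
      exact pderiv_map (φ := algebraMap (ZMod p) k) (f := Q i a) (i := b)
    rw [h5, aeval_map']
    exact wv_eq_one.mp (hP i).det
  · intro i
    rcases h1 i with h | h
    · left
      rw [h, map_one]
    · right
      exact ⟨wv_lt_one.mp h.lt, (map_ne_zero _).mpr h.t0, by rw [hl i h]⟩
  · intro i hi
    obtain ⟨h5, h6, h7⟩ := (h4 i).e1 hi
    refine ⟨h5, ?_, ?_⟩
    · rw [hu i]
      exact wv_eq_one.mp h6
    · intro h8
      have h9 : τ i = 1 := by
        apply (algebraMap (F i) K).injective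
        rw [h8, map_one]
      rw [h9] at h7
      exact not_unif_one h7
  · intro d
    have h5 := zlin_AS (k := k) (p := p) G.Λ G.z (G.gs (G.σV V))
      (fun a => ∑ i, algebraMap (F i) K (G.f i a)) G.AS (Matrix.vecMul d G.Λ⁻¹)
    rw [Matrix.vecMul_vecMul, Matrix.nonsing_inv_mul _ G.Λu, Matrix.vecMul_one] at h5
    refine h5.trans ?_
    have h6 : ∀ a, (∑ i, algebraMap (F i) K (G.f i a)) - wp p G.Λ (G.gs (G.σV V)) a =
        ∑ i, algebraMap (F i) K (G.f i a - wp p G.Λ (G.gf i (G.σV V i)) a) := by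
      intro a
      have hc : CharP K p := charP_of_injective_algebraMap (algebraMap k K).injective p
      have h7 : wp p G.Λ (G.gs (G.σV V)) a =
          ∑ i, algebraMap (F i) K (wp p G.Λ (G.gf i (G.σV V i)) a) := by
        simp only [wp, GData.gs, map_sub, map_sum, map_mul, map_pow, Finset.sum_sub_distrib,
          ← IsScalarTower.algebraMap_apply]
        rw [sum_pow_char, Finset.sum_comm]
        congr 1
        exact Finset.sum_congr rfl fun b _ => by rw [Finset.mul_sum]
      rw [h7, ← Finset.sum_sub_distrib]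
      exact Finset.sum_congr rfl fun i _ => (map_sub _ _ _).symm
    simp only [h6, Finset.mul_sum]
    rw [Finset.sum_comm]
    refine Finset.sum_congr rfl fun i _ => ?_
    -- the curve `i`
    have h8 : ∀ a, algebraMap (F i) K (G.f i a - wp p G.Λ (G.gf i (G.σV V i)) a) =
        algebraMap k K (c i a) *
          (algebraMap (F i) K (y i (u i)) * (algebraMap (F i) K (τ i) ^ e i)⁻¹) +
        algebraMap (F i) K (G.f i a - wp p G.Λ (G.gf i (G.σV V i)) a -
          algebraMap k (F i) (c i a) * φ i) := by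
      intro a
      have h7 : algebraMap (F i) K (τ i) ^ e i ≠ 0 := pow_ne_zero _ (hτ0' i)
      rw [hu i, map_mul, map_pow, mul_assoc (algebraMap (F i) K (φ i)), mul_inv_cancel₀ h7,
        mul_one, map_sub _ (G.f i a - wp p G.Λ (G.gf i (G.σV V i)) a), map_mul,
        ← IsScalarTower.algebraMap_apply]
      ring
    simp only [h8, mul_add, Finset.sum_add_distrib]
    congr 1
    · rw [Matrix.dotProduct_mulVec, dotProduct, map_sum, Finset.sum_mul]
      refine Finset.sum_congr rfl fun a _ => ?_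
      rw [map_mul]
      ring
    · simp only [hv i, map_sum, Finset.mul_sum]
      rw [Finset.sum_comm]
      refine Finset.sum_congr rfl fun a _ => ?_
      rw [Matrix.vecMul, dotProduct, map_sum, Finset.sum_mul]
      refine Finset.sum_congr rfl fun b _ => ?_
      rw [map_mul, map_mul (algebraMap (F i) K), ← IsScalarTower.algebraMap_apply]
      ring
  · intro i b
    rw [hq i]
    exact wv_eq_one.mp ((h4 i).κ1 b)
  · intro b
    rw [G.KM]
    refine Finset.prod_congr rfl fun i _ => ?_
    rw [hq i, map_mul, map_zpow₀, mul_assoc, ← zpow_add₀ (hτ0' i), neg_add_cancel, zpow_zero,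
      mul_one]
  · exact fun i b => (hP i).vy b
  · intro i w hw
    obtain ⟨a, s, h5, h6⟩ := (hP i).gen w hw
    refine ⟨MvPolynomial.map (algebraMap (ZMod p) k) a, MvPolynomial.map (algebraMap (ZMod p) k) s,
      ?_, ?_⟩
    · show V.valuation (aeval (fun b => algebraMap (F i) K (y i b)) _) = 1
      rw [aeval_map']
      exact wv_eq_one.mp h5
    · show _ = aeval (fun b => algebraMap (F i) K (y i b)) _ /
        aeval (fun b => algebraMap (F i) K (y i b)) _
      rw [aeval_map', aeval_map', ← map_div₀, h6]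

end Pool.Agent.H96.W2
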