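import Pool.Agent.H96.W2.Reg
import Pool.Agent.H96.W2.Ech

/-!
# The local data at a valuation
-/

set_option autoImplicit false
set_option linter.unusedSectionVars false

namespace Pool.Agent.H96.W2

open MvPolynomial IsLocalRing Pool.Agent.H96.Reg Pool.Agent.H96.VL Pool.Agent.H96.W

/-- The local data at `V`. -/
structure LData (p : ℕ) (k : Type) [Field k] {K : Type} [Field K] [Algebra k K]
    (V : ValuationSubring K) (I : Type) [Fintype I] (m r : ℕ) (Nw : Fin r → ℕ) (M : ℕ) where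
  n : I → ℕ
  y : ∀ i, Fin (n i + 1) → K
  G : ∀ i, Fin (n i + 1) → MvPolynomial (Fin (n i + 1)) k
  l : ∀ i, Fin (n i + 1)
  u : ∀ i, Fin (n i + 1)
  v : ∀ i, Fin m → Fin (n i + 1)
  q : ∀ i, Fin r → Fin (n i + 1)
  e : I → ℕ
  κ : I → Fin r → ℤ
  t : I → K
  γ : I → Fin m → k
  rt : (Fin m → k) → Fin m → k
  z : (Fin m → k) →ₗ[k] K
  w : Fin r → K
  vy : ∀ i b, V.valuation (y i b) ≤ 1
  G0 : ∀ i, G i 0 = X (l i)
  rel : ∀ i (j : Fin (n i)), aeval (y i) (G i j.succ) = 0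
  det : ∀ i, V.valuation (aeval (y i) (Matrix.of fun a b => pderiv b (G i a)).det) = 1
  t1 : ∀ i, t i = 1 ∨ (V.valuation (t i) < 1 ∧ t i ≠ 0 ∧ y i (l i) = t i)
  eM : ∀ i, e i ≤ M
  act : ∀ i, e i ≠ 0 → ¬ p ∣ e i ∧ V.valuation (y i (u i)) = 1 ∧ t i ≠ 1
  inact : ∀ i, e i = 0 → γ i = 0
  AS : ∀ d, z (rt d) ^ p - z d = ∑ i, (algebraMap k K (d ⬝ᵥ γ i) * (y i (u i) * (t i ^ e i)⁻¹) +
    ∑ a, algebraMap k K (d a) * y i (v i a))
  κM : ∀ i b, |κ i b| ≤ M
  Nw0 : ∀ b, ¬ p ∣ Nw b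
  w0 : ∀ b, w b ≠ 0
  vq : ∀ i b, V.valuation (y i (q i b)) = 1
  KM : ∀ b, w b ^ Nw b = ∏ i, (y i (q i b) * t i ^ κ i b)

/-- The index set of the coordinates. -/
abbrev Ix (k I : Type) (m r : ℕ) : Type := I ⊕ ((Fin m → k) ⊕ Fin r)

namespace LData

variable {p : ℕ} [Fact p.Prime] {k : Type} [Field k] [Fintype k] {K : Type} [Field K] [Algebra k K]
  {V : ValuationSubring K} {I : Type} [Fintype I] [DecidableEq I] {m r : ℕ} {Nw : Fin r → ℕ}
  {M : ℕ} (L : LData p k V I m r Nw M)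

/-- The local form of the function on the curve. -/
def f (i : I) : K := L.y i (L.u i) * (L.t i ^ L.e i)⁻¹

theorem t_ne_zero (i : I) : L.t i ≠ 0 := by
  rcases L.t1 i with h | ⟨-, h, -⟩
  · rw [h]; exact one_ne_zero
  · exact h

theorem vt (i : I) : V.valuation (L.t i) ≤ 1 := by
  rcases L.t1 i with h | ⟨h, -, -⟩
  · rw [h, map_one]
  · exact h.le

theorem vf_act {i : I} (h : L.e i ≠ 0) : V.valuation (L.f i) = V.valuation ((L.t i ^ L.e i)⁻¹) := by
  rw [f, map_mul, (L.act i h).2.1, one_mul]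

theorem vf_act_gt {i : I} (h : L.e i ≠ 0) : 1 < V.valuation (L.f i) := by
  rw [L.vf_act h, map_inv₀, map_pow]
  have h1 : 0 < V.valuation (L.t i) := by rw [Valuation.pos_iff]; exact L.t_ne_zero i
  have h2 : V.valuation (L.t i) < 1 := by
    rcases L.t1 i with h3 | ⟨h3, -, -⟩
    · exact absurd h3 (L.act i h).2.2
    · exact h3
  rw [one_lt_inv₀ (pow_pos h1 _)]
  exact pow_lt_one₀ zero_le h2 h

/-- The subspace of integral elements. -/
def C1 : Submodule k (Fin m → k) where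
  carrier := {c | V.valuation (L.z c) ≤ 1}
  add_mem' := by
    intro a b ha hb
    show V.valuation (L.z (a + b)) ≤ 1
    rw [map_add]
    exact (V.valuation.map_add _ _).trans (max_le ha hb)
  zero_mem' := by
    show V.valuation (L.z 0) ≤ 1
    rw [map_zero, map_zero]; exact zero_le
  smul_mem' := by
    intro a c hc
    show V.valuation (L.z (a • c)) ≤ 1
    rw [map_smul, Algebra.smul_def, map_mul]
    exact mul_le_one' (val_const_le V a) hc

theorem mem_C1 {c : Fin m → k} : c ∈ L.C1 ↔ V.valuation (L.z c) ≤ 1 := Iff.rfl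

/-- The size of `z c`. -/
noncomputable def ω (c : Fin m → k) : K :=
  open Classical in if c ∈ L.C1 then 1 else (L.z c)⁻¹

theorem ω_of_mem {c : Fin m → k} (hc : c ∈ L.C1) : L.ω c = 1 := if_pos hc

theorem ω_of_notMem {c : Fin m → k} (hc : c ∉ L.C1) : L.ω c = (L.z c)⁻¹ := if_neg hc

/-- The coordinates. -/
noncomputable def τ : Ix k I m r → K :=
  Sum.elim L.t (Sum.elim L.ω fun b => L.w b * ∏ i, L.t i ^ M)

theorem τ_inl (i : I) : L.τ (Sum.inl i) = L.t i := rfl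

theorem τ_c (c : Fin m → k) : L.τ (Sum.inr (Sum.inl c)) = L.ω c := rfl

theorem τ_w (b : Fin r) : L.τ (Sum.inr (Sum.inr b)) = L.w b * ∏ i, L.t i ^ M := rfl

theorem z_ne_zero {c : Fin m → k} (hc : c ∉ L.C1) : L.z c ≠ 0 := by
  intro h
  apply hc
  rw [mem_C1, h, map_zero]
  exact zero_le

theorem ω_ne_zero (c : Fin m → k) : L.ω c ≠ 0 := by
  by_cases hc : c ∈ L.C1
  · rw [L.ω_of_mem hc]; exact one_ne_zero
  · rw [L.ω_of_notMem hc]; exact inv_ne_zero (L.z_ne_zero hc)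

theorem prodt_ne_zero : ∏ i, L.t i ^ M ≠ 0 :=
  Finset.prod_ne_zero_iff.mpr fun i _ => pow_ne_zero _ (L.t_ne_zero i)

theorem τ_ne_zero (α : Ix k I m r) : L.τ α ≠ 0 := by
  rcases α with i | c | b
  · exact L.t_ne_zero i
  · exact L.ω_ne_zero c
  · exact mul_ne_zero (L.w0 b) L.prodt_ne_zero

include L in
theorem Nw_ne_zero (b : Fin r) : Nw b ≠ 0 := by
  intro h
  apply L.Nw0 b
  rw [h]
  exact dvd_zero p

theorem vτw (b : Fin r) : V.valuation (L.w b * ∏ i, L.t i ^ M) ≤ 1 := by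
  have h0 := L.Nw_ne_zero b
  have h1 : V.valuation ((L.w b * ∏ i, L.t i ^ M) ^ Nw b) ≤ 1 := by
    rw [mul_pow, L.KM, ← Finset.prod_pow, ← Finset.prod_mul_distrib, map_prod]
    refine Finset.prod_le_one' fun i _ => ?_
    rw [mul_assoc, map_mul]
    refine mul_le_one' (L.vy _ _) ?_
    rw [← pow_mul, ← zpow_natCast, ← zpow_add₀ (L.t_ne_zero i)]
    have h2 := (abs_le.mp (L.κM i b)).1
    have h3 : (M : ℤ) ≤ ((M * Nw b : ℕ) : ℤ) := by
      exact_mod_cast Nat.le_mul_of_pos_right _ (Nat.pos_of_ne_zero h0)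
    obtain ⟨n, hn⟩ := Int.eq_ofNat_of_zero_le (show 0 ≤ L.κ i b + ((M * Nw b : ℕ) : ℤ) by linarith)
    rw [hn, zpow_natCast, map_pow]
    exact pow_le_one' (L.vt i) n
  by_contra hcon
  rw [map_pow] at h1
  exact absurd h1 (not_le.mpr (one_lt_pow₀ (not_le.mp hcon) h0))

theorem vτ (α : Ix k I m r) : V.valuation (L.τ α) ≤ 1 := by
  rcases α with i | c | b
  · exact L.vt i
  · by_cases hc : c ∈ L.C1
    · rw [L.τ_c, L.ω_of_mem hc, map_one]
    · rw [L.τ_c, L.ω_of_notMem hc, map_inv₀]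
      exact inv_le_one_of_one_le₀ (not_le.mp hc).le
  · exact L.vτw b

/-- The exponent of `w b`. -/
def Ew (k I : Type) (m M : ℕ) {r : ℕ} (b : Fin r) : Ix k I m r → ℤ :=
  Sum.elim (fun _ => -(M : ℤ)) (Sum.elim 0 (Pi.single b 1))

variable [DecidableEq k]

theorem mon_Ew (b : Fin r) : mon L.τ (Ew k I m M b) = L.w b := by
  rw [mon, Fintype.prod_sum_type, Fintype.prod_sum_type]
  have h1 : ∏ b', L.τ (Sum.inr (Sum.inr b')) ^ (Ew k I m M b (Sum.inr (Sum.inr b'))) =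
      L.τ (Sum.inr (Sum.inr b)) := by
    rw [Finset.prod_eq_single b]
    · show L.τ (Sum.inr (Sum.inr b)) ^ ((Pi.single b 1 : Fin r → ℤ) b) = _
      rw [Pi.single_eq_same, zpow_one]
    · intro b' _ hb
      show L.τ (Sum.inr (Sum.inr b')) ^ ((Pi.single b 1 : Fin r → ℤ) b') = _
      rw [Pi.single_eq_of_ne hb, zpow_zero]
    · intro h; exact absurd (Finset.mem_univ _) h
  have h2 : ∏ i, L.τ (Sum.inl i) ^ (Ew k I m M b (Sum.inl i)) = (∏ i, L.t i ^ M)⁻¹ := by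
    rw [← Finset.prod_inv_distrib]
    refine Finset.prod_congr rfl fun i _ => ?_
    show L.t i ^ (-(M : ℤ)) = _
    rw [zpow_neg, zpow_natCast]
  have h3 : ∏ c, L.τ (Sum.inr (Sum.inl c)) ^ (Ew k I m M b (Sum.inr (Sum.inl c))) = 1 :=
    Finset.prod_eq_one fun c _ => zpow_zero _
  rw [h1, h2, h3, L.τ_w, one_mul, mul_comm, mul_assoc, mul_inv_cancel₀ L.prodt_ne_zero, mul_one]

/-- The values of the possible pivots. -/
noncomputable def psz : (Fin m → k) ⊕ I → V.ValueGroup :=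
  Sum.elim (fun b => V.valuation (L.z b)) fun i => V.valuation (L.f i)

end LData

variable {p : ℕ} [Fact p.Prime] {k : Type} [Field k] [Fintype k] {K : Type} [Field K] [Algebra k K]
  {V : ValuationSubring K} {I : Type} [Fintype I] [DecidableEq I] {m r : ℕ} {Nw : Fin r → ℕ}
  {M : ℕ}

/-- The echelon data. -/
structure EData (L : LData p k V I m r Nw M) where
  B : Finset (Fin m → k)
  a : (Fin m → k) → (Fin m → k) → k
  J : Finset ((Fin m → k) ⊕ I)
  μ : (Fin m → k) ⊕ I → Fin m → k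
  d₀ : ℕ
  d₁ : ℕ
  β : Fin d₀ ⊕ Fin d₁ → Fin m → k
  lc : (Fin m → k) → (Fin d₀ ⊕ Fin d₁) → k
  hB : ∀ b ∈ B, b ∉ L.C1
  ha : ∀ c b, a c b ≠ 0 → b ∈ B ∧ V.valuation (L.z b) ≤ V.valuation (L.z c)
  hac : ∀ c, c - ∑ b ∈ B, a c b • b ∈ L.C1
  hJB : ∀ b, Sum.inl b ∈ J → b ∈ B
  hJI : ∀ i, Sum.inr i ∈ J → L.e i ≠ 0
  hμ : ∀ j ∈ J, ell a L.γ (μ j) j = 1
  hμ0 : ∀ j ∈ J, ∀ j' ∈ J, j ≠ j' → ell a L.γ (μ j) j' = 0
  hμB : ∀ j ∈ J, ∀ b ∈ B, a (μ j) b ≠ 0 → L.psz (Sum.inl b) ≤ L.psz j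
  hμI : ∀ j ∈ J, ∀ i, L.e i ≠ 0 → μ j ⬝ᵥ L.γ i ≠ 0 → L.psz (Sum.inr i) ≤ L.psz j
  hβB : ∀ e b, a (β (Sum.inl e)) b = 0
  hβI : ∀ e i, L.e i ≠ 0 → β (Sum.inl e) ⬝ᵥ L.γ i = 0
  hβ : ∀ e, β e ∈ L.C1
  hlc : ∀ c ∈ L.C1, c = ∑ l, lc c l • β l
  card₁ : d₀ + d₁ + B.card ≤ m
  card₂ : m ≤ J.card + d₀

theorem nonempty_edata (L : LData p k V I m r Nw M) : Nonempty (EData L) := by
  classical
  obtain ⟨B, a, J, μ, d₀, d₁, β, h1, h2, h3, h4, h5, h6, h6', h7, h8, h9, h10, h11, h12, h13, h14⟩ :=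
    exists_echelon2 L.γ (Finset.univ.filter fun i => L.e i ≠ 0) L.psz L.C1
      (fun c => V.valuation (L.z c))
  choose! lc hlc using h12
  exact ⟨⟨B, a, J, μ, d₀, d₁, β, lc, h1, h2, h3, h4,
    fun i hi => (Finset.mem_filter.mp (h5 i hi)).2, h6, h6', h7,
    fun j hj i hi => h8 j hj i (Finset.mem_filter.mpr ⟨Finset.mem_univ _, hi⟩), h9,
    fun e i hi => h10 e i (Finset.mem_filter.mpr ⟨Finset.mem_univ _, hi⟩), h11, hlc, h13, h14⟩⟩

namespace EData

variable {L : LData p k V I m r Nw M} (S : EData L)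

theorem a_ne {c b : Fin m → k} (hb : b ∉ S.B) : S.a c b = 0 := by
  by_contra h
  exact hb (S.ha c b h).1

/-- The integral part. -/
noncomputable def ip (c : Fin m → k) : Fin m → k := c - ∑ b ∈ S.B, S.a c b • b

theorem ip_mem (c : Fin m → k) : S.ip c ∈ L.C1 := S.hac c

theorem z_eq (c : Fin m → k) : L.z c = ∑ b ∈ S.B, algebraMap k K (S.a c b) * L.z b + L.z (S.ip c) := by
  rw [ip, map_sub, map_sum]
  have : ∑ b ∈ S.B, L.z (S.a c b • b) = ∑ b ∈ S.B, algebraMap k K (S.a c b) * L.z b :=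
    Finset.sum_congr rfl fun b _ => by rw [map_smul, Algebra.smul_def]
  rw [this]; ring

/-- The bound for the power. -/
theorem vpow_le {d : Fin m → k} {δ : V.ValueGroup} (h1 : 1 ≤ δ)
    (hB : ∀ b ∈ S.B, S.a d b ≠ 0 → V.valuation (L.z b) ≤ δ)
    (hI : ∀ i, L.e i ≠ 0 → d ⬝ᵥ L.γ i ≠ 0 → V.valuation (L.f i) ≤ δ) :
    V.valuation (L.z (L.rt d) ^ p) ≤ δ := by
  have h2 : L.z (L.rt d) ^ p = (L.z (L.rt d) ^ p - L.z d) + L.z d := by ring
  rw [h2, L.AS, S.z_eq d]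
  refine (V.valuation.map_add _ _).trans (max_le ?_ ((V.valuation.map_add _ _).trans (max_le ?_ ?_)))
  · refine Valuation.map_sum_le _ fun i _ => (V.valuation.map_add _ _).trans (max_le ?_ ?_)
    · by_cases he : L.e i = 0
      · rw [L.inact i he, dotProduct_zero, map_zero, zero_mul, map_zero]
        exact zero_le
      · by_cases hi : d ⬝ᵥ L.γ i = 0
        · rw [hi, map_zero, zero_mul, map_zero]
          exact zero_le
        · rw [map_mul]
          calc V.valuation (algebraMap k K (d ⬝ᵥ L.γ i)) * V.valuation (L.f i) ≤ 1 * δ :=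
                mul_le_mul' (val_const_le V _) (hI i he hi)
            _ = δ := one_mul _
    · refine Valuation.map_sum_le _ fun a _ => ?_
      rw [map_mul]
      exact (mul_le_one' (val_const_le V _) (L.vy _ _)).trans h1
  · refine Valuation.map_sum_le _ fun b hb => ?_
    by_cases hab : S.a d b = 0
    · rw [hab, map_zero, zero_mul, map_zero]
      exact zero_le
    · rw [map_mul]
      calc V.valuation (algebraMap k K (S.a d b)) * V.valuation (L.z b) ≤ 1 * δ :=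
            mul_le_mul' (val_const_le V _) (hB b hb hab)
        _ = δ := one_mul _
  · exact (S.ip_mem d).trans h1

theorem rt_mem {d : Fin m → k} (hB : ∀ b ∈ S.B, S.a d b = 0)
    (hI : ∀ i, L.e i ≠ 0 → d ⬝ᵥ L.γ i = 0) : L.rt d ∈ L.C1 := by
  have h1 := S.vpow_le (d := d) (δ := 1) le_rfl (fun b hb h => absurd (hB b hb) h)
    (fun i hi h => absurd (hI i hi) h)
  by_contra hcon
  rw [map_pow] at h1
  exact absurd h1 (not_le.mpr (one_lt_pow₀ (not_le.mp hcon) (Fact.out : p.Prime).ne_zero))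

/-- The values of the pivots. -/
theorem psz_gt {j : (Fin m → k) ⊕ I} (hj : j ∈ S.J) : 1 < L.psz j := by
  rcases j with b | i
  · exact not_le.mp (S.hB b (S.hJB b hj))
  · exact L.vf_act_gt (S.hJI i hj)

end EData

end Pool.Agent.H96.W2
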