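import Pool.Agent.H96.W2.LocB

/-!
# The differentials of the relations
-/

set_option autoImplicit false
set_option linter.unusedSectionVars false

namespace Pool.Agent.H96.W2

open MvPolynomial IsLocalRing Pool.Agent.H96.Reg Pool.Agent.H96.VL Pool.Agent.H96.W

variable {p : ℕ} [Fact p.Prime] {k : Type} [Field k] [Fintype k] [DecidableEq k] {K : Type}
  [Field K] [Algebra k K] {V : ValuationSubring K} {I : Type} [Fintype I] [DecidableEq I] {m r : ℕ}
  {Nw : Fin r → ℕ} {M M' : ℕ} {L : LData p k V I m r Nw M}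

/-- The chart. -/
structure Ctx (L : LData p k V I m r Nw M) (M' : ℕ) (C : Cone (Ix k I m r)) : Prop where
  hC : IsCone C
  hb : ∀ j, V.valuation (mon L.τ (C.b j)) ≤ 1
  hS : ∀ u ∈ BX (Ix k I m r) M', ∀ u' ∈ BX (Ix k I m r) M', Sgn C (u - u')
  hM : M ≤ M'
  hp : p ≤ M'
  hN : ∀ b, Nw b ≤ M' ∧ Nw b * M ≤ M'

section Mem

variable {S : EData L} {C : Cone (Ix k I m r)}

theorem Ctx.one_le (h : Ctx L M' C) : 1 ≤ M' := (Fact.out : p.Prime).one_le.trans h.hp

theorem xI_mem (h : Ctx L M' C) (i : I) (s : Tm k I m) : S.xI i s ∈ BX (Ix k I m r) M' := by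
  rcases s with s | _ | _
  · exact zero_mem_BX
  · exact zero_mem_BX
  · exact single_one_mem_BX _ h.one_le

theorem xC_mem (h : Ctx L M' C) (c : Fin m → k) (s : Tm k I m) :
    S.xC c s ∈ BX (Ix k I m r) M' := by
  classical
  rw [EData.xC]
  split_ifs with hc
  · rcases s with s | _ | _
    · exact zero_mem_BX
    · exact zero_mem_BX
    · exact single_one_mem_BX _ h.one_le
  · rcases s with (s | s) | _ | _
    · exact zero_mem_BX
    · exact neg_mem_BX (single_one_mem_BX _ h.one_le)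
    · exact zero_mem_BX
    · exact neg_mem_BX (single_one_mem_BX _ h.one_le)

theorem xJ_mem (h : Ctx L M' C) (d : Fin m → k) (s : Tm k I m) :
    S.xJ d s ∈ BX (Ix k I m r) M' := by
  rcases s with (i | s) | _ | _
  · exact neg_mem_BX (single_mem_BX _ ((L.eM i).trans h.hM))
  · exact neg_mem_BX (single_one_mem_BX _ h.one_le)
  · exact zero_mem_BX
  · exact neg_mem_BX (single_mem_BX _ h.hp)

theorem xW_mem (h : Ctx L M' C) (b : Fin r) (s : Tm k I m) :
    S.xW b s ∈ BX (Ix k I m r) M' := by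
  rcases s with s | _ | _
  · exact zero_mem_BX
  · rw [mem_BX]
    rintro (i | c)
    · exact (L.κM i b).trans (by exact_mod_cast h.hM)
    · show |(0 : ℤ)| ≤ _
      rw [abs_zero]; positivity
  · rw [mem_BX]
    obtain ⟨h1, h2⟩ := h.hN b
    rintro (i | c | b')
    · show |(Nw b : ℤ) * (-(M : ℤ))| ≤ _
      rw [mul_neg, abs_neg, ← Nat.cast_mul, Nat.abs_cast]
      exact_mod_cast h2
    · show |(Nw b : ℤ) * 0| ≤ _
      rw [mul_zero, abs_zero]; positivity
    · show |(Nw b : ℤ) * (Pi.single b 1 : Fin r → ℤ) b'| ≤ _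
      rw [Pi.single_apply]
      split_ifs
      · rw [mul_one, Nat.abs_cast]
        exact_mod_cast h1
      · rw [mul_zero, abs_zero]; positivity

end Mem

variable [CharP k p] [Algebra k (ResidueField V)] {C : Cone (Ix k I m r)}
  {S : EData L}

theorem natCast_p (k : Type) [Field k] (V : ValuationSubring K) [CharP k p]
    [Algebra k (ResidueField V)] : (p : ResidueField V) = 0 := by
  have h1 : algebraMap k (ResidueField V) (p : k) = 0 := by
    rw [CharP.cast_eq_zero, map_zero]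
  rwa [map_natCast] at h1

theorem natCast_ne (k : Type) [Field k] (V : ValuationSubring K) [CharP k p]
    [Algebra k (ResidueField V)] {n : ℕ} (hn : ¬ p ∣ n) : (n : ResidueField V) ≠ 0 := by
  have hc : CharP (ResidueField V) p :=
    charP_of_injective_algebraMap (algebraMap k (ResidueField V)).injective p
  rwa [Ne, CharP.cast_eq_zero_iff (ResidueField V) p]

section RI

theorem LL_I_one (h : Ctx L M' C) {i : I} (ht : L.t i = 1) :
    LL V L.τ S.Y C (S.cI i) (S.xI i) (Sum.inl i) ≠ 0 := by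
  classical
  refine LL_ne_zero (Sum.inr true) ?_ ?_ ?_ ?_
  · rintro (s | _ | _) hs
    · exact Or.inl rfl
    · right; right
      show (((0 : ℤ)) : ResidueField V) = 0
      rw [Int.cast_zero]
    · exact absurd rfl hs
  · show aeval _ (1 : MvPolynomial S.υ k) ≠ 0
    rw [map_one]; exact one_ne_zero
  · refine ee_ne_zero L.τ_ne_zero h.hC h.hb
      (fun s _ s' _ => h.hS _ (xI_mem h i s) _ (xI_mem h i s'))
      (show S.cI i (Sum.inr true) ≠ 0 from one_ne_zero) ?_
    rintro (s | _ | _) hs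
    · exact absurd rfl hs
    · show V.valuation (mon L.τ 0) ≤ V.valuation (mon L.τ (Pi.single (Sum.inl i) 1))
      rw [mon_zero, mon_single, L.τ_inl, ht]
    · exact le_rfl
  · show (((Pi.single (Sum.inl i) 1 : Ix k I m r → ℤ) (Sum.inl i) : ℤ) :
      ResidueField V) ≠ 0
    rw [Pi.single_eq_same, Int.cast_one]
    exact one_ne_zero

theorem LL_I_of_ne {i : I} {α : Ix k I m r} (hα : α ≠ Sum.inl i) :
    LL V L.τ S.Y C (S.cI i) (S.xI i) α = 0 := by
  apply LL_eq_zero
  rintro (s | _ | _)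
  · exact Or.inl rfl
  · right; right
    show (((0 : ℤ)) : ResidueField V) = 0
    rw [Int.cast_zero]
  · right; right
    show (((Pi.single (Sum.inl i) 1 : Ix k I m r → ℤ) α : ℤ) : ResidueField V) = 0
    rw [Pi.single_eq_of_ne hα, Int.cast_zero]

theorem cI_false_ne (i : I) : S.cI i (Sum.inr false) ≠ 0 := by
  classical
  show (if L.t i = 1 then -1 else -X (Sum.inl ⟨i, L.l i⟩) : MvPolynomial S.υ k) ≠ 0
  split_ifs
  · exact neg_ne_zero.mpr one_ne_zero
  · exact neg_ne_zero.mpr (X_ne_zero _)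

theorem vt_lt {i : I} (ht : L.t i ≠ 1) : V.valuation (L.t i) < 1 := by
  rcases L.t1 i with h1 | ⟨h1, -, -⟩
  · exact absurd h1 ht
  · exact h1

theorem LL_I_unif (h : Ctx L M' C) {i : I} (ht : L.t i ≠ 1) (α : Ix k I m r) :
    LL V L.τ S.Y C (S.cI i) (S.xI i) α = 0 := by
  apply LL_eq_zero
  rintro (s | _ | _)
  · exact Or.inl rfl
  · right; right
    show (((0 : ℤ)) : ResidueField V) = 0
    rw [Int.cast_zero]
  · right; left
    refine ee_eq_zero L.τ_ne_zero h.hC h.hb
      (fun s _ s' _ => h.hS _ (xI_mem h i s) _ (xI_mem h i s'))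
      (show S.cI i (Sum.inr true) ≠ 0 from one_ne_zero) (cI_false_ne i) ?_
    show V.valuation (mon L.τ (Pi.single (Sum.inl i) 1)) < V.valuation (mon L.τ 0)
    rw [mon_zero, mon_single, L.τ_inl, map_one]
    exact vt_lt ht

theorem TT_I_one {i : I} (ht : L.t i = 1) (l : S.υ) :
    TT V L.τ S.Y C (S.cI i) (S.xI i) l = 0 := by
  classical
  apply TT_eq_zero
  rintro (s | _ | _)
  · exact map_zero _
  · show pderiv l (if L.t i = 1 then -1 else -X (Sum.inl ⟨i, L.l i⟩) : MvPolynomial S.υ k) = 0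
    rw [if_pos ht, map_neg, ← MvPolynomial.C_1, pderiv_C, neg_zero]
  · show pderiv l (1 : MvPolynomial S.υ k) = 0
    rw [← MvPolynomial.C_1, pderiv_C]

theorem TT_I_unif (h : Ctx L M' C) {i : I} (ht : L.t i ≠ 1) : ∃ w : ResidueField V, w ≠ 0 ∧
    ∀ l, TT V L.τ S.Y C (S.cI i) (S.xI i) l = if l = Sum.inl ⟨i, L.l i⟩ then w else 0 := by
  classical
  refine ⟨-ee V L.τ C (mrel C (S.cI i) (S.xI i)) (Sum.inr false), neg_ne_zero.mpr ?_, fun l => ?_⟩
  · refine ee_ne_zero L.τ_ne_zero h.hC h.hb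
      (fun s _ s' _ => h.hS _ (xI_mem h i s) _ (xI_mem h i s'))
      (cI_false_ne i) ?_
    rintro (s | _ | _) hs
    · exact absurd rfl hs
    · exact le_rfl
    · show V.valuation (mon L.τ (Pi.single (Sum.inl i) 1)) ≤ V.valuation (mon L.τ 0)
      rw [mon_zero, mon_single, L.τ_inl, map_one]
      exact (vt_lt ht).le
  · rw [TT_eq_single (Sum.inr false)]
    · have h1 : S.cI i (Sum.inr false) = -X (Sum.inl ⟨i, L.l i⟩) := if_neg ht
      rw [h1, map_neg, pderiv_X, Pi.single_apply]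
      by_cases hl : l = Sum.inl ⟨i, L.l i⟩
      · rw [if_pos hl.symm, if_pos hl, map_neg, map_one, neg_one_mul]
      · rw [if_neg (Ne.symm hl), if_neg hl, neg_zero, map_zero, zero_mul]
    · rintro (s | _ | _) hs
      · exact map_zero _
      · exact absurd rfl hs
      · show pderiv l (1 : MvPolynomial S.υ k) = 0
        rw [← MvPolynomial.C_1, pderiv_C]

end RI

section RG

theorem LL_zero (c : Tm k I m → MvPolynomial S.υ k) (α : Ix k I m r) :
    LL V L.τ S.Y C c 0 α = 0 := by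
  apply LL_eq_zero
  intro s
  right; right
  show (((0 : ℤ)) : ResidueField V) = 0
  rw [Int.cast_zero]

/-- Relations with a single term. -/
theorem TT_false {c : Tm k I m → MvPolynomial S.υ k}
    (hc : ∀ s, s ≠ Sum.inr false → c s = 0) (l : S.υ) :
    TT V L.τ S.Y C c 0 l = aeval (fun l => resv V (S.Y l)) (pderiv l (c (Sum.inr false))) := by
  classical
  rw [TT_eq_single (Sum.inr false)]
  · by_cases h2 : c (Sum.inr false) = 0
    · rw [h2, map_zero, map_zero, zero_mul]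
    · have he : ee V L.τ C (mrel C c 0) (Sum.inr false) = 1 := ee_eq_one (fun s _ => rfl) h2
      rw [he, mul_one]
  · intro s hs
    rw [hc s hs, map_zero]

theorem TT_G (i : I) (j : Fin (L.n i)) (l : S.υ) :
    TT V L.τ S.Y C (S.cG i j) 0 l = aeval (fun l => resv V (S.Y l))
      (pderiv l (rename (fun b => Sum.inl ⟨i, b⟩) (L.G i j.succ) : MvPolynomial S.υ k)) := by
  refine TT_false ?_ l
  rintro (s | _ | _) hs
  · rfl
  · exact absurd rfl hs
  · rfl

theorem TT_G_same (i : I) (j : Fin (L.n i)) (b : Fin (L.n i + 1)) :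
    TT V L.τ S.Y C (S.cG i j) 0 (Sum.inl ⟨i, b⟩ : S.υ) =
      aeval (fun b => resv V (L.y i b)) (pderiv b (L.G i j.succ)) := by
  have hinj : Function.Injective (fun b : Fin (L.n i + 1) => (Sum.inl ⟨i, b⟩ : S.υ)) := by
    intro b b' hbb
    simpa using hbb
  have h1 := pderiv_rename hinj b (L.G i j.succ)
  rw [TT_G]
  have h2 : pderiv (Sum.inl ⟨i, b⟩ : S.υ) (rename (fun b => Sum.inl ⟨i, b⟩) (L.G i j.succ)) =
      rename (fun b => Sum.inl ⟨i, b⟩) (pderiv b (L.G i j.succ)) := h1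
  rw [h2, aeval_rename]
  rfl

theorem TT_G_of_notMem (i : I) (j : Fin (L.n i)) (l : S.υ) (hl : ∀ b, l ≠ Sum.inl ⟨i, b⟩) :
    TT V L.τ S.Y C (S.cG i j) 0 l = 0 := by
  rw [TT_G, pderiv_eq_zero_of_notMem_vars, map_zero]
  intro h
  obtain ⟨b, -, hb⟩ := mem_vars_rename _ _ h
  exact hl b hb.symm

end RG

section RC

theorem LL_C_mem (h : Ctx L M' C) {c : Fin m → k} (hc : c ∈ L.C1) :
    LL V L.τ S.Y C (S.cC c) (S.xC c) (Sum.inr (Sum.inl c)) ≠ 0 := by
  classical
  have hcc : S.cC c = Sum.elim (fun _ => 0) fun b => cond b 1 (-1) := if_pos hc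
  have hxc : S.xC c = Sum.elim (fun _ => 0) fun b => cond b (Pi.single (Sum.inr (Sum.inl c)) 1) 0 :=
    if_pos hc
  refine LL_ne_zero (Sum.inr true) ?_ ?_ ?_ ?_
  · rintro (s | _ | _) hs
    · left; rw [hcc]; rfl
    · right; right
      rw [hxc]
      show (((0 : ℤ)) : ResidueField V) = 0
      rw [Int.cast_zero]
    · exact absurd rfl hs
  · rw [hcc]
    show aeval _ (1 : MvPolynomial S.υ k) ≠ 0
    rw [map_one]; exact one_ne_zero
  · refine ee_ne_zero L.τ_ne_zero h.hC h.hb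
      (fun s _ s' _ => h.hS _ (xC_mem h c s) _ (xC_mem h c s'))
      (by rw [hcc]; exact one_ne_zero) ?_
    intro s hs
    rw [hcc] at hs
    rw [hxc]
    rcases s with s | _ | _
    · exact absurd rfl hs
    · show V.valuation (mon L.τ 0) ≤ V.valuation (mon L.τ (Pi.single (Sum.inr (Sum.inl c)) 1))
      rw [mon_zero, mon_single, L.τ_c, L.ω_of_mem hc]
    · exact le_rfl
  · rw [hxc]
    show (((Pi.single (Sum.inr (Sum.inl c)) 1 : Ix k I m r → ℤ) (Sum.inr (Sum.inl c)) : ℤ) :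
      ResidueField V) ≠ 0
    rw [Pi.single_eq_same, Int.cast_one]
    exact one_ne_zero

theorem LL_C_mem_of_ne {c : Fin m → k} (hc : c ∈ L.C1) {α : Ix k I m r}
    (hα : α ≠ Sum.inr (Sum.inl c)) : LL V L.τ S.Y C (S.cC c) (S.xC c) α = 0 := by
  classical
  have hcc : S.cC c = Sum.elim (fun _ => 0) fun b => cond b 1 (-1) := if_pos hc
  have hxc : S.xC c = Sum.elim (fun _ => 0) fun b => cond b (Pi.single (Sum.inr (Sum.inl c)) 1) 0 :=
    if_pos hc
  apply LL_eq_zero
  rw [hxc]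
  rintro (s | _ | _)
  · left; rw [hcc]; rfl
  · right; right
    show (((0 : ℤ)) : ResidueField V) = 0
    rw [Int.cast_zero]
  · right; right
    show (((Pi.single (Sum.inr (Sum.inl c)) 1 : Ix k I m r → ℤ) α : ℤ) : ResidueField V) = 0
    rw [Pi.single_eq_of_ne hα, Int.cast_zero]

theorem LL_C_pole (h : Ctx L M' C) {c : Fin m → k} (hc : c ∉ L.C1) (hcB : c ∉ S.B) :
    LL V L.τ S.Y C (S.cC c) (S.xC c) (Sum.inr (Sum.inl c)) ≠ 0 := by
  classical
  have hcc : S.cC c = Sum.elim (Sum.elim (fun _ => 0) fun b => -MvPolynomial.C (S.a c b)) fun b =>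
      cond b 1 (-S.lin (S.ip c)) := if_neg hc
  have hxc : S.xC c = Sum.elim (Sum.elim (fun _ => 0) fun b => -Pi.single (Sum.inr (Sum.inl b)) 1)
      fun b => cond b (-Pi.single (Sum.inr (Sum.inl c)) 1) 0 := if_neg hc
  refine LL_ne_zero (Sum.inr true) ?_ ?_ ?_ ?_
  · rintro ((s | b) | _ | _) hs
    · left; rw [hcc]; rfl
    · by_cases hb : b = c
      · left
        rw [hcc]
        show (-MvPolynomial.C (S.a c b) : MvPolynomial S.υ k) = 0
        rw [hb, S.a_ne hcB, map_zero, neg_zero]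
      · right; right
        rw [hxc]
        show (((-Pi.single (Sum.inr (Sum.inl b)) 1 : Ix k I m r → ℤ) (Sum.inr (Sum.inl c)) : ℤ) :
          ResidueField V) = 0
        rw [Pi.neg_apply, Pi.single_eq_of_ne (by
          intro h'
          exact hb (Sum.inl_injective (Sum.inr_injective h')).symm), neg_zero, Int.cast_zero]
    · right; right
      rw [hxc]
      show (((0 : ℤ)) : ResidueField V) = 0
      rw [Int.cast_zero]
    · exact absurd rfl hs
  · rw [hcc]
    show aeval _ (1 : MvPolynomial S.υ k) ≠ 0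
    rw [map_one]; exact one_ne_zero
  · refine ee_ne_zero L.τ_ne_zero h.hC h.hb
      (fun s _ s' _ => h.hS _ (xC_mem h c s) _ (xC_mem h c s'))
      (by rw [hcc]; exact one_ne_zero) ?_
    intro s hs
    rw [hcc] at hs
    rw [hxc]
    rcases s with (s | b) | _ | _
    · exact absurd rfl hs
    · have hs' : (-MvPolynomial.C (S.a c b) : MvPolynomial S.υ k) ≠ 0 := hs
      have hab : S.a c b ≠ 0 := by
        intro h0
        rw [h0, map_zero, neg_zero] at hs'
        exact hs' rfl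
      obtain ⟨hbB, hle⟩ := S.ha c b hab
      show V.valuation (mon L.τ (-Pi.single (Sum.inr (Sum.inl b)) 1)) ≤
        V.valuation (mon L.τ (-Pi.single (Sum.inr (Sum.inl c)) 1))
      rw [mon_neg_single, mon_neg_single, L.τ_c, L.τ_c, L.ω_of_notMem hc,
        L.ω_of_notMem (S.hB b hbB), inv_inv, inv_inv]
      exact hle
    · show V.valuation (mon L.τ 0) ≤ V.valuation (mon L.τ (-Pi.single (Sum.inr (Sum.inl c)) 1))
      rw [mon_zero, mon_neg_single, L.τ_c, L.ω_of_notMem hc, inv_inv, map_one]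
      exact (not_le.mp hc).le
    · exact le_rfl
  · rw [hxc]
    show (((-Pi.single (Sum.inr (Sum.inl c)) 1 : Ix k I m r → ℤ) (Sum.inr (Sum.inl c)) : ℤ) :
      ResidueField V) ≠ 0
    rw [Pi.neg_apply, Pi.single_eq_same, Int.cast_neg, Int.cast_one]
    exact neg_ne_zero.mpr one_ne_zero

theorem LL_C_pole_of_ne {c : Fin m → k} (hc : c ∉ L.C1) {α : Ix k I m r}
    (hα : ∀ b ∈ S.B, α ≠ Sum.inr (Sum.inl b)) (hne : α ≠ Sum.inr (Sum.inl c)) :
    LL V L.τ S.Y C (S.cC c) (S.xC c) α = 0 := by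
  classical
  have hcc : S.cC c = Sum.elim (Sum.elim (fun _ => 0) fun b => -MvPolynomial.C (S.a c b)) fun b =>
      cond b 1 (-S.lin (S.ip c)) := if_neg hc
  have hxc : S.xC c = Sum.elim (Sum.elim (fun _ => 0) fun b => -Pi.single (Sum.inr (Sum.inl b)) 1)
      fun b => cond b (-Pi.single (Sum.inr (Sum.inl c)) 1) 0 := if_neg hc
  apply LL_eq_zero
  rintro ((s | b) | _ | _)
  · left; rw [hcc]; rfl
  · by_cases hb : b ∈ S.B
    · right; right
      rw [hxc]
      show (((-Pi.single (Sum.inr (Sum.inl b)) 1 : Ix k I m r → ℤ) α : ℤ) : ResidueField V) = 0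
      rw [Pi.neg_apply, Pi.single_eq_of_ne (hα b hb), neg_zero, Int.cast_zero]
    · left
      rw [hcc]
      show (-MvPolynomial.C (S.a c b) : MvPolynomial S.υ k) = 0
      rw [S.a_ne hb, map_zero, neg_zero]
  · right; right
    rw [hxc]
    show (((0 : ℤ)) : ResidueField V) = 0
    rw [Int.cast_zero]
  · right; right
    rw [hxc]
    show (((-Pi.single (Sum.inr (Sum.inl c)) 1 : Ix k I m r → ℤ) α : ℤ) : ResidueField V) = 0
    rw [Pi.neg_apply, Pi.single_eq_of_ne hne, neg_zero, Int.cast_zero]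

end RC

section RJ

theorem cJ_inl (d : Fin m → k) (i : I) : S.cJ d (Sum.inl (Sum.inl i)) =
    -(MvPolynomial.C (d ⬝ᵥ L.γ i) * X (Sum.inl ⟨i, L.u i⟩)) := rfl

theorem cJ_inr (d : Fin m → k) (b : Fin m → k) : S.cJ d (Sum.inl (Sum.inr b)) =
    -MvPolynomial.C (S.a d b) := rfl

theorem cJ_inl_ne {d : Fin m → k} {i : I} (h : S.cJ d (Sum.inl (Sum.inl i)) ≠ 0) :
    d ⬝ᵥ L.γ i ≠ 0 := by
  intro h0
  apply h
  rw [cJ_inl, h0, map_zero, zero_mul, neg_zero]

theorem cJ_inr_ne {d b : Fin m → k} (h : S.cJ d (Sum.inl (Sum.inr b)) ≠ 0) : S.a d b ≠ 0 := by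
  intro h0
  apply h
  rw [cJ_inr, h0, map_zero, neg_zero]

theorem cJ_true {d : Fin m → k} (h : S.cJ d (Sum.inr true) ≠ 0) : L.rt d ∉ L.C1 := by
  classical
  by_contra hcon
  apply h
  exact if_neg (not_not.mpr hcon)

theorem mon_J_inl (i : I) : V.valuation (mon L.τ (-((L.e i : ℤ) • (Pi.single (Sum.inl i) 1 :
    Ix k I m r → ℤ)))) = V.valuation ((L.t i ^ L.e i)⁻¹) := by
  rw [mon_neg_smul, L.τ_inl]

/-- The column of a pivot. -/
def pc (j : (Fin m → k) ⊕ I) : Ix k I m r := Sum.elim (fun b => Sum.inr (Sum.inl b)) Sum.inl j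

theorem pc_injective : Function.Injective (pc : (Fin m → k) ⊕ I → Ix k I m r) := by
  rintro (b | i) (b' | i') h
  · have := Sum.inl_injective (Sum.inr_injective h)
    rw [this]
  · exact absurd h Sum.inr_ne_inl
  · exact absurd h Sum.inl_ne_inr
  · have := Sum.inl_injective h
    rw [this]

/-- The terms of a relation which have a nonzero exponent in a column. -/
theorem J_col {d : Fin m → k} {α : Ix k I m r} (s : Tm k I m)
    (hI : ∀ i, s = Sum.inl (Sum.inl i) → α = Sum.inl i → L.e i ≠ 0 → d ⬝ᵥ L.γ i = 0)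
    (hB : ∀ b, s = Sum.inl (Sum.inr b) → α = Sum.inr (Sum.inl b) → S.a d b = 0) :
    S.cJ d s = 0 ∨ ((S.xJ d s α : ℤ) : ResidueField V) = 0 := by
  classical
  rcases s with (i | b) | _ | _
  · by_cases hα : α = Sum.inl i
    · by_cases he : L.e i = 0
      · right
        show (((-((L.e i : ℤ) • Pi.single (Sum.inl i) 1) : Ix k I m r → ℤ) α : ℤ) :
          ResidueField V) = 0
        rw [he, Nat.cast_zero, zero_smul, neg_zero, Pi.zero_apply, Int.cast_zero]
      · left
        rw [cJ_inl, hI i rfl hα he, map_zero, zero_mul, neg_zero]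
    · right
      show (((-((L.e i : ℤ) • Pi.single (Sum.inl i) 1) : Ix k I m r → ℤ) α : ℤ) :
        ResidueField V) = 0
      rw [Pi.neg_apply, Pi.smul_apply, Pi.single_eq_of_ne hα, smul_zero, neg_zero, Int.cast_zero]
  · by_cases hα : α = Sum.inr (Sum.inl b)
    · left
      rw [cJ_inr, hB b rfl hα, map_zero, neg_zero]
    · right
      show (((-Pi.single (Sum.inr (Sum.inl b)) 1 : Ix k I m r → ℤ) α : ℤ) : ResidueField V) = 0
      rw [Pi.neg_apply, Pi.single_eq_of_ne hα, neg_zero, Int.cast_zero]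
  · right
    show (((0 : ℤ)) : ResidueField V) = 0
    rw [Int.cast_zero]
  · right
    show (((-((p : ℤ) • Pi.single (Sum.inr (Sum.inl (L.rt d))) 1) : Ix k I m r → ℤ) α : ℤ) :
      ResidueField V) = 0
    rw [Pi.neg_apply, Pi.smul_apply, smul_eq_mul, Int.cast_neg, Int.cast_mul, Int.cast_natCast,
      natCast_p k V, zero_mul, neg_zero]

theorem LL_J_zero {d : Fin m → k} {α : Ix k I m r}
    (hI : ∀ i, α = Sum.inl i → L.e i ≠ 0 → d ⬝ᵥ L.γ i = 0)
    (hB : ∀ b, α = Sum.inr (Sum.inl b) → S.a d b = 0) :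
    LL V L.τ S.Y C (S.cJ d) (S.xJ d) α = 0 := by
  apply LL_eq_zero
  intro s
  rcases J_col (S := S) (d := d) (α := α) s (fun i _ h => hI i h) (fun b _ h => hB b h) with h | h
  · exact Or.inl h
  · exact Or.inr (Or.inr h)

/-- The term of a pivot. -/
def pt (j : (Fin m → k) ⊕ I) : Tm k I m := Sum.inl (Sum.elim Sum.inr Sum.inl j)

theorem pt_inr (i : I) : (pt (Sum.inr i) : Tm k I m) = Sum.inl (Sum.inl i) := rfl

theorem pt_inl (b : Fin m → k) : (pt (Sum.inl b) : Tm k I m) = Sum.inl (Sum.inr b) := rfl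

theorem pc_inr (i : I) : (pc (Sum.inr i) : Ix k I m r) = Sum.inl i := rfl

theorem pc_inl (b : Fin m → k) : (pc (Sum.inl b) : Ix k I m r) = Sum.inr (Sum.inl b) := rfl

theorem val_pt (j : (Fin m → k) ⊕ I) (hj : j ∈ S.J) (d : Fin m → k) :
    V.valuation (mon L.τ (S.xJ d (pt j))) = L.psz j := by
  rcases j with b | i
  · show V.valuation (mon L.τ (-Pi.single (Sum.inr (Sum.inl b)) 1)) = _
    rw [mon_neg_single, L.τ_c, L.ω_of_notMem (S.hB b (S.hJB b hj)), inv_inv]
    rfl
  · show V.valuation (mon L.τ (-((L.e i : ℤ) • Pi.single (Sum.inl i) 1))) = _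
    rw [mon_J_inl, ← L.vf_act (S.hJI i hj)]
    rfl

theorem LL_J_self (h : Ctx L M' C) {j : (Fin m → k) ⊕ I} (hj : j ∈ S.J) :
    LL V L.τ S.Y C (S.cJ (S.μ j)) (S.xJ (S.μ j)) (pc j) ≠ 0 := by
  classical
  have hbdB : ∀ b ∈ S.B, S.a (S.μ j) b ≠ 0 → V.valuation (L.z b) ≤ L.psz j := S.hμB j hj
  have hbdI : ∀ i, L.e i ≠ 0 → S.μ j ⬝ᵥ L.γ i ≠ 0 → V.valuation (L.f i) ≤ L.psz j := S.hμI j hj
  have hgt := S.psz_gt hj
  have hpow := S.vpow_le (d := S.μ j) hgt.le hbdB hbdI
  have hμj := S.hμ j hj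
  have hne : S.cJ (S.μ j) (pt j) ≠ 0 ∧
      aeval (fun l => resv V (S.Y l)) (S.cJ (S.μ j) (pt j)) ≠ 0 ∧
      ((S.xJ (S.μ j) (pt j) (pc j) : ℤ) : ResidueField V) ≠ 0 := by
    rcases j with b | i
    · have h1 : S.a (S.μ (Sum.inl b)) b = 1 := hμj
      rw [pt_inl, pc_inl, cJ_inr, h1, map_one]
      refine ⟨neg_ne_zero.mpr one_ne_zero, ?_, ?_⟩
      · rw [map_neg, map_one]; exact neg_ne_zero.mpr one_ne_zero
      · show (((-Pi.single (Sum.inr (Sum.inl b)) 1 : Ix k I m r → ℤ) (Sum.inr (Sum.inl b)) : ℤ) :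
          ResidueField V) ≠ 0
        rw [Pi.neg_apply, Pi.single_eq_same, Int.cast_neg, Int.cast_one]
        exact neg_ne_zero.mpr one_ne_zero
    · have h1 : S.μ (Sum.inr i) ⬝ᵥ L.γ i = 1 := hμj
      have hei := S.hJI i hj
      obtain ⟨hpe, hvu, -⟩ := L.act i hei
      rw [pt_inr, pc_inr, cJ_inl, h1, map_one, one_mul]
      refine ⟨neg_ne_zero.mpr (X_ne_zero _), ?_, ?_⟩
      · have h3 : resv V (S.Y (Sum.inl ⟨i, L.u i⟩)) ≠ 0 :=
          (resv_ne_zero_iff (S.vY (Sum.inl ⟨i, L.u i⟩))).mpr hvu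
        rw [map_neg, aeval_X]
        exact neg_ne_zero.mpr h3
      · show (((-((L.e i : ℤ) • Pi.single (Sum.inl i) 1) : Ix k I m r → ℤ) (Sum.inl i) : ℤ) :
          ResidueField V) ≠ 0
        rw [Pi.neg_apply, Pi.smul_apply, Pi.single_eq_same, smul_eq_mul, mul_one, Int.cast_neg,
          Int.cast_natCast]
        exact neg_ne_zero.mpr (natCast_ne k V hpe)
  refine LL_ne_zero (pt j) ?_ hne.2.1 ?_ hne.2.2
  · intro s hs
    have hcol := J_col (S := S) (d := S.μ j) (α := pc j) s (fun i h1 h2 => by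
      exfalso
      apply hs
      rw [h1]
      have h3 : pc j = (pc (Sum.inr i) : Ix k I m r) := h2
      rw [pc_injective h3]
      rfl) (fun b h1 h2 => by
      exfalso
      apply hs
      rw [h1]
      have h3 : pc j = (pc (Sum.inl b) : Ix k I m r) := h2
      rw [pc_injective h3]
      rfl)
    rcases hcol with h3 | h3
    · exact Or.inl h3
    · exact Or.inr (Or.inr h3)
  · refine ee_ne_zero L.τ_ne_zero h.hC h.hb
      (fun s _ s' _ => h.hS _ (xJ_mem h _ s) _ (xJ_mem h _ s')) hne.1 ?_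
    intro s hs
    have hvp := val_pt j hj (S.μ j)
    rw [hvp]
    rcases s with (i | b) | _ | _
    · show V.valuation (mon L.τ (-((L.e i : ℤ) • Pi.single (Sum.inl i) 1))) ≤ _
      by_cases hei : L.e i = 0
      · rw [hei, Nat.cast_zero, zero_smul, neg_zero, mon_zero, map_one]
        exact hgt.le
      · rw [mon_J_inl, ← L.vf_act hei]
        exact hbdI i hei (cJ_inl_ne hs)
    · have hab := cJ_inr_ne hs
      obtain ⟨hbB, -⟩ := S.ha _ b hab
      show V.valuation (mon L.τ (-Pi.single (Sum.inr (Sum.inl b)) 1)) ≤ _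
      rw [mon_neg_single, L.τ_c, L.ω_of_notMem (S.hB b hbB), inv_inv]
      exact hbdB b hbB hab
    · show V.valuation (mon L.τ 0) ≤ _
      rw [mon_zero, map_one]
      exact hgt.le
    · have h2 := cJ_true hs
      show V.valuation (mon L.τ (-((p : ℤ) • Pi.single (Sum.inr (Sum.inl (L.rt (S.μ j)))) 1))) ≤ _
      rw [mon_neg_smul, L.τ_c, L.ω_of_notMem h2, inv_pow, inv_inv]
      exact hpow

theorem LL_J_of_ne {j j' : (Fin m → k) ⊕ I} (hj : j ∈ S.J) (hj' : j' ∈ S.J) (hne : j ≠ j') :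
    LL V L.τ S.Y C (S.cJ (S.μ j)) (S.xJ (S.μ j)) (pc j') = 0 := by
  have h1 := S.hμ0 j hj j' hj' hne
  refine LL_J_zero (fun i hi _ => ?_) (fun b hb => ?_)
  · have h2 : pc j' = (pc (Sum.inr i) : Ix k I m r) := hi
    rw [pc_injective h2] at h1
    exact h1
  · have h2 : pc j' = (pc (Sum.inl b) : Ix k I m r) := hb
    rw [pc_injective h2] at h1
    exact h1

end RJ

section R0

theorem TT_0 (e : Fin S.d₀) (l : S.υ) : TT V L.τ S.Y C (S.c0 e) 0 l =
    aeval (fun l => resv V (S.Y l)) (pderiv l (S.c0 e (Sum.inr false))) := by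
  refine TT_false ?_ l
  rintro (s | _ | _) hs
  · rfl
  · exact absurd rfl hs
  · rfl

theorem natCast_p_poly (S : EData L) : ((p : ℕ) : MvPolynomial S.υ k) = 0 := by
  rw [← map_natCast MvPolynomial.C, CharP.cast_eq_zero, map_zero]

theorem pderiv_reg (d : Fin m → k) (e : Fin S.d₀ ⊕ Fin S.d₁) :
    pderiv (Sum.inr (Sum.inl e) : S.υ) (S.reg d) = 0 := by
  rw [EData.reg, map_sum]
  refine Finset.sum_eq_zero fun i _ => ?_
  rw [map_sum]
  refine Finset.sum_eq_zero fun a _ => ?_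
  rw [pderiv_C_mul, pderiv_X_of_ne Sum.inl_ne_inr, mul_zero]

theorem TT_0_inl (e e' : Fin S.d₀) :
    TT V L.τ S.Y C (S.c0 e) 0 (Sum.inr (Sum.inl (Sum.inl e'))) = if e = e' then -1 else 0 := by
  classical
  rw [TT_0]
  have h1 : S.c0 e (Sum.inr false) = S.lin (L.rt (S.β (Sum.inl e))) ^ p -
      X (Sum.inr (Sum.inl (Sum.inl e))) - S.reg (S.β (Sum.inl e)) := rfl
  have h2 : pderiv (Sum.inr (Sum.inl (Sum.inl e')) : S.υ) (S.c0 e (Sum.inr false)) =
      -(if e = e' then (1 : MvPolynomial S.υ k) else 0) := by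
    rw [h1, map_sub, map_sub, pderiv_reg, pderiv_pow, natCast_p_poly, zero_mul, zero_mul, zero_sub,
      sub_zero, pderiv_X, Pi.single_apply]
    by_cases he : e = e'
    · rw [if_pos (by rw [he]), if_pos he]
    · rw [if_neg (by
        intro h'
        exact he (Sum.inl_injective (Sum.inl_injective (Sum.inr_injective h')))), if_neg he]
  rw [h2]
  split_ifs
  · rw [map_neg, map_one]
  · rw [neg_zero, map_zero]

end R0

section RK

theorem TT_K (a : k) (l : S.υ) : TT V L.τ S.Y C (S.cK a) 0 l =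
    if l = Sum.inr (Sum.inr a) then 1 else 0 := by
  classical
  have h1 : TT V L.τ S.Y C (S.cK a) 0 l =
      aeval (fun l => resv V (S.Y l)) (pderiv l (S.cK a (Sum.inr false))) := by
    refine TT_false ?_ l
    rintro (s | _ | _) hs
    · rfl
    · exact absurd rfl hs
    · rfl
  have h2 : S.cK a (Sum.inr false) = X (Sum.inr (Sum.inr a)) - MvPolynomial.C a := rfl
  rw [h1, h2, map_sub, pderiv_C, sub_zero, pderiv_X, Pi.single_apply]
  by_cases hl : l = Sum.inr (Sum.inr a)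
  · rw [if_pos hl.symm, if_pos hl, map_one]
  · rw [if_neg (Ne.symm hl), if_neg hl, map_zero]

/-- Relations without the variables of the constants. -/
theorem TT_const {c : Tm k I m → MvPolynomial S.υ k} {x : Tm k I m → Ix k I m r → ℤ} {l : S.υ}
    (h : ∀ s, pderiv l (c s) = 0) : TT V L.τ S.Y C c x l = 0 := TT_eq_zero h

end RK

section RW

theorem LL_W_self (h : Ctx L M' C) (b : Fin r) :
    LL V L.τ S.Y C (S.cW b) (S.xW b) (Sum.inr (Sum.inr b)) ≠ 0 := by
  classical
  refine LL_ne_zero (Sum.inr true) ?_ ?_ ?_ ?_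
  · rintro (s | _ | _) hs
    · exact Or.inl rfl
    · right; right
      show (((0 : ℤ)) : ResidueField V) = 0
      rw [Int.cast_zero]
    · exact absurd rfl hs
  · show aeval _ (1 : MvPolynomial S.υ k) ≠ 0
    rw [map_one]; exact one_ne_zero
  · refine ee_ne_zero L.τ_ne_zero h.hC h.hb
      (fun s _ s' _ => h.hS _ (xW_mem h b s) _ (xW_mem h b s'))
      (show S.cW b (Sum.inr true) ≠ 0 from one_ne_zero) ?_
    rintro (s | _ | _) hs
    · exact absurd rfl hs
    · show V.valuation (mon L.τ (Sum.elim (fun i => L.κ i b) 0 : Ix k I m r → ℤ)) ≤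
        V.valuation (mon L.τ ((Nw b : ℤ) • LData.Ew k I m M b))
      rw [mon_smul, L.mon_Ew, zpow_natCast, L.KM, mon_κ, Finset.prod_mul_distrib, map_mul,
        map_prod V.valuation (fun i => L.y i (L.q i b)),
        Finset.prod_eq_one (fun i _ => L.vq i b), one_mul]
    · exact le_rfl
  · show (((Nw b : ℤ) * (Pi.single b 1 : Fin r → ℤ) b : ℤ) : ResidueField V) ≠ 0
    rw [Pi.single_eq_same, mul_one, Int.cast_natCast]
    exact natCast_ne k V (L.Nw0 b)

theorem LL_W_of_ne {b b' : Fin r} (hne : b' ≠ b) :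
    LL V L.τ S.Y C (S.cW b) (S.xW b) (Sum.inr (Sum.inr b')) = 0 := by
  classical
  apply LL_eq_zero
  rintro (s | _ | _)
  · exact Or.inl rfl
  · right; right
    show (((0 : ℤ)) : ResidueField V) = 0
    rw [Int.cast_zero]
  · right; right
    show (((Nw b : ℤ) * (Pi.single b 1 : Fin r → ℤ) b' : ℤ) : ResidueField V) = 0
    rw [Pi.single_eq_of_ne hne, mul_zero, Int.cast_zero]

end RW

end Pool.Agent.H96.W2
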