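import Pool.Agent.H96.W2.LocC

/-!
# Local regularity
-/

set_option autoImplicit false
set_option linter.unusedSectionVars false

namespace Pool.Agent.H96.W2

open MvPolynomial IsLocalRing Pool.Agent.H96.Reg Pool.Agent.H96.VL Pool.Agent.H96.W

variable {p : ℕ} [Fact p.Prime] {k : Type} [Field k] [Fintype k] [DecidableEq k] {K : Type}
  [Field K] [Algebra k K] {V : ValuationSubring K} {I : Type} [Fintype I] [DecidableEq I] {m r : ℕ}
  {Nw : Fin r → ℕ} {M M' : ℕ} {L : LData p k V I m r Nw M}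
  [CharP k p] [Algebra k (ResidueField V)] {C : Cone (Ix k I m r)} {S : EData L}

/-- The index set of the relations. -/
abbrev EData.κ (S : EData L) : Type :=
  I ⊕ ((Σ i : I, Fin (L.n i)) ⊕ ({c : Fin m → k // c ∉ S.B} ⊕ (S.J ⊕ (Fin S.d₀ ⊕ (Fin r ⊕ k)))))

/-- The coefficients of the relations. -/
noncomputable def EData.cc (S : EData L) : S.κ → Tm k I m → MvPolynomial S.υ k :=
  Sum.elim S.cI (Sum.elim (fun s => S.cG s.1 s.2) (Sum.elim (fun c => S.cC c)
    (Sum.elim (fun j => S.cJ (S.μ j)) (Sum.elim S.c0 (Sum.elim S.cW S.cK)))))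

/-- The exponents of the relations. -/
noncomputable def EData.xx (S : EData L) : S.κ → Tm k I m → Ix k I m r → ℤ :=
  Sum.elim S.xI (Sum.elim (fun _ => 0) (Sum.elim (fun c => S.xC c)
    (Sum.elim (fun j => S.xJ (S.μ j)) (Sum.elim (fun _ => 0) (Sum.elim S.xW fun _ => 0)))))

theorem xx_mem (h : Ctx L M' C) (j : S.κ) (s : Tm k I m) : S.xx j s ∈ BX (Ix k I m r) M' := by
  rcases j with i | s | c | j | a | b | a
  · exact xI_mem (S := S) h i _
  · exact zero_mem_BX
  · exact xC_mem (S := S) h _ _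
  · exact xJ_mem (S := S) h _ _
  · exact zero_mem_BX
  · exact xW_mem (S := S) h _ _
  · exact zero_mem_BX

theorem ρ_rel (j : S.κ) : ∑ s, aeval S.Y (S.cc j s) * mon L.τ (S.xx j s) = 0 := by
  rcases j with i | s | c | j | a | b | a
  · exact rel_I i
  · exact rel_G s.1 s.2
  · exact rel_C _
  · exact rel_J _
  · exact rel_0 a
  · exact rel_W b
  · exact rel_K a

theorem card_le (S : EData L) : Fintype.card (Ix k I m r) + Fintype.card S.υ ≤
    Fintype.card I + Fintype.card S.κ := by
  have h1 : Fintype.card {c : Fin m → k // c ∉ S.B} =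
      Fintype.card (Fin m → k) - S.B.card := by
    rw [Fintype.card_subtype_compl, Fintype.card_coe]
  have h2 : S.B.card ≤ Fintype.card (Fin m → k) := Finset.card_le_univ _
  have h3 := S.card₁
  have h4 := S.card₂
  simp only [EData.υ, EData.κ, Fintype.card_sum, Fintype.card_sigma, Fintype.card_fin,
    Finset.sum_add_distrib, Finset.sum_const, Finset.card_univ, smul_eq_mul, mul_one, h1,
    Fintype.card_coe]
  omega

theorem det_ne_zero (hA : CompatA k V) (i : I) : (Matrix.of fun a b =>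
    aeval (fun b => resv V (L.y i b)) (pderiv b (L.G i a))).det ≠ 0 := by
  have h1 := RingHom.map_det (aeval (fun b => resv V (L.y i b)) :
    MvPolynomial (Fin (L.n i + 1)) k →ₐ[k] ResidueField V).toRingHom
      (Matrix.of fun a b => pderiv b (L.G i a))
  have h2 : (aeval (fun b => resv V (L.y i b)) :
      MvPolynomial (Fin (L.n i + 1)) k →ₐ[k] ResidueField V)
      (Matrix.of fun a b => pderiv b (L.G i a)).det ≠ 0 := by
    have h3 := resv_aeval2 hA (L.y i) (L.vy i) (Matrix.of fun a b => pderiv b (L.G i a)).det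
    rw [← h3.2, resv_ne_zero_iff h3.1]
    exact L.det i
  intro h0
  apply h2
  refine h1.trans ?_
  rw [← h0]
  congr 1

theorem TT_0_const (e : Fin S.d₀) (a : k) :
    TT V L.τ S.Y C (S.c0 e) 0 (Sum.inr (Sum.inr a)) = 0 := by
  have hne : ∀ b : Fin S.d₀ ⊕ Fin S.d₁, (Sum.inr (Sum.inl b) : S.υ) ≠ Sum.inr (Sum.inr a) :=
    fun b h => Sum.inl_ne_inr (Sum.inr_injective h)
  have h1 : pderiv (Sum.inr (Sum.inr a) : S.υ) (S.lin (L.rt (S.β (Sum.inl e)))) = 0 := by
    rw [EData.lin, map_sum]
    refine Finset.sum_eq_zero fun b _ => ?_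
    rw [pderiv_C_mul, pderiv_X_of_ne (hne b), mul_zero]
  have h2 : pderiv (Sum.inr (Sum.inr a) : S.υ) (S.reg (S.β (Sum.inl e))) = 0 := by
    rw [EData.reg, map_sum]
    refine Finset.sum_eq_zero fun i _ => ?_
    rw [map_sum]
    refine Finset.sum_eq_zero fun a _ => ?_
    rw [pderiv_C_mul, pderiv_X_of_ne Sum.inl_ne_inr, mul_zero]
  have h3 : S.c0 e (Sum.inr false) = S.lin (L.rt (S.β (Sum.inl e))) ^ p -
      X (Sum.inr (Sum.inl (Sum.inl e))) - S.reg (S.β (Sum.inl e)) := rfl
  have h4 : pderiv (Sum.inr (Sum.inr a) : S.υ) (S.c0 e (Sum.inr false)) = 0 := by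
    rw [h3, map_sub, map_sub, h2, pderiv_pow, h1, mul_zero, pderiv_X_of_ne (hne _), sub_zero,
      sub_zero]
  rw [TT_0, h4, map_zero]

/-- **Independence.** -/
theorem ρ_indep (hA : CompatA k V) (h : Ctx L M' C) (a : S.κ → ResidueField V)
    (hLα : ∀ α, ∑ j, a j * LL V L.τ S.Y C (S.cc j) (S.xx j) α = 0)
    (hTl : ∀ l, ∑ j, a j * TT V L.τ S.Y C (S.cc j) (S.xx j) l = 0) : ∀ j, a j = 0 := by
  classical
  set aI : I → ResidueField V := fun i => a (Sum.inl i) with haI
  set aG : (Σ i : I, Fin (L.n i)) → ResidueField V := fun s => a (Sum.inr (Sum.inl s)) with haG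
  set aC : {c : Fin m → k // c ∉ S.B} → ResidueField V :=
    fun c => a (Sum.inr (Sum.inr (Sum.inl c))) with haC
  set aJ : S.J → ResidueField V := fun j => a (Sum.inr (Sum.inr (Sum.inr (Sum.inl j)))) with haJ
  set a0 : Fin S.d₀ → ResidueField V :=
    fun j => a (Sum.inr (Sum.inr (Sum.inr (Sum.inr (Sum.inl j))))) with ha0
  set aW : Fin r → ResidueField V :=
    fun j => a (Sum.inr (Sum.inr (Sum.inr (Sum.inr (Sum.inr (Sum.inl j)))))) with haW
  set aK : k → ResidueField V :=
    fun j => a (Sum.inr (Sum.inr (Sum.inr (Sum.inr (Sum.inr (Sum.inr j)))))) with haK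
  have hL : ∀ α, ∑ i, aI i * LL V L.τ S.Y C (S.cI i) (S.xI i) α +
      (∑ s, aG s * LL V L.τ S.Y C (S.cG s.1 s.2) 0 α +
      (∑ c, aC c * LL V L.τ S.Y C (S.cC c) (S.xC c) α +
      (∑ j, aJ j * LL V L.τ S.Y C (S.cJ (S.μ j)) (S.xJ (S.μ j)) α +
      (∑ b, a0 b * LL V L.τ S.Y C (S.c0 b) 0 α +
      (∑ b, aW b * LL V L.τ S.Y C (S.cW b) (S.xW b) α +
        ∑ b, aK b * LL V L.τ S.Y C (S.cK b) 0 α))))) = 0 := by
    intro α
    have := hLα α
    rw [Fintype.sum_sum_type, Fintype.sum_sum_type, Fintype.sum_sum_type,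
      Fintype.sum_sum_type, Fintype.sum_sum_type, Fintype.sum_sum_type] at this
    exact this
  have hT : ∀ l, ∑ i, aI i * TT V L.τ S.Y C (S.cI i) (S.xI i) l +
      (∑ s, aG s * TT V L.τ S.Y C (S.cG s.1 s.2) 0 l +
      (∑ c, aC c * TT V L.τ S.Y C (S.cC c) (S.xC c) l +
      (∑ j, aJ j * TT V L.τ S.Y C (S.cJ (S.μ j)) (S.xJ (S.μ j)) l +
      (∑ b, a0 b * TT V L.τ S.Y C (S.c0 b) 0 l +
      (∑ b, aW b * TT V L.τ S.Y C (S.cW b) (S.xW b) l +
        ∑ b, aK b * TT V L.τ S.Y C (S.cK b) 0 l))))) = 0 := by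
    intro l
    have := hTl l
    rw [Fintype.sum_sum_type, Fintype.sum_sum_type, Fintype.sum_sum_type,
      Fintype.sum_sum_type, Fintype.sum_sum_type, Fintype.sum_sum_type] at this
    exact this
  clear hLα hTl
  have zG : ∀ α, ∑ s, aG s * LL V L.τ S.Y C (S.cG s.1 s.2) 0 α = 0 := fun α =>
    Finset.sum_eq_zero fun s _ => by rw [LL_zero, mul_zero]
  have z0 : ∀ α, ∑ b, a0 b * LL V L.τ S.Y C (S.c0 b) 0 α = 0 := fun α =>
    Finset.sum_eq_zero fun s _ => by rw [LL_zero, mul_zero]
  have zK : ∀ α, ∑ b, aK b * LL V L.τ S.Y C (S.cK b) 0 α = 0 := fun α =>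
    Finset.sum_eq_zero fun s _ => by rw [LL_zero, mul_zero]
  have hL' : ∀ α, ∑ i, aI i * LL V L.τ S.Y C (S.cI i) (S.xI i) α +
      (∑ c, aC c * LL V L.τ S.Y C (S.cC c) (S.xC c) α +
      (∑ j, aJ j * LL V L.τ S.Y C (S.cJ (S.μ j)) (S.xJ (S.μ j)) α +
      ∑ b, aW b * LL V L.τ S.Y C (S.cW b) (S.xW b) α)) = 0 := by
    intro α
    have := hL α
    rwa [zG, z0, zK, zero_add, zero_add, add_zero] at this
  clear hL zG z0 zK
  -- the Kummer coordinates
  have hW : ∀ b, aW b = 0 := by
    intro b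
    have h1 := hL' (Sum.inr (Sum.inr b))
    rw [Finset.sum_eq_zero (fun i _ => by rw [LL_I_of_ne Sum.inr_ne_inl, mul_zero]),
      Finset.sum_eq_zero (s := (Finset.univ : Finset {c : Fin m → k // c ∉ S.B})) (fun c _ => by
        have hne : ∀ c : Fin m → k, (Sum.inr (Sum.inr b) : Ix k I m r) ≠ Sum.inr (Sum.inl c) :=
          fun c h' => Sum.inr_ne_inl (Sum.inr_injective h')
        by_cases hc : (c : Fin m → k) ∈ L.C1
        · rw [LL_C_mem_of_ne hc (hne _), mul_zero]
        · rw [LL_C_pole_of_ne hc (fun b _ => hne b) (hne _), mul_zero]),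
      Finset.sum_eq_zero (s := (Finset.univ : Finset S.J)) (fun j _ => by
        rw [LL_J_zero (fun i hi => absurd hi Sum.inr_ne_inl)
          (fun c hc => absurd (Sum.inr_injective hc) Sum.inr_ne_inl), mul_zero]),
      zero_add, zero_add, zero_add, Finset.sum_eq_single b] at h1
    · exact (mul_eq_zero.mp h1).resolve_right (LL_W_self h b)
    · intro b' _ hne
      rw [LL_W_of_ne (Ne.symm hne), mul_zero]
    · intro h'; exact absurd (Finset.mem_univ _) h'
  have hL'' : ∀ α, ∑ i, aI i * LL V L.τ S.Y C (S.cI i) (S.xI i) α +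
      (∑ c, aC c * LL V L.τ S.Y C (S.cC c) (S.xC c) α +
      ∑ j, aJ j * LL V L.τ S.Y C (S.cJ (S.μ j)) (S.xJ (S.μ j)) α) = 0 := by
    intro α
    have := hL' α
    rwa [Finset.sum_eq_zero (s := (Finset.univ : Finset (Fin r))) (fun b _ => by
      rw [hW b, zero_mul]), add_zero] at this
  clear hL'
  -- the coordinates `ω_c`
  have hac : ∀ c, aC c = 0 := by
    intro c
    have h1 := hL'' (Sum.inr (Sum.inl c))
    rw [Finset.sum_eq_zero (fun i _ => by rw [LL_I_of_ne Sum.inr_ne_inl, mul_zero]),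
      zero_add, Finset.sum_eq_zero (s := (Finset.univ : Finset S.J)) (fun j _ => by
        rw [LL_J_zero (fun i hi => absurd hi Sum.inr_ne_inl) (fun b hb => by
          rw [← Sum.inl_injective (Sum.inr_injective hb)]
          exact S.a_ne c.2), mul_zero]), add_zero, Finset.sum_eq_single c] at h1
    · refine (mul_eq_zero.mp h1).resolve_right ?_
      by_cases hc : (c : Fin m → k) ∈ L.C1
      · exact LL_C_mem h hc
      · exact LL_C_pole h hc c.2
    · intro c' _ hne
      have hne' : (Sum.inr (Sum.inl (c : Fin m → k)) : Ix k I m r) ≠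
          Sum.inr (Sum.inl (c' : Fin m → k)) :=
        fun h' => hne (Subtype.ext (Sum.inl_injective (Sum.inr_injective h')).symm)
      by_cases hc : (c' : Fin m → k) ∈ L.C1
      · rw [LL_C_mem_of_ne hc hne', mul_zero]
      · have hcB : ∀ b ∈ S.B, (Sum.inr (Sum.inl (c : Fin m → k)) : Ix k I m r) ≠
            Sum.inr (Sum.inl b) := fun b hb h' => c.2 (by
          rw [Sum.inl_injective (Sum.inr_injective h')]; exact hb)
        rw [LL_C_pole_of_ne hc hcB hne', mul_zero]
    · intro h'; exact absurd (Finset.mem_univ _) h'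
  have hL3 : ∀ α, ∑ i, aI i * LL V L.τ S.Y C (S.cI i) (S.xI i) α +
      ∑ j, aJ j * LL V L.τ S.Y C (S.cJ (S.μ j)) (S.xJ (S.μ j)) α = 0 := by
    intro α
    have := hL'' α
    rwa [Finset.sum_eq_zero (s := (Finset.univ : Finset {c : Fin m → k // c ∉ S.B})) (fun b _ => by
      rw [hac b, zero_mul]), zero_add] at this
  clear hL''
  -- the pivots
  have haj : ∀ j, aJ j = 0 := by
    rintro ⟨j, hj⟩
    have h1 := hL3 (pc j)
    rw [Finset.sum_eq_zero (s := (Finset.univ : Finset I)) (fun i _ => by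
        rcases j with b | j
        · rw [pc_inl, LL_I_of_ne Sum.inr_ne_inl, mul_zero]
        · rw [pc_inr]
          by_cases hi : i = j
          · rw [LL_I_unif h (by rw [hi]; exact (L.act j (S.hJI j hj)).2.2), mul_zero]
          · rw [LL_I_of_ne (fun h' => hi (Sum.inl_injective h').symm), mul_zero]),
      zero_add, Finset.sum_eq_single ⟨j, hj⟩] at h1
    · exact (mul_eq_zero.mp h1).resolve_right (LL_J_self h hj)
    · intro j' _ hne
      rw [LL_J_of_ne j'.2 hj (fun h' => hne (Subtype.ext h')), mul_zero]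
    · intro h'; exact absurd (Finset.mem_univ _) h'
  -- the trivial coordinates `τ_i`
  have hai : ∀ i, L.t i = 1 → aI i = 0 := by
    intro i hi
    have h1 := hL3 (Sum.inl i)
    rw [Finset.sum_eq_zero (s := (Finset.univ : Finset S.J)) (fun j _ => by
        rw [haj, zero_mul]), add_zero, Finset.sum_eq_single i] at h1
    · exact (mul_eq_zero.mp h1).resolve_right (LL_I_one h hi)
    · intro i' _ hne
      rw [LL_I_of_ne (fun h' => hne (Sum.inl_injective h').symm), mul_zero]
    · intro h'; exact absurd (Finset.mem_univ _) h'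
  clear hL3
  have hT' : ∀ l, ∑ i, aI i * TT V L.τ S.Y C (S.cI i) (S.xI i) l +
      (∑ s, aG s * TT V L.τ S.Y C (S.cG s.1 s.2) 0 l +
      (∑ b, a0 b * TT V L.τ S.Y C (S.c0 b) 0 l +
        ∑ b, aK b * TT V L.τ S.Y C (S.cK b) 0 l)) = 0 := by
    intro l
    have := hT l
    rwa [Finset.sum_eq_zero (s := (Finset.univ : Finset {c : Fin m → k // c ∉ S.B})) (fun b _ => by
        rw [hac b, zero_mul]), zero_add,
      Finset.sum_eq_zero (s := (Finset.univ : Finset S.J)) (fun j _ => by
        rw [haj, zero_mul]), zero_add,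
      Finset.sum_eq_zero (s := (Finset.univ : Finset (Fin r))) (fun b _ => by
        rw [hW b, zero_mul]), zero_add] at this
  clear hT
  have zI : ∀ l : (Fin S.d₀ ⊕ Fin S.d₁) ⊕ k,
      ∑ i, aI i * TT V L.τ S.Y C (S.cI i) (S.xI i) (Sum.inr l) = 0 := fun l =>
    Finset.sum_eq_zero fun i _ => by
      by_cases hi : L.t i = 1
      · rw [TT_I_one hi, mul_zero]
      · obtain ⟨w, -, hw⟩ := TT_I_unif (S := S) h hi
        rw [hw, if_neg Sum.inr_ne_inl, mul_zero]
  have zG : ∀ l : (Fin S.d₀ ⊕ Fin S.d₁) ⊕ k,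
      ∑ s, aG s * TT V L.τ S.Y C (S.cG s.1 s.2) 0 (Sum.inr l) = 0 := fun l =>
    Finset.sum_eq_zero fun s _ => by
      rw [TT_G_of_notMem _ _ _ (fun b => Sum.inr_ne_inl), mul_zero]
  -- the constants
  have hK : ∀ b, aK b = 0 := by
    intro b
    have h1 := hT' (Sum.inr (Sum.inr b))
    rw [zI, zG, zero_add, zero_add, Finset.sum_eq_zero (s := (Finset.univ : Finset (Fin S.d₀)))
      (fun e _ => by rw [TT_0_const, mul_zero]), zero_add, Finset.sum_eq_single b] at h1
    · rw [TT_K, if_pos rfl, mul_one] at h1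
      exact h1
    · intro b' _ hne
      rw [TT_K, if_neg (fun h' => hne (Sum.inr_injective (Sum.inr_injective h')).symm), mul_zero]
    · intro h'; exact absurd (Finset.mem_univ _) h'
  -- the integral Artin-Schreier relations
  have ha0' : ∀ b, a0 b = 0 := by
    intro b
    have h1 := hT' (Sum.inr (Sum.inl (Sum.inl b)))
    rw [zI, zG, zero_add, zero_add, Finset.sum_eq_zero (s := (Finset.univ : Finset k))
      (fun e _ => by rw [hK, zero_mul]), add_zero, Finset.sum_eq_single b] at h1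
    · rw [TT_0_inl, if_pos rfl] at h1
      simpa using h1
    · intro b' _ hne
      rw [TT_0_inl, if_neg hne, mul_zero]
    · intro h'; exact absurd (Finset.mem_univ _) h'
  have hT2 : ∀ l, ∑ i, aI i * TT V L.τ S.Y C (S.cI i) (S.xI i) l +
      ∑ s, aG s * TT V L.τ S.Y C (S.cG s.1 s.2) 0 l = 0 := by
    intro l
    have := hT' l
    rwa [Finset.sum_eq_zero (s := (Finset.univ : Finset (Fin S.d₀))) (fun b _ => by
        rw [ha0' b, zero_mul]), zero_add,
      Finset.sum_eq_zero (s := (Finset.univ : Finset k)) (fun b _ => by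
        rw [hK b, zero_mul]), add_zero] at this
  clear hT'
  -- the curves
  have hcurve : ∀ i, (L.t i ≠ 1 → aI i = 0) ∧ ∀ j : Fin (L.n i), aG ⟨i, j⟩ = 0 := by
    intro i
    obtain ⟨w, hw0, hw⟩ : ∃ w : ResidueField V, (L.t i ≠ 1 → w ≠ 0) ∧ ∀ b : Fin (L.n i + 1),
        aI i * TT V L.τ S.Y C (S.cI i) (S.xI i) (Sum.inl ⟨i, b⟩ : S.υ) =
          aI i * w * if b = L.l i then 1 else 0 := by
      by_cases hi : L.t i = 1
      · refine ⟨1, fun h' => absurd hi h', fun b => ?_⟩
        rw [hai i hi, zero_mul, zero_mul, zero_mul]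
      · obtain ⟨w, hw0, hw⟩ := TT_I_unif (S := S) h hi
        refine ⟨w, fun _ => hw0, fun b => ?_⟩
        rw [hw]
        by_cases hb : b = L.l i
        · rw [if_pos (by rw [hb]), if_pos hb, mul_one]
        · rw [if_neg (by
            intro h'
            apply hb
            simpa using h'), if_neg hb, mul_zero, mul_zero]
    have key : ∀ b : Fin (L.n i + 1), ∑ j : Fin (L.n i + 1),
        (Fin.cons (aI i * w) (fun j => aG ⟨i, j⟩) : Fin (L.n i + 1) → ResidueField V) j *
        aeval (fun b => resv V (L.y i b)) (pderiv b (L.G i j)) = 0 := by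
      intro b
      rw [Fin.sum_univ_succ]
      simp only [Fin.cons_zero, Fin.cons_succ]
      rw [L.G0 i, pderiv_X, Pi.single_apply]
      have h1 := hT2 (Sum.inl ⟨i, b⟩)
      rw [Finset.sum_eq_single i, Fintype.sum_sigma, Finset.sum_eq_single i] at h1
      · rw [hw b] at h1
        have h2 : (aeval (fun b => resv V (L.y i b))
            (if L.l i = b then (1 : MvPolynomial (Fin (L.n i + 1)) k) else 0)) =
            (if b = L.l i then (1 : ResidueField V) else 0) := by
          by_cases hb : b = L.l i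
          · rw [if_pos hb.symm, if_pos hb, map_one]
          · rw [if_neg (Ne.symm hb), if_neg hb, map_zero]
        rw [h2]
        refine Eq.trans ?_ h1
        have h3 : ∀ j : Fin (L.n i), TT V L.τ S.Y C (S.cG i j) 0 (Sum.inl ⟨i, b⟩ : S.υ) =
            aeval (fun b => resv V (L.y i b)) (pderiv b (L.G i j.succ)) := fun j => TT_G_same i j b
        simp only [h3]
      · intro i' _ hne
        refine Finset.sum_eq_zero fun j _ => ?_
        rw [TT_G_of_notMem _ _ _ (by
          intro b' h'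
          apply hne
          have := Sum.inl_injective h'
          exact (congrArg Sigma.fst this).symm), mul_zero]
      · intro h'; exact absurd (Finset.mem_univ _) h'
      · intro i' _ hne
        by_cases hi : L.t i' = 1
        · rw [TT_I_one hi, mul_zero]
        · obtain ⟨w', -, hw'⟩ := TT_I_unif (S := S) h hi
          rw [hw', if_neg (by
            intro h'
            apply hne
            have := Sum.inl_injective h'
            exact (congrArg Sigma.fst this).symm), mul_zero]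
      · intro h'; exact absurd (Finset.mem_univ _) h'
    have hvec : Matrix.vecMul (Fin.cons (aI i * w) (fun j => aG ⟨i, j⟩) :
        Fin (L.n i + 1) → ResidueField V) (Matrix.of fun a b =>
        aeval (fun b => resv V (L.y i b)) (pderiv b (L.G i a))) = 0 := by
      funext b
      exact key b
    have hz := Matrix.eq_zero_of_vecMul_eq_zero (det_ne_zero hA i) hvec
    refine ⟨fun hi => ?_, fun j => ?_⟩
    · have h1 := congrFun hz 0
      rw [Fin.cons_zero, Pi.zero_apply] at h1
      exact (mul_eq_zero.mp h1).resolve_right (hw0 hi)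
    · have h1 := congrFun hz j.succ
      rw [Fin.cons_succ, Pi.zero_apply] at h1
      exact h1
  rintro (i | ⟨i, j⟩ | c | j | b | b | b)
  · by_cases hi : L.t i = 1
    · exact hai i hi
    · exact (hcurve i).1 hi
  · exact (hcurve i).2 j
  · exact hac c
  · exact haj j
  · exact ha0' b
  · exact hW b
  · exact hK b

/-- **Local regularity.** -/
theorem isRegular_local (S : EData L) (hA : CompatA k V) (h : Ctx L M' C)
    (halg : Algebra.IsAlgebraic (Algebra.adjoin k
      (Set.range (Sum.elim (fun j => mon L.τ (C.b j)) S.Y))) K)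
    (htr : (Fintype.card I : Cardinal.{0}) ≤ Algebra.trdeg k K) :
    IsRegularLocalRing (vloc V (Algebra.adjoin ℤ
      (Set.range (Sum.elim (fun j => mon L.τ (C.b j)) S.Y)))) := by
  refine isRegular_of_mrel2 V hA L.τ_ne_zero h.hC
    h.hb S.vY (fun a => ⟨Sum.inr (Sum.inr a), rfl⟩) halg
    (fun j : S.κ => mrel C (S.cc j) (S.xx j))
    (fun j => mrel_ok fun s _ s' _ => h.hS _ (xx_mem h j s) _ (xx_mem h j s')) ρ_rel ?_ ?_
  · have h1 := card_le S
    calc ((Fintype.card (Ix k I m r) : Cardinal.{0}) + Fintype.card S.υ) =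
          ((Fintype.card (Ix k I m r) + Fintype.card S.υ : ℕ) : Cardinal.{0}) := by
            push_cast; rfl
      _ ≤ ((Fintype.card I + Fintype.card S.κ : ℕ) : Cardinal.{0}) := by exact_mod_cast h1
      _ = (Fintype.card I : Cardinal.{0}) + Fintype.card S.κ := by push_cast; rfl
      _ ≤ _ := by gcongr
  · intro a ha1 ha2
    exact ρ_indep hA h a ha1 ha2

end Pool.Agent.H96.W2
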